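import Mathlib

/-! Largeness of groups, rooted trees, branch groups and minimal groups. -/

set_option autoImplicit false

universe u v

namespace Pool.Agent.TH108.MB

/-- `G ⪰ H` (`G` is at least as large as `H`): a subgroup of finite index of `G` maps onto
`H₀ / N`, for a subgroup `H₀` of finite index of `H` and a finite normal subgroup `N` of `H₀`. -/
def Larger (G : Type u) (H : Type v) [Group G] [Group H] : Prop :=
  ∃ (G₀ : Subgroup G) (H₀ : Subgroup H) (N : Subgroup H₀) (_ : N.Normal) (f : G₀ →* H₀ ⧸ N),
    G₀.FiniteIndex ∧ H₀.FiniteIndex ∧ Finite N ∧ Function.Surjective f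

/-- `G` and `H` are (abstractly) commensurable: they have isomorphic subgroups of finite index. -/
def Commensurable (G : Type u) (H : Type v) [Group G] [Group H] : Prop :=
  ∃ (G₀ : Subgroup G) (H₀ : Subgroup H), G₀.FiniteIndex ∧ H₀.FiniteIndex ∧ Nonempty (G₀ ≃* H₀)

/-- `G` is just infinite: it is infinite and all its proper quotients are finite. -/
def JustInfinite (G : Type u) [Group G] : Prop :=
  Infinite G ∧ ∀ N : Subgroup G, N.Normal → N ≠ ⊥ → N.FiniteIndex

/-- `G` is minimal: it is infinite, and each infinite `H` with `G ⪰ H` satisfies `H ⪰ G`. -/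
def IsMinimal (G : Type u) [Group G] : Prop :=
  Infinite G ∧ ∀ (H : Type u) [Group H], Larger G H → Infinite H → Larger H G

/-- The vertices of level `n` of the spherically homogeneous rooted tree in which each vertex of
level `n` has `k n` children: words of length `n`, with `i`-th letter in `{0, …, k i - 1}`. -/
abbrev Word (k : ℕ → ℕ) (n : ℕ) : Type := ∀ i : Fin n, Fin (k i)

/-- The vertices of the tree. -/
abbrev Vertex (k : ℕ → ℕ) : Type := Σ n : ℕ, Word k n

/-- `v` is a vertex of the subtree rooted at `u`: the word `u` is an initial segment of the word `v`. -/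
def Below {k : ℕ → ℕ} (u v : Vertex k) : Prop :=
  ∃ h : u.1 ≤ v.1, ∀ i : Fin u.1, v.2 (Fin.castLE h i) = u.2 i

/-- A faithful action of the group `G` on the tree by automorphisms: by permutations of the set of
vertices which preserve the levels and map subtrees into subtrees. -/
structure TreeAction (k : ℕ → ℕ) (G : Type u) [Group G] where
  act : G →* Equiv.Perm (Vertex k)
  faithful : Function.Injective act
  level : ∀ g v, (act g v).1 = v.1
  below : ∀ g u v, Below u v → Below (act g u) (act g v)

namespace TreeAction

variable {k : ℕ → ℕ} {G : Type u} [Group G] (A : TreeAction k G)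

/-- The rigid stabilizer of the vertex `u`: the elements whose support lies in the subtree rooted
at `u`. -/
def rist (u : Vertex k) : Subgroup G where
  carrier := {g | ∀ v, ¬ Below u v → A.act g v = v}
  one_mem' := fun v _ => by simp
  mul_mem' := fun {g h} hg hh v hv => by
    rw [map_mul, Equiv.Perm.mul_apply, hh v hv, hg v hv]
  inv_mem' := fun {g} hg v hv => by
    rw [map_inv, Equiv.Perm.inv_eq_iff_eq, hg v hv]

/-- The rigid stabilizer of the level `n`: the subgroup generated by the rigid stabilizers of the
vertices of level `n`. -/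
def ristLevel (n : ℕ) : Subgroup G := ⨆ w : Word k n, A.rist ⟨n, w⟩

/-- The action is transitive on each level. -/
def LevelTransitive : Prop := ∀ (n : ℕ) (v w : Word k n), ∃ g, A.act g ⟨n, v⟩ = ⟨n, w⟩

/-- The action makes `G` a branch group. -/
def Branch : Prop := A.LevelTransitive ∧ ∀ n, (A.ristLevel n).FiniteIndex

end TreeAction

/-- `G` is a branch group. -/
def IsBranch (G : Type u) [Group G] : Prop :=
  ∃ k : ℕ → ℕ, (∀ n, 2 ≤ k n) ∧ ∃ A : TreeAction k G, A.Branch

end Pool.Agent.TH108.MB
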