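import Mathlib
import Pool.Agent.TH108.MBDefs

/-! Largeness and commensurability in terms of spans of homomorphisms. -/

set_option autoImplicit false

universe u

namespace Pool.Agent.TH108.MB

open Function

/-- Span form of largeness. -/
def Spn (G H : Type u) [Group G] [Group H] : Prop :=
  ∃ (K : Type u) (_ : Group K) (α : K →* G) (β : K →* H),
    Finite α.ker ∧ α.range.FiniteIndex ∧ β.range.FiniteIndex

/-- Span form of commensurability. -/
def Cm (G H : Type u) [Group G] [Group H] : Prop :=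
  ∃ (K : Type u) (_ : Group K) (α : K →* G) (β : K →* H),
    Injective α ∧ Injective β ∧ α.range.FiniteIndex ∧ β.range.FiniteIndex

section

variable {G H L : Type u} [Group G] [Group H] [Group L]

theorem fi_map {G H : Type*} [Group G] [Group H] (f : G →* H) (S : Subgroup G)
    (hf : f.range.FiniteIndex) (hS : S.FiniteIndex) : (S.map f).FiniteIndex := by
  constructor
  rw [Subgroup.index_map]
  refine mul_ne_zero ?_ hf.index_ne_zero
  exact (Subgroup.finiteIndex_of_le (le_sup_left : S ≤ S ⊔ f.ker)).index_ne_zero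

theorem fi_comap {G H : Type*} [Group G] [Group H] (f : G →* H) (S : Subgroup H)
    (hS : S.FiniteIndex) : (S.comap f).FiniteIndex := by
  constructor
  rw [Subgroup.index_comap]
  exact (Subgroup.instFiniteIndex_subgroupOf S f.range).index_ne_zero

theorem fi_range_comp {G H K : Type*} [Group G] [Group H] [Group K] (f : G →* H) (g : H →* K)
    (hf : f.range.FiniteIndex) (hg : g.range.FiniteIndex) : (g.comp f).range.FiniteIndex := by
  rw [MonoidHom.range_comp]
  exact fi_map g f.range hg hf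

theorem fi_range_of_surj {G H : Type*} [Group G] [Group H] (f : G →* H) (hf : Surjective f) :
    f.range.FiniteIndex := by
  rw [MonoidHom.range_eq_top.2 hf]
  infer_instance

theorem finite_ker_of_inj {G H : Type*} [Group G] [Group H] (f : G →* H) (hf : Injective f) :
    Finite f.ker := by
  rw [(MonoidHom.ker_eq_bot_iff f).2 hf]
  infer_instance

theorem Cm.span (h : Cm G H) : Spn G H := by
  obtain ⟨K, _, α, β, h1, _, h3, h4⟩ := h
  exact ⟨K, _, α, β, finite_ker_of_inj α h1, h3, h4⟩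

theorem Cm.symm (h : Cm G H) : Cm H G := by
  obtain ⟨K, _, α, β, h1, h2, h3, h4⟩ := h
  exact ⟨K, _, β, α, h2, h1, h4, h3⟩

theorem Cm.of_equiv (e : G ≃* H) : Cm G H :=
  ⟨G, _, MonoidHom.id G, e.toMonoidHom, fun _ _ h => h, e.injective,
    fi_range_of_surj _ (fun x => ⟨x, rfl⟩), fi_range_of_surj _ e.surjective⟩

theorem Cm.refl (G : Type u) [Group G] : Cm G G := Cm.of_equiv (MulEquiv.refl G)

theorem Spn.of_surj (f : G →* H) (hf : Surjective f) : Spn G H :=
  ⟨G, _, MonoidHom.id G, f, finite_ker_of_inj _ (fun _ _ h => h),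
    fi_range_of_surj _ (fun x => ⟨x, rfl⟩), fi_range_of_surj _ hf⟩

/-- The inclusion of a subgroup with finite index image. -/
theorem Cm.of_inj (f : G →* H) (hf : Injective f) (h : f.range.FiniteIndex) : Cm G H :=
  ⟨G, _, MonoidHom.id G, f, fun _ _ h => h, hf, fi_range_of_surj _ (fun x => ⟨x, rfl⟩), h⟩

theorem Cm.of_le {S T : Subgroup G} (h : S ≤ T) (h' : (S.subgroupOf T).FiniteIndex) : Cm S T := by
  refine Cm.of_inj (Subgroup.inclusion h) (Subgroup.inclusion_injective h) ?_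
  rw [Subgroup.inclusion_range]
  exact h'

/-- The fibre product of two homomorphisms. -/
def fib {K₁ K₂ H : Type u} [Group K₁] [Group K₂] [Group H] (β : K₁ →* H) (α : K₂ →* H) :
    Subgroup (K₁ × K₂) :=
  (β.comp (MonoidHom.fst K₁ K₂)).eqLocus (α.comp (MonoidHom.snd K₁ K₂))

theorem mem_fib {K₁ K₂ H : Type u} [Group K₁] [Group K₂] [Group H] {β : K₁ →* H} {α : K₂ →* H}
    {p : K₁ × K₂} : p ∈ fib β α ↔ β p.1 = α p.2 := Iff.rfl

theorem fib_fst {K₁ K₂ H : Type u} [Group K₁] [Group K₂] [Group H] (β : K₁ →* H) (α : K₂ →* H) :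
    ((MonoidHom.fst K₁ K₂).comp (fib β α).subtype).range = α.range.comap β := by
  ext x
  simp only [MonoidHom.mem_range, Subgroup.mem_comap]
  constructor
  · rintro ⟨⟨p, hp⟩, rfl⟩
    exact ⟨p.2, (mem_fib.1 hp).symm⟩
  · rintro ⟨y, hy⟩
    exact ⟨⟨(x, y), mem_fib.2 hy.symm⟩, rfl⟩

theorem fib_snd {K₁ K₂ H : Type u} [Group K₁] [Group K₂] [Group H] (β : K₁ →* H) (α : K₂ →* H) :
    ((MonoidHom.snd K₁ K₂).comp (fib β α).subtype).range = β.range.comap α := by
  ext x
  simp only [MonoidHom.mem_range, Subgroup.mem_comap]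
  constructor
  · rintro ⟨⟨p, hp⟩, rfl⟩
    exact ⟨p.1, mem_fib.1 hp⟩
  · rintro ⟨y, hy⟩
    exact ⟨⟨(y, x), mem_fib.2 hy⟩, rfl⟩

theorem Cm.trans (h : Cm G H) (h' : Cm H L) : Cm G L := by
  obtain ⟨K₁, _, α₁, β₁, a1, a2, a3, a4⟩ := h
  obtain ⟨K₂, _, α₂, β₂, b1, b2, b3, b4⟩ := h'
  refine ⟨fib β₁ α₂, inferInstance, α₁.comp ((MonoidHom.fst K₁ K₂).comp (fib β₁ α₂).subtype),
    β₂.comp ((MonoidHom.snd K₁ K₂).comp (fib β₁ α₂).subtype), ?_, ?_, ?_, ?_⟩
  · intro p q h
    have h1 : p.1.1 = q.1.1 := a1 h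
    apply Subtype.ext
    refine Prod.ext h1 (b1 ?_)
    rw [← mem_fib.1 p.2, ← mem_fib.1 q.2, h1]
  · intro p q h
    have h1 : p.1.2 = q.1.2 := b2 h
    apply Subtype.ext
    refine Prod.ext (a2 ?_) h1
    rw [mem_fib.1 p.2, mem_fib.1 q.2, h1]
  · refine fi_range_comp _ _ ?_ a3
    rw [fib_fst]
    exact fi_comap _ _ b3
  · refine fi_range_comp _ _ ?_ b4
    rw [fib_snd]
    exact fi_comap _ _ a4

theorem finite_fibre {G H : Type*} [Group G] [Group H] (f : G →* H) (hf : Finite f.ker) (y : H) :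
    {x | f x = y}.Finite := by
  rcases Set.eq_empty_or_nonempty {x | f x = y} with h | ⟨x₀, h₀⟩
  · rw [h]
    exact Set.finite_empty
  · have : {x | f x = y} ⊆ (fun z => x₀ * z) '' (f.ker : Set G) := by
      intro x hx
      refine ⟨x₀⁻¹ * x, ?_, by simp⟩
      have h1 : f x₀ = y := h₀
      have h2 : f x = y := hx
      simp only [SetLike.mem_coe, MonoidHom.mem_ker, map_mul, map_inv, h1, h2, inv_mul_cancel]
    exact (Set.Finite.image _ (Set.toFinite _)).subset this

theorem Spn.trans (h : Spn G H) (h' : Spn H L) : Spn G L := by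
  obtain ⟨K₁, _, α₁, β₁, a1, a3, a4⟩ := h
  obtain ⟨K₂, _, α₂, β₂, b1, b3, b4⟩ := h'
  refine ⟨fib β₁ α₂, inferInstance, α₁.comp ((MonoidHom.fst K₁ K₂).comp (fib β₁ α₂).subtype),
    β₂.comp ((MonoidHom.snd K₁ K₂).comp (fib β₁ α₂).subtype), ?_, ?_, ?_⟩
  · have h1 : (⋃ x ∈ (α₁.ker : Set K₁), {p : K₁ × K₂ | p.1 = x ∧ α₂ p.2 = β₁ x}).Finite := by
      refine Set.Finite.biUnion (Set.toFinite _) fun x _ => ?_
      refine ((finite_fibre α₂ b1 (β₁ x)).image fun y => (x, y)).subset ?_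
      rintro ⟨a, b⟩ ⟨h1, h2⟩
      exact ⟨b, h2, by simp only [Prod.mk.injEq, and_true]; exact h1.symm⟩
    have h2 : Finite (⋃ x ∈ (α₁.ker : Set K₁), {p : K₁ × K₂ | p.1 = x ∧ α₂ p.2 = β₁ x}) :=
      h1.to_subtype
    refine Finite.of_injective
      (β := (⋃ x ∈ (α₁.ker : Set K₁), {p : K₁ × K₂ | p.1 = x ∧ α₂ p.2 = β₁ x}))
      (fun p => ⟨p.1.1, ?_⟩) ?_
    · simp only [Set.mem_iUnion]
      refine ⟨p.1.1.1, ?_, rfl, (mem_fib.1 p.1.2).symm⟩
      exact p.2
    · intro p q h
      simp only [Subtype.mk.injEq] at h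
      exact Subtype.ext (Subtype.ext h)
  · refine fi_range_comp _ _ ?_ a3
    rw [fib_fst]
    exact fi_comap _ _ b3
  · refine fi_range_comp _ _ ?_ b4
    rw [fib_snd]
    exact fi_comap _ _ a4

theorem larger_iff : Larger G H ↔ Spn G H := by
  constructor
  · rintro ⟨G₀, H₀, N, hN, f, h1, h2, h3, h4⟩
    have e1 : Spn G G₀ := (Cm.of_inj G₀.subtype G₀.subtype_injective (by
      rw [Subgroup.range_subtype]; exact h1)).symm.span
    have e2 : Spn H₀ H := (Cm.of_inj H₀.subtype H₀.subtype_injective (by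
      rw [Subgroup.range_subtype]; exact h2)).span
    have e3 : Spn G₀ (H₀ ⧸ N) := Spn.of_surj f h4
    have e4 : Spn (H₀ ⧸ N) H₀ := by
      refine ⟨H₀, _, QuotientGroup.mk' N, MonoidHom.id H₀, ?_,
        fi_range_of_surj _ (QuotientGroup.mk'_surjective N), fi_range_of_surj _ fun x => ⟨x, rfl⟩⟩
      rw [QuotientGroup.ker_mk']
      exact h3
    exact ((e1.trans e3).trans e4).trans e2
  · rintro ⟨K, _, α, β, h1, h2, h3⟩
    have hN : (α.ker.map β.rangeRestrict).Normal :=
      Subgroup.Normal.map inferInstance _ β.rangeRestrict_surjective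
    refine ⟨α.range, β.range, α.ker.map β.rangeRestrict, hN,
      (QuotientGroup.map α.ker (α.ker.map β.rangeRestrict) β.rangeRestrict
        (Subgroup.le_comap_map _ _)).comp (QuotientGroup.quotientKerEquivRange α).symm.toMonoidHom,
      h2, h3, ?_, ?_⟩
    · have : (α.ker : Set K).Finite := Set.toFinite _
      have h4 := this.image β.rangeRestrict
      exact h4.to_subtype
    · rw [MonoidHom.coe_comp]
      refine Surjective.comp ?_ (QuotientGroup.quotientKerEquivRange α).symm.surjective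
      intro y
      obtain ⟨y, rfl⟩ := QuotientGroup.mk_surjective y
      obtain ⟨x, rfl⟩ := β.rangeRestrict_surjective y
      exact ⟨QuotientGroup.mk x, rfl⟩

theorem comm_iff : Commensurable G H ↔ Cm G H := by
  constructor
  · rintro ⟨G₀, H₀, h1, h2, ⟨e⟩⟩
    have e1 : Cm G₀ G := Cm.of_inj G₀.subtype G₀.subtype_injective (by
      rw [Subgroup.range_subtype]; exact h1)
    have e2 : Cm H₀ H := Cm.of_inj H₀.subtype H₀.subtype_injective (by
      rw [Subgroup.range_subtype]; exact h2)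
    exact (e1.symm.trans (Cm.of_equiv e)).trans e2
  · rintro ⟨K, _, α, β, h1, h2, h3, h4⟩
    exact ⟨α.range, β.range, h3, h4,
      ⟨(MonoidHom.ofInjective h1).symm.trans (MonoidHom.ofInjective h2)⟩⟩

end

section pi

theorem fi_pi {ι : Type*} [Finite ι] {G : ι → Type*} [∀ i, Group (G i)]
    (S : ∀ i, Subgroup (G i)) (hS : ∀ i, (S i).FiniteIndex) :
    (Subgroup.pi Set.univ S).FiniteIndex := by
  have h : Subgroup.pi Set.univ S = ⨅ i, (S i).comap (Pi.evalMonoidHom G i) := by
    ext x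
    simp [Subgroup.mem_pi, Subgroup.mem_iInf]
  rw [h]
  exact Subgroup.finiteIndex_iInf fun i => fi_comap _ _ (hS i)

/-- Product of homomorphisms. -/
def piMap {ι : Type*} {G H : ι → Type*} [∀ i, Group (G i)] [∀ i, Group (H i)]
    (f : ∀ i, G i →* H i) : (∀ i, G i) →* ∀ i, H i where
  toFun x i := f i (x i)
  map_one' := by ext i; simp
  map_mul' x y := by ext i; simp

theorem piMap_range {ι : Type*} {G H : ι → Type*} [∀ i, Group (G i)] [∀ i, Group (H i)]
    (f : ∀ i, G i →* H i) : (piMap f).range = Subgroup.pi Set.univ fun i => (f i).range := by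
  ext x
  simp only [MonoidHom.mem_range, Subgroup.mem_pi, Set.mem_univ, forall_const]
  constructor
  · rintro ⟨y, rfl⟩ i
    exact ⟨y i, rfl⟩
  · intro h
    choose y hy using h
    exact ⟨y, funext hy⟩

variable {ι : Type} [Finite ι] {G H : ι → Type u} [∀ i, Group (G i)] [∀ i, Group (H i)]

theorem Cm.pi (h : ∀ i, Cm (G i) (H i)) : Cm (∀ i, G i) (∀ i, H i) := by
  choose K hK α β h1 h2 h3 h4 using h
  refine ⟨∀ i, K i, inferInstance, piMap α, piMap β, ?_, ?_, ?_, ?_⟩
  · intro x y h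
    funext i
    exact h1 i (congrFun h i)
  · intro x y h
    funext i
    exact h2 i (congrFun h i)
  · rw [piMap_range]
    exact fi_pi _ h3
  · rw [piMap_range]
    exact fi_pi _ h4

theorem Spn.pi (h : ∀ i, Spn (G i) (H i)) : Spn (∀ i, G i) (∀ i, H i) := by
  choose K hK α β h1 h3 h4 using h
  refine ⟨∀ i, K i, inferInstance, piMap α, piMap β, ?_, ?_, ?_⟩
  · refine Finite.of_injective (β := ∀ i, (α i).ker) (fun x i => ⟨x.1 i, ?_⟩) ?_
    · have := x.2
      rw [MonoidHom.mem_ker] at this ⊢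
      exact congrFun this i
    · intro x y h
      apply Subtype.ext
      funext i
      exact congrArg Subtype.val (congrFun h i)
  · rw [piMap_range]
    exact fi_pi _ h3
  · rw [piMap_range]
    exact fi_pi _ h4

end pi

section pow

variable {G H : Type u} [Group G] [Group H] {ι κ : Type}

/-- Reindexing a power along a map. -/
def reidx (G : Type u) [Group G] (e : κ → ι) : (ι → G) →* (κ → G) where
  toFun x i := x (e i)
  map_one' := rfl
  map_mul' _ _ := rfl

theorem Spn.of_embedding (e : κ ↪ ι) : Spn (ι → G) (κ → G) := by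
  classical
  refine Spn.of_surj (reidx G e) fun y => ?_
  refine ⟨fun i => if h : ∃ j, e j = i then y h.choose else 1, ?_⟩
  funext j
  have h : ∃ j', e j' = e j := ⟨j, rfl⟩
  change (if h : ∃ j', e j' = e j then y h.choose else 1) = y j
  rw [dif_pos h, e.injective h.choose_spec]

theorem Cm.congr (e : ι ≃ κ) : Cm (ι → G) (κ → G) :=
  Cm.of_equiv (MulEquiv.mk' (Equiv.arrowCongr e (Equiv.refl G)) fun _ _ => rfl)

theorem Cm.curry : Cm ((ι × κ) → G) (ι → κ → G) :=
  Cm.of_equiv (MulEquiv.mk' (Equiv.curry ι κ G) fun _ _ => rfl)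

theorem Cm.fin [Fintype ι] : Cm (ι → G) (Fin (Fintype.card ι) → G) :=
  Cm.congr (Fintype.equivFin ι)

theorem Cm.one : Cm (Fin 1 → G) G :=
  Cm.of_equiv (MulEquiv.mk' (Equiv.funUnique (Fin 1) G) fun _ _ => rfl)

theorem Cm.two : Cm (Fin 2 → G) (G × G) :=
  Cm.of_equiv (MulEquiv.mk' (piFinTwoEquiv fun _ => G) fun _ _ => rfl)

theorem Cm.pow (h : Cm G H) (n : ℕ) : Cm (Fin n → G) (Fin n → H) := Cm.pi fun _ => h

theorem Spn.pow (h : Spn G H) (n : ℕ) : Spn (Fin n → G) (Fin n → H) := Spn.pi fun _ => h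

theorem Cm.mul (m n : ℕ) : Cm (Fin (m * n) → G) (Fin m → Fin n → G) :=
  (Cm.congr finProdFinEquiv.symm).trans Cm.curry

theorem Spn.le {m n : ℕ} (h : m ≤ n) : Spn (Fin n → G) (Fin m → G) :=
  Spn.of_embedding (Fin.castLEEmb h)

theorem Cm.infinite (h : Cm G H) (hG : Infinite G) : Infinite H := by
  obtain ⟨K, _, α, β, h1, h2, h3, h4⟩ := h
  by_contra hH
  rw [not_infinite_iff_finite] at hH
  have hK : Finite K := Finite.of_injective β h2
  have h5 : Finite α.range := Set.finite_range α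
  exact not_finite_iff_infinite.2 hG
    ((Subgroup.finite_iff_finite_and_finiteIndex α.range).2 ⟨h5, h3⟩)

end pow

end Pool.Agent.TH108.MB
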