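import Mathlib
import Pool.Agent.TH108.MBRel

/-! Basic facts on rooted trees and rigid stabilizers. -/

set_option autoImplicit false

universe u

namespace Pool.Agent.TH108.MB

open Function

section tree

variable {k : ℕ → ℕ}

theorem below_refl (u : Vertex k) : Below u u := ⟨le_rfl, fun _ => rfl⟩

theorem below_trans {u v w : Vertex k} (h : Below u v) (h' : Below v w) : Below u w := by
  obtain ⟨h1, h2⟩ := h
  obtain ⟨h3, h4⟩ := h'
  exact ⟨h1.trans h3, fun i => (h4 (Fin.castLE h1 i)).trans (h2 i)⟩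

theorem below_eq {u v : Vertex k} (h : Below u v) (h' : u.1 = v.1) : u = v := by
  obtain ⟨n, u⟩ := u
  obtain ⟨m, v⟩ := v
  obtain rfl : n = m := h'
  obtain ⟨h1, h2⟩ := h
  congr
  funext i
  exact (h2 i).symm

theorem below_of_common {u v w : Vertex k} (h : Below u w) (h' : Below v w) (hl : u.1 ≤ v.1) :
    Below u v := by
  obtain ⟨h1, h2⟩ := h
  obtain ⟨h3, h4⟩ := h'
  exact ⟨hl, fun i => ((h4 (Fin.castLE hl i)).symm.trans (h2 i))⟩

theorem exists_anc (w : Vertex k) {n : ℕ} (h : n ≤ w.1) : ∃ u : Word k n, Below ⟨n, u⟩ w :=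
  ⟨fun i => w.2 (Fin.castLE h i), h, fun _ => rfl⟩

theorem exists_desc (hk : ∀ n, 2 ≤ k n) (u : Vertex k) {n : ℕ} (h : u.1 ≤ n) :
    ∃ w : Word k n, Below u ⟨n, w⟩ := by
  refine ⟨fun i => if h' : (i : ℕ) < u.1 then u.2 ⟨i, h'⟩ else ⟨0, by have := hk i; omega⟩, h, ?_⟩
  intro i
  have : ((Fin.castLE h i : Fin n) : ℕ) < u.1 := i.2
  exact dif_pos this

/-- A root. -/
def root (k : ℕ → ℕ) : Vertex k := ⟨0, fun i => i.elim0⟩

theorem below_root (v : Vertex k) : Below (root k) v := ⟨Nat.zero_le _, fun i => i.elim0⟩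

/-- The descendants of `u` of level `n`. -/
abbrev Desc (u : Vertex k) (n : ℕ) : Type := {w : Word k n // Below u ⟨n, w⟩}

theorem two_pow_le (hk : ∀ n, 2 ≤ k n) (n : ℕ) : 2 ^ n ≤ Fintype.card (Word k n) := by
  rw [Fintype.card_pi]
  calc 2 ^ n = ∏ _i : Fin n, 2 := by simp
    _ ≤ ∏ i : Fin n, Fintype.card (Fin (k i)) :=
        Finset.prod_le_prod' fun i _ => by rw [Fintype.card_fin]; exact hk i

/-- The leftmost vertex. -/
def zv (hk : ∀ n, 2 ≤ k n) (n : ℕ) : Word k n := fun i => ⟨0, by have := hk i; omega⟩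

end tree

namespace TreeAction

variable {k : ℕ → ℕ} {G : Type u} [Group G] (A : TreeAction k G)

@[simp] theorem inv_act (g : G) (v : Vertex k) : A.act g⁻¹ (A.act g v) = v := by
  rw [map_inv]
  exact Equiv.symm_apply_apply _ _

@[simp] theorem act_inv (g : G) (v : Vertex k) : A.act g (A.act g⁻¹ v) = v := by
  rw [map_inv]
  exact Equiv.apply_symm_apply _ _

theorem mul_act (g h : G) (v : Vertex k) : A.act (g * h) v = A.act g (A.act h v) := by
  rw [map_mul, Equiv.Perm.mul_apply]

@[simp] theorem one_act (v : Vertex k) : A.act 1 v = v := by simp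

theorem act_inj (g : G) {v w : Vertex k} (h : A.act g v = A.act g w) : v = w :=
  (A.act g).injective h

theorem ext {g h : G} (e : ∀ v, A.act g v = A.act h v) : g = h :=
  A.faithful (Equiv.ext e)

theorem below_iff (g : G) (u v : Vertex k) : Below (A.act g u) (A.act g v) ↔ Below u v := by
  constructor
  · intro h
    simpa using A.below g⁻¹ _ _ h
  · exact A.below g u v

theorem mem_rist {u : Vertex k} {g : G} : g ∈ A.rist u ↔ ∀ v, ¬ Below u v → A.act g v = v :=
  Iff.rfl

theorem rist_self {u : Vertex k} {g : G} (h : g ∈ A.rist u) : A.act g u = u := by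
  by_contra hne
  have h1 : (A.act g u).1 = u.1 := A.level g u
  have h2 : ¬ Below u (A.act g u) := fun hb => hne (below_eq hb h1.symm).symm
  exact hne (A.act_inj g (h _ h2))

theorem rist_below {u w : Vertex k} {g : G} (h : g ∈ A.rist u) (hw : Below u w) :
    Below u (A.act g w) := by
  have := A.below g _ _ hw
  rwa [A.rist_self h] at this

theorem rist_root : A.rist (root k) = ⊤ := by
  rw [eq_top_iff]
  intro g _ v hv
  exact absurd (below_root v) hv

theorem rist_mono {u v : Vertex k} (h : Below u v) : A.rist v ≤ A.rist u :=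
  fun _ hg w hw => hg w fun h' => hw (below_trans h h')

theorem rist_other {u v w : Vertex k} {g : G} (hg : g ∈ A.rist u) (hl : u.1 = v.1) (hne : u ≠ v)
    (hw : Below v w) : A.act g w = w := by
  apply hg
  intro h
  exact hne (below_eq (below_of_common h hw hl.le) hl)

theorem rist_commute {u v : Vertex k} (hl : u.1 = v.1) (hne : u ≠ v) {g h : G}
    (hg : g ∈ A.rist u) (hh : h ∈ A.rist v) : Commute g h := by
  apply A.ext
  intro w
  rw [A.mul_act, A.mul_act]
  by_cases h1 : Below u w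
  · rw [A.rist_other hh hl.symm hne.symm h1, A.rist_other hh hl.symm hne.symm (A.rist_below hg h1)]
  · by_cases h2 : Below v w
    · rw [A.rist_other hg hl hne h2, A.rist_other hg hl hne (A.rist_below hh h2)]
    · rw [hg w h1, hh w h2, hg w h1]

theorem conj_rist {u : Vertex k} {x : G} (g : G) (hx : x ∈ A.rist u) :
    g * x * g⁻¹ ∈ A.rist (A.act g u) := by
  intro v hv
  have h1 : ¬ Below u (A.act g⁻¹ v) := by
    intro h
    apply hv
    have := A.below g _ _ h
    simpa using this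
  rw [A.mul_act, A.mul_act, hx _ h1, A.act_inv]

theorem rist_map_conj (g : G) (u : Vertex k) :
    (A.rist u).map (MulAut.conj g).toMonoidHom = A.rist (A.act g u) := by
  ext x
  constructor
  · rintro ⟨y, hy, rfl⟩
    exact A.conj_rist g hy
  · intro hx
    refine ⟨g⁻¹ * x * g, ?_, ?_⟩
    · have := A.conj_rist g⁻¹ hx
      simpa using this
    · simp [mul_assoc]

theorem cm_rist (hA : A.LevelTransitive) {n : ℕ} (v w : Word k n) :
    Cm (A.rist ⟨n, v⟩) (A.rist ⟨n, w⟩) := by
  obtain ⟨g, hg⟩ := hA n v w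
  have h := A.rist_map_conj g ⟨n, v⟩
  rw [hg] at h
  rw [← h]
  exact Cm.of_equiv (Subgroup.equivMapOfInjective _ _ (MulAut.conj g).injective)

/-- The elements which fix the subtree rooted at `u`. -/
def fixSub (u : Vertex k) : Subgroup G where
  carrier := {g | ∀ v, Below u v → A.act g v = v}
  one_mem' := fun v _ => by simp
  mul_mem' := fun {g h} hg hh v hv => by rw [A.mul_act, hh v hv, hg v hv]
  inv_mem' := fun {g} hg v hv => by rw [map_inv, Equiv.Perm.inv_eq_iff_eq, hg v hv]

theorem eq_one_of_rist_fix {u : Vertex k} {g : G} (h1 : g ∈ A.rist u) (h2 : g ∈ A.fixSub u) :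
    g = 1 := by
  apply A.ext
  intro v
  rw [A.one_act]
  by_cases h : Below u v
  · exact h2 v h
  · exact h1 v h

theorem rist_le_fix {u v : Vertex k} (hl : u.1 = v.1) (hne : u ≠ v) : A.rist u ≤ A.fixSub v :=
  fun _ hg _ hw => A.rist_other hg hl hne hw

theorem rist_inf {u v : Vertex k} (hl : u.1 = v.1) (hne : u ≠ v) {g : G} (h1 : g ∈ A.rist u)
    (h2 : g ∈ A.rist v) : g = 1 :=
  A.eq_one_of_rist_fix h2 (A.rist_le_fix hl hne h1)

theorem vne {n : ℕ} {v w : Word k n} (h : v ≠ w) : (⟨n, v⟩ : Vertex k) ≠ ⟨n, w⟩ := by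
  intro h'
  apply h
  simpa using h'

section family

variable {n : ℕ} {ι : Type} [Fintype ι] (e : ι → Word k n) (he : Injective e)
  (D : ι → Subgroup G) (hD : ∀ i, D i ≤ A.rist ⟨n, e i⟩)

include he hD

theorem fam_comm : Pairwise fun i j : ι => ∀ x y : G, x ∈ D i → y ∈ D j → Commute x y :=
  fun i j hij _ _ hx hy => A.rist_commute (u := ⟨n, e i⟩) (v := ⟨n, e j⟩) rfl
    (vne fun h => hij (he h)) (hD i hx) (hD j hy)

theorem fam_indep : iSupIndep D := by
  rw [iSupIndep_def]
  intro w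
  rw [disjoint_iff, eq_bot_iff]
  rintro x ⟨hx, hx'⟩
  have h1 : (⨆ j, ⨆ (_ : j ≠ w), D j) ≤ A.fixSub ⟨n, e w⟩ := by
    refine iSup_le fun j => iSup_le fun hj => (hD j).trans (A.rist_le_fix (u := ⟨n, e j⟩)
      (v := ⟨n, e w⟩) rfl (vne fun h => hj (he h)))
  exact A.eq_one_of_rist_fix (hD w hx) (h1 hx')

/-- The product map. -/
noncomputable def prod : (∀ w, D w) →* G := Subgroup.noncommPiCoprod (A.fam_comm e he D hD)

theorem prod_range : (A.prod e he D hD).range = ⨆ w, D w := Subgroup.noncommPiCoprod_range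

theorem prod_inj : Injective (A.prod e he D hD) :=
  Subgroup.injective_noncommPiCoprod_of_iSupIndep (A.fam_indep e he D hD)

theorem prod_mem (S : Subgroup G) (x : ∀ w, D w) (h : ∀ w, (x w : G) ∈ S) :
    A.prod e he D hD x ∈ S := by
  rw [prod, Subgroup.noncommPiCoprod_apply]
  exact Subgroup.noncommProd_mem _ _ fun w _ => h w

theorem prod_single [DecidableEq ι] (w : ι) (x : D w) :
    A.prod e he D hD (Pi.mulSingle w x) = x :=
  Subgroup.noncommPiCoprod_mulSingle _ _

theorem prod_act (x : ∀ w, D w) (w : ι) (v : Vertex k) (hv : Below ⟨n, e w⟩ v) :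
    A.act (A.prod e he D hD x) v = A.act (x w) v := by
  classical
  have h1 : x = Pi.mulSingle w (x w) * ((Pi.mulSingle w (x w))⁻¹ * x) := by simp
  have h2 : A.prod e he D hD ((Pi.mulSingle w (x w))⁻¹ * x) ∈ A.fixSub ⟨n, e w⟩ := by
    apply A.prod_mem e he D hD
    intro w'
    by_cases h : w' = w
    · subst h
      simp
    · rw [Pi.mul_apply, Pi.inv_apply, Pi.mulSingle_eq_of_ne h, inv_one, one_mul]
      exact A.rist_le_fix (u := ⟨n, e w'⟩) (v := ⟨n, e w⟩) rfl (vne fun h' => h (he h'))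
        (hD w' (x w').2)
  conv_lhs => rw [h1]
  rw [map_mul, A.mul_act, h2 v hv, A.prod_single e he D hD]

theorem iSup_inf_rist (v : Vertex k) (hv : v.1 ≤ n) :
    (⨆ w, D w) ⊓ A.rist v ≤ ⨆ w : {i : ι // Below v ⟨n, e i⟩}, D w.1 := by
  rintro g ⟨h1, h2⟩
  rw [← A.prod_range e he D hD] at h1
  obtain ⟨x, rfl⟩ := h1
  apply A.prod_mem e he D hD
  intro w
  by_cases h : Below v ⟨n, e w⟩
  · exact Subgroup.mem_iSup_of_mem (⟨w, h⟩ : {i : ι // Below v ⟨n, e i⟩}) (x w).2
  · have h3 : (x w : G) = 1 := by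
      apply A.eq_one_of_rist_fix (hD w (x w).2)
      intro t ht
      rw [← A.prod_act e he D hD x w t ht]
      apply h2
      intro h'
      exact h (below_of_common h' ht hv)
    rw [h3]
    exact Subgroup.one_mem _

theorem cm_iSup : Cm (⨆ w, D w : Subgroup G) (∀ w, D w) := by
  rw [← A.prod_range e he D hD]
  exact (Cm.of_equiv (MonoidHom.ofInjective (A.prod_inj e he D hD))).symm

end family

end TreeAction

end Pool.Agent.TH108.MB
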