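import Mathlib
import Pool.Agent.TH108.MBTree

/-! Finite index facts for just infinite branch groups. -/

set_option autoImplicit false

universe u

namespace Pool.Agent.TH108.MB

open Function

open scoped commutatorElement

theorem idi {α : Type*} : Injective fun w : α => w := fun _ _ h => h

theorem vinj {k : ℕ → ℕ} {n : ℕ} {v w : Word k n} (h : (⟨n, v⟩ : Vertex k) = ⟨n, w⟩) : v = w := by
  simpa using h

/-- The number of vertices of level `n`. -/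
def lc (k : ℕ → ℕ) (n : ℕ) : ℕ := Fintype.card (Word k n)

namespace TreeAction

variable {k : ℕ → ℕ} {G : Type u} [Group G] (A : TreeAction k G)

theorem exists_word {n : ℕ} (v : Vertex k) (h : v.1 = n) : ∃ w : Word k n, v = ⟨n, w⟩ := by
  obtain ⟨m, v⟩ := v
  obtain rfl : m = n := h
  exact ⟨v, rfl⟩

theorem exists_act (n : ℕ) (g : G) (w : Word k n) : ∃ w' : Word k n, A.act g ⟨n, w⟩ = ⟨n, w'⟩ :=
  exists_word _ (A.level g ⟨n, w⟩)

/-- The action on a level. -/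
noncomputable def actW (n : ℕ) (g : G) (w : Word k n) : Word k n := (A.exists_act n g w).choose

theorem actW_spec (n : ℕ) (g : G) (w : Word k n) : A.act g ⟨n, w⟩ = ⟨n, A.actW n g w⟩ :=
  (A.exists_act n g w).choose_spec

/-- The action on a level. -/
@[reducible] noncomputable def mulAct (n : ℕ) : MulAction G (Word k n) where
  smul g w := A.actW n g w
  one_smul w := by
    apply vinj
    change (⟨n, A.actW n 1 w⟩ : Vertex k) = _
    rw [← A.actW_spec, A.one_act]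
  mul_smul g h w := by
    apply vinj
    change (⟨n, A.actW n (g * h) w⟩ : Vertex k) = ⟨n, A.actW n g (A.actW n h w)⟩
    rw [← A.actW_spec, ← A.actW_spec, ← A.actW_spec, A.mul_act]

/-- The stabilizer of a vertex. -/
def stab (v : Vertex k) : Subgroup G where
  carrier := {g | A.act g v = v}
  one_mem' := by simp
  mul_mem' := fun {g h} hg hh => by
    simp only [Set.mem_ofPred_eq] at hg hh ⊢
    rw [A.mul_act, hh, hg]
  inv_mem' := fun {g} hg => by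
    simp only [Set.mem_ofPred_eq] at hg ⊢
    rw [map_inv, Equiv.Perm.inv_eq_iff_eq, hg]

theorem mem_stab {v : Vertex k} {g : G} : g ∈ A.stab v ↔ A.act g v = v := Iff.rfl

theorem stab_eq (n : ℕ) (w : Word k n) :
    A.stab ⟨n, w⟩ = @MulAction.stabilizer G (Word k n) _ (A.mulAct n) w := by
  let := A.mulAct n
  ext g
  rw [MulAction.mem_stabilizer_iff, A.mem_stab, A.actW_spec]
  constructor
  · exact fun h => vinj h
  · intro h
    have h' : A.actW n g w = w := h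
    rw [h']

theorem stab_fi (v : Vertex k) : (A.stab v).FiniteIndex := by
  obtain ⟨n, w⟩ := v
  let := A.mulAct n
  constructor
  rw [A.stab_eq, MulAction.index_stabilizer]
  exact (Set.ncard_pos (Set.toFinite _)).2 ⟨w, MulAction.mem_orbit_self w⟩ |>.ne'

theorem stab_index (hA : A.LevelTransitive) (n : ℕ) (w : Word k n) :
    (A.stab ⟨n, w⟩).index = lc k n := by
  let := A.mulAct n
  rw [A.stab_eq, MulAction.index_stabilizer]
  have h : MulAction.orbit G w = Set.univ := by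
    rw [Set.eq_univ_iff_forall]
    intro w'
    obtain ⟨g, hg⟩ := hA n w w'
    refine ⟨g, ?_⟩
    apply vinj
    rw [← hg]
    exact (A.actW_spec n g w).symm
  rw [h, Set.ncard_univ, Nat.card_eq_fintype_card]
  rfl

/-- Subgroups of finite index move all vertices of deep levels. -/
theorem lemB (hk : ∀ n, 2 ≤ k n) (hA : A.LevelTransitive) (S : Subgroup G) (hS : S.FiniteIndex) :
    ∃ N, ∀ n, N ≤ n → ∀ w : Word k n, ∃ s ∈ S, A.act s ⟨n, w⟩ ≠ ⟨n, w⟩ := by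
  refine ⟨S.index, fun n hn w => ?_⟩
  by_contra hcon
  push Not at hcon
  have h1 : S ≤ A.stab ⟨n, w⟩ := fun s hs => hcon s hs
  have h2 := Subgroup.index_dvd_of_le h1
  have h3 := Nat.le_of_dvd (Nat.pos_of_ne_zero hS.index_ne_zero) h2
  rw [A.stab_index hA] at h3
  have h4 : 2 ^ n ≤ lc k n := two_pow_le hk n
  have h5 : n < 2 ^ n := Nat.lt_two_pow_self
  omega

/-- Lemma Q. -/
theorem lemQ {n : ℕ} (hfi : (A.ristLevel n).FiniteIndex) (D : Word k n → Subgroup G)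
    (hD : ∀ w, ((D w).subgroupOf (A.rist ⟨n, w⟩)).FiniteIndex) : (⨆ w, D w).FiniteIndex := by
  have h := fi_map (A.prod (fun w => w) idi (fun w => A.rist ⟨n, w⟩)
    (fun _ => le_rfl)) (Subgroup.pi Set.univ fun w => (D w).subgroupOf (A.rist ⟨n, w⟩))
    (by rw [A.prod_range]; exact hfi) (fi_pi _ hD)
  refine @Subgroup.finiteIndex_of_le _ _ _ _ h ?_
  rintro _ ⟨x, hx, rfl⟩
  apply A.prod_mem
  intro w
  exact Subgroup.mem_iSup_of_mem w (hx w trivial)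

theorem cm_level {n : ℕ} (hfi : (A.ristLevel n).FiniteIndex) :
    Cm G (∀ w : Word k n, A.rist ⟨n, w⟩) := by
  have h := A.cm_iSup (fun w => w) idi (fun w => A.rist ⟨n, w⟩) (fun _ => le_rfl)
  refine Cm.trans (Cm.symm ?_) h
  refine Cm.of_inj (Subgroup.subtype _) (Subgroup.subtype_injective _) ?_
  rw [Subgroup.range_subtype]
  exact hfi

theorem rist_infinite (hB : A.Branch) (hG : Infinite G) {n : ℕ} (w : Word k n) :
    Infinite (A.rist ⟨n, w⟩) := by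
  by_contra hcon
  have h1 : ∀ w' : Word k n, Finite (A.rist ⟨n, w'⟩) := by
    intro w'
    by_contra h
    rw [not_finite_iff_infinite] at h
    exact hcon ((A.cm_rist hB.1 w' w).infinite h)
  have h2 := (A.cm_level (hB.2 n)).infinite hG
  have h3 : Finite (∀ w : Word k n, A.rist ⟨n, w⟩) := Pi.finite
  exact not_finite_iff_infinite.2 h2 h3

theorem fi_inf {S R : Subgroup G} (hS : S.FiniteIndex) : (S.subgroupOf R).FiniteIndex :=
  Subgroup.instFiniteIndex_subgroupOf S R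

theorem fi_inf' {S R : Subgroup G} (hS : S.FiniteIndex) : ((R ⊓ S).subgroupOf R).FiniteIndex := by
  rw [Subgroup.inf_subgroupOf_left]
  exact Subgroup.instFiniteIndex_subgroupOf S R

/-- No subgroup of finite index is abelian. -/
theorem not_abelian (hk : ∀ n, 2 ≤ k n) (hB : A.Branch) (hG : Infinite G) (S : Subgroup G)
    (hS : S.FiniteIndex) : ¬ S ≤ Subgroup.centralizer (S : Set G) := by
  intro hab
  obtain ⟨N, hN⟩ := A.lemB hk hB.1 S hS
  obtain ⟨b, hb, hb'⟩ := hN N le_rfl (zv hk N)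
  have h1 := A.rist_infinite hB hG (zv hk N)
  have h2 : Infinite (S.subgroupOf (A.rist ⟨N, zv hk N⟩)) := by
    by_contra h
    rw [not_infinite_iff_finite] at h
    exact not_finite_iff_infinite.2 h1
      ((Subgroup.finite_iff_finite_and_finiteIndex _).2 ⟨h, fi_inf hS⟩)
  obtain ⟨⟨g, hg⟩, hne⟩ := exists_ne (1 : S.subgroupOf (A.rist ⟨N, zv hk N⟩))
  apply hne
  have h3 : (g : G) ∈ S := Subgroup.mem_subgroupOf.1 hg
  have h4 : b * (g : G) = (g : G) * b := (Subgroup.mem_centralizer_iff.1 (hab hb) g h3).symm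
  have h5 := A.conj_rist b g.2
  have h6 : b * (g : G) * b⁻¹ = g := by rw [h4]; group
  rw [h6] at h5
  have h7 : (g : G) = 1 := A.rist_inf (by rw [A.level]) hb' h5 g.2
  apply Subtype.ext
  apply Subtype.ext
  exact h7

theorem act_normal {n : ℕ} (S : Subgroup G) (hS : S.Normal) :
    (⨆ w : Word k n, ⁅A.rist ⟨n, w⟩ ⊓ S, A.rist ⟨n, w⟩ ⊓ S⁆).Normal := by
  constructor
  intro x hx g
  have h : (⨆ w : Word k n, ⁅A.rist ⟨n, w⟩ ⊓ S, A.rist ⟨n, w⟩ ⊓ S⁆).map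
      (MulAut.conj g).toMonoidHom ≤ ⨆ w : Word k n, ⁅A.rist ⟨n, w⟩ ⊓ S, A.rist ⟨n, w⟩ ⊓ S⁆ := by
    rw [Subgroup.map_iSup]
    refine iSup_le fun w => ?_
    rw [Subgroup.map_commutator]
    obtain ⟨w', hw'⟩ := A.exists_act n g w
    have h1 : (A.rist ⟨n, w⟩ ⊓ S).map (MulAut.conj g).toMonoidHom ≤ A.rist ⟨n, w'⟩ ⊓ S := by
      rintro _ ⟨y, hy, rfl⟩
      refine ⟨?_, hS.conj_mem _ hy.2 g⟩
      rw [← hw']
      exact A.conj_rist g hy.1
    exact (Subgroup.commutator_mono h1 h1).trans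
      (le_iSup (fun w : Word k n => ⁅A.rist ⟨n, w⟩ ⊓ S, A.rist ⟨n, w⟩ ⊓ S⁆) w')
  exact h ⟨x, hx, rfl⟩

/-- Lemma A. -/
theorem lemA (hk : ∀ n, 2 ≤ k n) (hB : A.Branch) (hJ : JustInfinite G) (S : Subgroup G)
    (hS : S.FiniteIndex) (n : ℕ) :
    (⨆ w : Word k n, ⁅A.rist ⟨n, w⟩ ⊓ S, A.rist ⟨n, w⟩ ⊓ S⁆).FiniteIndex := by
  have h1 : (S.normalCore).FiniteIndex := inferInstance
  have h2 : (⨆ w : Word k n, ⁅A.rist ⟨n, w⟩ ⊓ S.normalCore, A.rist ⟨n, w⟩ ⊓ S.normalCore⁆) ≤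
      ⨆ w : Word k n, ⁅A.rist ⟨n, w⟩ ⊓ S, A.rist ⟨n, w⟩ ⊓ S⁆ := by
    refine iSup_mono fun w => Subgroup.commutator_mono ?_ ?_ <;>
    exact inf_le_inf_left _ (Subgroup.normalCore_le S)
  refine @Subgroup.finiteIndex_of_le _ _ _ _ ?_ h2
  apply hJ.2 _ (A.act_normal _ inferInstance)
  intro h3
  have h4 := A.lemQ (hB.2 n) (fun w => A.rist ⟨n, w⟩ ⊓ S.normalCore) (fun w => fi_inf' h1)
  apply A.not_abelian hk hB hJ.1 _ h4
  refine iSup_le fun w => ?_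
  rw [Subgroup.le_centralizer_iff]
  refine iSup_le fun w' => ?_
  by_cases hw : w' = w
  · subst hw
    rw [← Subgroup.commutator_eq_bot_iff_le_centralizer, eq_bot_iff, ← h3]
    exact le_iSup (fun w : Word k n => ⁅A.rist ⟨n, w⟩ ⊓ S.normalCore,
      A.rist ⟨n, w⟩ ⊓ S.normalCore⁆) w'
  · intro x hx
    rw [Subgroup.mem_centralizer_iff]
    intro y hy
    exact A.rist_commute (u := ⟨n, w⟩) (v := ⟨n, w'⟩) rfl (vne (Ne.symm hw)) hy.1 hx.1

theorem comm_le {R S : Subgroup G} : ⁅R ⊓ S, R ⊓ S⁆ ≤ R :=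
  (Subgroup.commutator_le_self (R ⊓ S)).trans inf_le_left

theorem lemA' (hk : ∀ n, 2 ≤ k n) (hB : A.Branch) (hJ : JustInfinite G) (S : Subgroup G)
    (hS : S.FiniteIndex) {n : ℕ} (w : Word k n) :
    (⁅A.rist ⟨n, w⟩ ⊓ S, A.rist ⟨n, w⟩ ⊓ S⁆.subgroupOf (A.rist ⟨n, w⟩)).FiniteIndex := by
  have h := A.lemA hk hB hJ S hS n
  have h1 := A.iSup_inf_rist (fun w => w) idi
    (fun w : Word k n => ⁅A.rist ⟨n, w⟩ ⊓ S, A.rist ⟨n, w⟩ ⊓ S⁆) (fun _ => comm_le)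
    ⟨n, w⟩ le_rfl
  have h2 : (⨆ w' : {i : Word k n // Below ⟨n, w⟩ ⟨n, i⟩},
      ⁅A.rist ⟨n, w'.1⟩ ⊓ S, A.rist ⟨n, w'.1⟩ ⊓ S⁆) ≤ ⁅A.rist ⟨n, w⟩ ⊓ S, A.rist ⟨n, w⟩ ⊓ S⁆ := by
    refine iSup_le fun w' => ?_
    have := vinj (below_eq w'.2 rfl)
    rw [← this]
  refine @Subgroup.finiteIndex_of_le _ _ _ _ (fi_inf (R := A.rist ⟨n, w⟩) h) ?_
  intro x hx
  exact h2 (h1 ⟨hx, x.2⟩)

theorem cm_D (hk : ∀ n, 2 ≤ k n) (hB : A.Branch) (hJ : JustInfinite G) (S : Subgroup G)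
    (hS : S.FiniteIndex) {n : ℕ} (w : Word k n) :
    Cm (⁅A.rist ⟨n, w⟩ ⊓ S, A.rist ⟨n, w⟩ ⊓ S⁆ : Subgroup G) (A.rist ⟨n, w⟩) :=
  Cm.of_le comm_le (A.lemA' hk hB hJ S hS w)

end TreeAction

/-- The commutator trick. -/
theorem comm_trick {H : Type*} [Group H] {N B : Subgroup H}
    (hN : ∀ b ∈ B, ∀ n ∈ N, b * n * b⁻¹ ∈ N) {g X Y : H} (hg : g ∈ N) (hX : X ∈ B) (hY : Y ∈ B)
    (h1 : Commute (g * X⁻¹ * g⁻¹) X) (h2 : Commute (g * X⁻¹ * g⁻¹) Y) : ⁅X, Y⁆ ∈ N := by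
  set a := g * X⁻¹ * g⁻¹ with ha
  have h3 : a * X ∈ N := by
    have : a * X = g * (X⁻¹ * g⁻¹ * X⁻¹⁻¹) := by rw [ha]; group
    rw [this]
    exact N.mul_mem hg (hN _ (B.inv_mem hX) _ (N.inv_mem hg))
  have h4 : a * X * (Y * (a * X)⁻¹ * Y⁻¹) ∈ N := N.mul_mem h3 (hN _ hY _ (N.inv_mem h3))
  have h5 : a * X * (Y * (a * X)⁻¹ * Y⁻¹) = ⁅X, Y⁆ := by
    rw [commutatorElement_def]
    have e1 : a * X = X * a := h1
    have e2 : a * Y = Y * a := h2
    calc a * X * (Y * (a * X)⁻¹ * Y⁻¹) = X * (a * Y) * (a * X)⁻¹ * Y⁻¹ := by rw [e1]; group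
      _ = X * Y * (a * (a * X)⁻¹) * Y⁻¹ := by rw [e2]; group
      _ = X * Y * (a * (X * a)⁻¹) * Y⁻¹ := by rw [e1]
      _ = X * Y * X⁻¹ * Y⁻¹ := by group
  rw [← h5]
  exact h4

end Pool.Agent.TH108.MB
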