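import Mathlib
import Pool.Agent.TH108.MBFin

/-! Quotients of subgroups of finite index of a just infinite branch group. -/

set_option autoImplicit false

universe u

namespace Pool.Agent.TH108.MB

open Function

open scoped commutatorElement

section tree

variable {k : ℕ → ℕ}

/-- The ancestor of level `n`. -/
def anc {n m : ℕ} (h : n ≤ m) (w : Word k m) : Word k n := fun i => w (Fin.castLE h i)

theorem below_anc {n m : ℕ} (h : n ≤ m) (w : Word k m) : Below ⟨n, anc h w⟩ ⟨m, w⟩ :=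
  ⟨h, fun _ => rfl⟩

theorem anc_eq {n m : ℕ} (h : n ≤ m) {w : Word k m} {u : Word k n} (hu : Below ⟨n, u⟩ ⟨m, w⟩) :
    u = anc h w :=
  vinj (below_eq (below_of_common hu (below_anc h w) le_rfl) rfl)

end tree

namespace TreeAction

variable {k : ℕ → ℕ} {G : Type u} [Group G] (A : TreeAction k G)

/-- Being in the same orbit. -/
def orb (S : Subgroup G) (n : ℕ) : Setoid (Word k n) where
  r v w := ∃ g ∈ S, A.act g ⟨n, v⟩ = ⟨n, w⟩
  iseqv := by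
    refine ⟨fun v => ⟨1, S.one_mem, A.one_act _⟩, ?_, ?_⟩
    · rintro v w ⟨g, hg, h⟩
      exact ⟨g⁻¹, S.inv_mem hg, by rw [← h, A.inv_act]⟩
    · rintro u v w ⟨g, hg, h⟩ ⟨g', hg', h'⟩
      exact ⟨g' * g, S.mul_mem hg' hg, by rw [A.mul_act, h, h']⟩

theorem orb_card (hA : A.LevelTransitive) (S : Subgroup G) (hS : S.FiniteIndex) (n : ℕ)
    (hk : ∀ n, 2 ≤ k n) : Nat.card (Quotient (A.orb S n)) ≤ S.index := by
  let F : G ⧸ S → Quotient (A.orb S n) := Quotient.lift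
    (fun g : G => (Quotient.mk (A.orb S n) (A.actW n g⁻¹ (zv hk n)))) (by
      intro a b hab
      have h1 : a⁻¹ * b ∈ S := QuotientGroup.leftRel_apply.1 hab
      apply Quotient.sound
      refine ⟨(a⁻¹ * b)⁻¹, S.inv_mem h1, ?_⟩
      rw [← A.actW_spec, ← A.actW_spec, ← A.mul_act]
      congr 2
      group)
  have hF : Surjective F := by
    intro y
    obtain ⟨w, rfl⟩ := Quotient.exists_rep y
    obtain ⟨g, hg⟩ := hA n (zv hk n) w
    refine ⟨QuotientGroup.mk g⁻¹, ?_⟩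
    change Quotient.mk (A.orb S n) (A.actW n (g⁻¹)⁻¹ (zv hk n)) = _
    congr 1
    apply vinj
    rw [← A.actW_spec, inv_inv, hg]
  have : Finite (G ⧸ S) := Subgroup.finite_quotient_of_finiteIndex
  exact Nat.card_le_card_of_surjective F hF

theorem act_anc {n m : ℕ} (h : n ≤ m) {g : G} {v w : Word k m} (hg : A.act g ⟨m, v⟩ = ⟨m, w⟩) :
    A.act g ⟨n, anc h v⟩ = ⟨n, anc h w⟩ := by
  obtain ⟨u, hu⟩ := A.exists_act n g (anc h v)
  have h1 := A.below g _ _ (below_anc h v)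
  rw [hg, hu] at h1
  rw [hu, anc_eq h h1]

theorem orb_stable (hk : ∀ n, 2 ≤ k n) (hA : A.LevelTransitive) (S : Subgroup G)
    (hS : S.FiniteIndex) : ∃ n₀, ∀ (n : ℕ) (h : n₀ ≤ n) (w w' : Word k n),
      anc h w = anc h w' → ∃ g ∈ S, A.act g ⟨n, w⟩ = ⟨n, w'⟩ := by
  obtain ⟨n₀, hn₀⟩ : ∃ n₀, ∀ n, Nat.card (Quotient (A.orb S n)) ≤
      Nat.card (Quotient (A.orb S n₀)) := by
    have h1 : BddAbove (Set.range fun n => Nat.card (Quotient (A.orb S n))) := by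
      refine ⟨S.index, ?_⟩
      rintro _ ⟨n, rfl⟩
      exact A.orb_card hA S hS n hk
    obtain ⟨n₀, h2⟩ := Nat.sSup_mem (Set.range_nonempty _) h1
    refine ⟨n₀, fun n => ?_⟩
    change _ ≤ (fun n => Nat.card (Quotient (A.orb S n))) n₀
    rw [h2]
    exact le_csSup h1 ⟨n, rfl⟩
  refine ⟨n₀, fun n h w w' hw => ?_⟩
  let F : Quotient (A.orb S n) → Quotient (A.orb S n₀) := Quotient.map (anc h) (by
    rintro a b ⟨g, hg, h'⟩
    exact ⟨g, hg, A.act_anc h h'⟩)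
  have hF : Surjective F := by
    intro y
    obtain ⟨u, rfl⟩ := Quotient.exists_rep y
    obtain ⟨w, hw⟩ := exists_desc hk ⟨n₀, u⟩ h
    refine ⟨Quotient.mk _ w, ?_⟩
    change Quotient.mk (A.orb S n₀) (anc h w) = _
    rw [anc_eq h hw]
  have hb : Bijective F := Function.Surjective.bijective_of_nat_card_le hF (hn₀ n)
  have h3 : F (Quotient.mk _ w) = F (Quotient.mk _ w') := by
    change Quotient.mk (A.orb S n₀) (anc h w) = Quotient.mk (A.orb S n₀) (anc h w')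
    rw [hw]
  exact Quotient.exact (hb.1 h3)

theorem act_ne_of_below {g : G} {u v : Vertex k} (h : Below u v) (hg : A.act g u ≠ u) :
    A.act g v ≠ v := by
  intro h'
  have h1 := A.below g _ _ h
  rw [h'] at h1
  exact hg (below_eq (below_of_common h1 h (A.level g u).le) (A.level g u))

theorem dead_or_moved (hk : ∀ n, 2 ≤ k n) (hA : A.LevelTransitive) (S : Subgroup G)
    (hS : S.FiniteIndex) (M : Subgroup G) (hM : ∀ b ∈ S, ∀ x ∈ M, b * x * b⁻¹ ∈ M) :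
    ∃ m, ∀ w : Word k m, (∃ g ∈ M, A.act g ⟨m, w⟩ ≠ ⟨m, w⟩) ∨ (∀ g ∈ M, g ∈ A.fixSub ⟨m, w⟩) := by
  classical
  obtain ⟨n₀, hn₀⟩ := A.orb_stable hk hA S hS
  have h1 : ∀ u : Word k n₀, ∃ N, (∃ (n : ℕ) (w : Word k n), Below ⟨n₀, u⟩ ⟨n, w⟩ ∧
      ∃ g ∈ M, A.act g ⟨n, w⟩ ≠ ⟨n, w⟩) → ∃ (n : ℕ) (w : Word k n), n ≤ N ∧
      Below ⟨n₀, u⟩ ⟨n, w⟩ ∧ ∃ g ∈ M, A.act g ⟨n, w⟩ ≠ ⟨n, w⟩ := by
    intro u
    by_cases h : ∃ (n : ℕ) (w : Word k n), Below ⟨n₀, u⟩ ⟨n, w⟩ ∧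
      ∃ g ∈ M, A.act g ⟨n, w⟩ ≠ ⟨n, w⟩
    · obtain ⟨n, w, h1⟩ := h
      exact ⟨n, fun _ => ⟨n, w, le_rfl, h1⟩⟩
    · exact ⟨0, fun h' => absurd h' h⟩
  choose N hN using h1
  refine ⟨n₀ + ∑ u, N u, fun w => ?_⟩
  have hle : n₀ ≤ n₀ + ∑ u, N u := Nat.le_add_right _ _
  by_cases h : ∃ (n : ℕ) (w' : Word k n), Below ⟨n₀, anc hle w⟩ ⟨n, w'⟩ ∧
      ∃ g ∈ M, A.act g ⟨n, w'⟩ ≠ ⟨n, w'⟩
  · left
    obtain ⟨n, w₁, h2, h3, g, hg, h4⟩ := hN _ h
    have h5 : N (anc hle w) ≤ ∑ u, N u :=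
      Finset.single_le_sum (f := N) (fun _ _ => Nat.zero_le _) (Finset.mem_univ _)
    obtain ⟨w₂, hw₂⟩ := exists_desc hk ⟨n, w₁⟩ (n := n₀ + ∑ u, N u) (by simp only; omega)
    have h6 := A.act_ne_of_below hw₂ h4
    obtain ⟨x, hx, h7⟩ := hn₀ _ hle w₂ w (anc_eq hle (below_trans h3 hw₂)).symm
    refine ⟨x * g * x⁻¹, hM x hx g hg, ?_⟩
    rw [← h7, A.mul_act, A.mul_act, A.inv_act]
    exact fun h8 => h6 (A.act_inj x h8)
  · right
    push Not at h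
    intro g hg v hv
    obtain ⟨n, v⟩ := v
    exact h n v (below_trans (below_anc hle w) hv) g hg

/-- Lemma I. -/
theorem lemI (hk : ∀ n, 2 ≤ k n) (hB : A.Branch) (hJ : JustInfinite G) (S : Subgroup G)
    (hS : S.FiniteIndex) {Q : Type u} [Group Q] (f : S →* Q) (hf : Surjective f) :
    ∃ (m : ℕ) (p : Word k m → Prop), Cm Q (∀ w : {w : Word k m // p w}, A.rist ⟨m, w.1⟩) := by
  classical
  have hM : ∀ b ∈ S, ∀ x ∈ f.ker.map S.subtype, b * x * b⁻¹ ∈ f.ker.map S.subtype := by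
    rintro b hb _ ⟨x, hx, rfl⟩
    exact ⟨⟨b, hb⟩ * x * ⟨b, hb⟩⁻¹, (inferInstance : f.ker.Normal).conj_mem x hx _, rfl⟩
  obtain ⟨m, hm⟩ := A.dead_or_moved hk hB.1 S hS (f.ker.map S.subtype) hM
  refine ⟨m, fun w => ∀ g ∈ f.ker.map S.subtype, g ∈ A.fixSub ⟨m, w⟩, ?_⟩
  have hDS : ∀ w : Word k m, ⁅A.rist ⟨m, w⟩ ⊓ S, A.rist ⟨m, w⟩ ⊓ S⁆ ≤ S := fun w =>
    (Subgroup.commutator_le_self _).trans inf_le_right
  have hDM : ∀ w : Word k m, ¬ (∀ g ∈ f.ker.map S.subtype, g ∈ A.fixSub ⟨m, w⟩) →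
      ⁅A.rist ⟨m, w⟩ ⊓ S, A.rist ⟨m, w⟩ ⊓ S⁆ ≤ f.ker.map S.subtype := by
    intro w hw
    obtain ⟨g, hg, hgw⟩ := (hm w).resolve_right hw
    rw [Subgroup.commutator_le]
    intro x hx y hy
    have h1 : g * x⁻¹ * g⁻¹ ∈ A.rist (A.act g ⟨m, w⟩) := A.conj_rist g (inv_mem hx.1)
    exact comm_trick hM hg hx.2 hy.2 (A.rist_commute (A.level g _) hgw h1 hx.1)
      (A.rist_commute (A.level g _) hgw h1 hy.1)
  let P := A.prod (ι := {w : Word k m // ∀ g ∈ f.ker.map S.subtype, g ∈ A.fixSub ⟨m, w⟩})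
    (fun w => w.1) Subtype.val_injective
    (fun w => ⁅A.rist ⟨m, w.1⟩ ⊓ S, A.rist ⟨m, w.1⟩ ⊓ S⁆) (fun w => comm_le)
  have hPS : ∀ x, P x ∈ S := fun x => A.prod_mem _ _ _ _ _ _ fun w => hDS w.1 (x w).2
  let η := f.comp (P.codRestrict S hPS)
  have hη1 : Injective η := by
    rw [injective_iff_map_eq_one]
    intro x hx
    have h1 : P x ∈ f.ker.map S.subtype := ⟨⟨P x, hPS x⟩, hx, rfl⟩
    funext w
    apply Subtype.ext
    apply A.eq_one_of_rist_fix (comm_le (x w).2)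
    intro v hv
    rw [← A.prod_act (ι := {w : Word k m // ∀ g ∈ f.ker.map S.subtype, g ∈ A.fixSub ⟨m, w⟩})
      (fun w => w.1) Subtype.val_injective
      (fun w => ⁅A.rist ⟨m, w.1⟩ ⊓ S, A.rist ⟨m, w.1⟩ ⊓ S⁆) (fun w => comm_le) x w v hv]
    exact w.2 _ h1 v hv
  have hη2 : η.range.FiniteIndex := by
    have h1 := fi_map f _ (fi_range_of_surj f hf) (fi_inf (R := S) (A.lemA hk hB hJ S hS m))
    refine @Subgroup.finiteIndex_of_le _ _ _ _ h1 ?_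
    have h2 : (⨆ w : Word k m, ⁅A.rist ⟨m, w⟩ ⊓ S, A.rist ⟨m, w⟩ ⊓ S⁆) ≤
        (η.range.comap f).map S.subtype := by
      refine iSup_le fun w x hx => ?_
      refine ⟨⟨x, hDS w hx⟩, ?_, rfl⟩
      by_cases hw : ∀ g ∈ f.ker.map S.subtype, g ∈ A.fixSub ⟨m, w⟩
      · refine ⟨Pi.mulSingle ⟨w, hw⟩ ⟨x, hx⟩, ?_⟩
        change f _ = f _
        congr 1
        apply Subtype.ext
        exact A.prod_single _ _ _ _ _ _
      · obtain ⟨y, hy, hy'⟩ := hDM w hw hx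
        have : y = ⟨x, hDS w hx⟩ := Subtype.ext hy'
        rw [← this]
        change f y ∈ η.range
        rw [show f y = 1 from hy]
        exact η.range.one_mem
    rintro _ ⟨x, hx, rfl⟩
    obtain ⟨y, hy, hy'⟩ := h2 hx
    have : y = x := Subtype.ext hy'
    rw [← this]
    exact hy
  exact (Cm.of_inj η hη1 hη2).symm.trans (Cm.pi fun w => A.cm_D hk hB hJ S hS w.1)

end TreeAction

/-- Dividing out a finite normal subgroup of a residually finite group. -/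
theorem cm_quot {H : Type u} [Group H]
    (hres : ∀ x : H, x ≠ 1 → ∃ S : Subgroup H, S.FiniteIndex ∧ x ∉ S) (H₀ : Subgroup H)
    (hH₀ : H₀.FiniteIndex) (N : Subgroup H₀) [N.Normal] [Finite N] : Cm H (H₀ ⧸ N) := by
  classical
  have h1 : ∀ x : N, ∃ S : Subgroup H, S.FiniteIndex ∧ ((x : H) ∈ S → (x : H) = 1) := by
    intro x
    by_cases h : ((x : H₀) : H) = 1
    · exact ⟨⊤, inferInstance, fun _ => h⟩
    · obtain ⟨S, hS, hx⟩ := hres _ h
      exact ⟨S, hS, fun h' => absurd h' hx⟩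
  choose S hS hS' using h1
  have hU : (⨅ x : N, S x).FiniteIndex := Subgroup.finiteIndex_iInf hS
  have hV : ((⨅ x : N, S x).subgroupOf H₀).FiniteIndex := TreeAction.fi_inf hU
  have hV' : ((⨅ x : N, S x).subgroupOf H₀).subtype.range.FiniteIndex := by
    rw [Subgroup.range_subtype]; exact hV
  refine ⟨((⨅ x : N, S x).subgroupOf H₀ : Subgroup H₀), inferInstance,
    H₀.subtype.comp (Subgroup.subtype _), (QuotientGroup.mk' N).comp (Subgroup.subtype _),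
    ?_, ?_, ?_, ?_⟩
  · exact H₀.subtype_injective.comp (Subgroup.subtype_injective _)
  · rw [injective_iff_map_eq_one]
    intro x hx
    have h2 : (x : H₀) ∈ N := (QuotientGroup.eq_one_iff _).1 hx
    have h3 : ((x : H₀) : H) ∈ ⨅ x : N, S x := x.2
    have h4 := hS' ⟨x, h2⟩ (Subgroup.mem_iInf.1 h3 ⟨x, h2⟩)
    exact Subtype.ext (Subtype.ext h4)
  · refine fi_range_comp _ _ hV' ?_
    rw [Subgroup.range_subtype]
    exact hH₀
  · exact fi_range_comp _ _ hV' (fi_range_of_surj _ (QuotientGroup.mk'_surjective N))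

end Pool.Agent.TH108.MB
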