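import Mathlib
import Pool.Agent.TH108.MBQuot

/-! Direct products commensurable with a power of a just infinite branch group. -/

set_option autoImplicit false

universe u

namespace Pool.Agent.TH108.MB

open Function

open scoped commutatorElement

section alg

variable {I J : Type} (lam : J → I) (T : J → Type u) [∀ c, Group (T c)]

open scoped Classical in
/-- Extension by `1`. -/
noncomputable def ext1 (i : I) : (∀ c : {c : J // lam c = i}, T c.1) →* (∀ c, T c) where
  toFun x c := if h : lam c = i then x ⟨c, h⟩ else 1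
  map_one' := by
    funext c
    by_cases h : lam c = i <;> simp [h]
  map_mul' x y := by
    funext c
    by_cases h : lam c = i <;> simp [h]

theorem ext1_pos {i : I} (x : ∀ c : {c : J // lam c = i}, T c.1) {c : J} (h : lam c = i) :
    ext1 lam T i x c = x ⟨c, h⟩ := dif_pos h

theorem ext1_neg {i : I} (x : ∀ c : {c : J // lam c = i}, T c.1) {c : J} (h : lam c ≠ i) :
    ext1 lam T i x c = 1 := dif_neg h

theorem alg [DecidableEq J] [Finite J] {C : I → Type u} [∀ i, Group (C i)] [DecidableEq I]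
    (θ : (∀ c, T c) →* (∀ i, C i)) (h1 : Injective θ) (h2 : θ.range.FiniteIndex)
    (h3 : ∀ (c : J) (t : T c) (i : I), i ≠ lam c → θ (Pi.mulSingle c t) i = 1) (i : I) :
    Cm (C i) (∀ c : {c : J // lam c = i}, T c.1) := by
  have h4 : ∀ (i : I) (y : ∀ c, T c), (∀ c, lam c = i → y c = 1) → θ y i = 1 := by
    intro i y hy
    have h5 : y ∈ ((Pi.evalMonoidHom C i).comp θ).ker := by
      apply Subgroup.pi_mem_of_mulSingle_mem
      intro c
      rw [MonoidHom.mem_ker, MonoidHom.comp_apply, Pi.evalMonoidHom_apply]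
      by_cases h : lam c = i
      · rw [hy c h, Pi.mulSingle_one, map_one, Pi.one_apply]
      · exact h3 c _ i (Ne.symm h)
    exact h5
  refine Cm.symm (Cm.of_inj ((Pi.evalMonoidHom C i).comp (θ.comp (ext1 lam T i))) ?_ ?_)
  · rw [injective_iff_map_eq_one]
    intro x hx
    have h5 : θ (ext1 lam T i x) = 1 := by
      funext i'
      by_cases h : i' = i
      · subst h
        exact hx
      · apply h4
        intro c hc
        apply ext1_neg
        rintro rfl
        exact h hc.symm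
    have h6 : ext1 lam T i x = 1 := (injective_iff_map_eq_one θ).1 h1 _ h5
    funext c
    rw [← ext1_pos lam T x c.2, h6]
    rfl
  · refine @Subgroup.finiteIndex_of_le _ _ _ _ (fi_comap (MonoidHom.mulSingle C i) θ.range h2) ?_
    rintro c ⟨y, hy⟩
    refine ⟨fun c => y c.1, ?_⟩
    have h5 : θ ((ext1 lam T i fun c => y c.1)⁻¹ * y) i = 1 := by
      apply h4
      intro c hc
      rw [Pi.mul_apply, Pi.inv_apply, ext1_pos lam T _ hc, inv_mul_cancel]
    rw [map_mul, map_inv, Pi.mul_apply, Pi.inv_apply, inv_mul_eq_one] at h5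
    change θ (ext1 lam T i fun c => y c.1) i = c
    rw [h5, hy]
    exact Pi.mulSingle_eq_same i c

end alg

namespace TreeAction

variable {k : ℕ → ℕ} {G : Type u} [Group G] (A : TreeAction k G)

/-- Lemma II. -/
theorem lemII (hk : ∀ n, 2 ≤ k n) (hB : A.Branch) (hJ : JustInfinite G) {I : Type} [Fintype I]
    (C : I → Type u) [∀ i, Group (C i)] (j : ℕ) (h : Cm (∀ i, C i) (Fin j → G)) :
    ∃ N, ∀ n, N ≤ n → ∃ y : I → ℕ, ∑ i, y i = j * lc k n ∧
      ∀ i, Cm (C i) (Fin (y i) → A.rist ⟨n, zv hk n⟩) := by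
  classical
  obtain ⟨K, _, α, β, ha, hb, ha', hb'⟩ := h
  -- the subgroups
  let P : Subgroup (∀ i, C i) := Subgroup.pi Set.univ fun i => α.range.comap
    (MonoidHom.mulSingle C i)
  have hP : P.FiniteIndex := fi_pi _ fun i => fi_comap _ _ ha'
  let B' : Subgroup (Fin j → G) := (P.comap α).map β
  have hB' : B'.FiniteIndex := fi_map β _ hb' (fi_comap _ _ hP)
  let S' : Fin j → Subgroup G := fun i => B'.comap (MonoidHom.mulSingle (fun _ => G) i)
  have hS' : ∀ i, (S' i).FiniteIndex := fun i => fi_comap _ _ hB'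
  let S : Fin j → Subgroup G := fun i => β.range.comap (MonoidHom.mulSingle (fun _ => G) i)
  have hS : ∀ i, (S i).FiniteIndex := fun i => fi_comap _ _ hb'
  let NN : I → Subgroup (Fin j → G) := fun i =>
    ((MonoidHom.mulSingle C i).range.comap α).map β
  have hNN : ∀ i, ∀ b ∈ β.range, ∀ x ∈ NN i, b * x * b⁻¹ ∈ NN i := by
    rintro i _ ⟨b, rfl⟩ _ ⟨x, ⟨c, hc⟩, rfl⟩
    refine ⟨b * x * b⁻¹, ⟨α b i * c * (α b i)⁻¹, ?_⟩, by simp⟩
    have e : α (b * x * b⁻¹) = α b * MonoidHom.mulSingle C i c * (α b)⁻¹ := by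
      rw [map_mul, map_mul, map_inv, hc]
    rw [e]
    funext i'
    by_cases h : i' = i
    · subst h
      simp
    · simp [Pi.mulSingle_eq_of_ne h]
  choose N hN using fun i => A.lemB hk hB.1 (S' i) (hS' i)
  refine ⟨∑ i, N i, fun n hn => ?_⟩
  have hNn : ∀ i, N i ≤ n := fun i =>
    (Finset.single_le_sum (f := N) (fun _ _ => Nat.zero_le _) (Finset.mem_univ i)).trans hn
  -- each cell is moved by some factor
  have hlab : ∀ c : Fin j × Word k n, ∃ i : I, ∃ g ∈ NN i, A.act (g c.1) ⟨n, c.2⟩ ≠ ⟨n, c.2⟩ := by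
    rintro ⟨i, w⟩
    obtain ⟨s, ⟨x, hx, hx'⟩, hs⟩ := hN i n (hNn i) w
    by_contra hcon
    push Not at hcon
    have h1 : ∀ i', ∃ z, α z = Pi.mulSingle i' (α x i') := fun i' => hx i' trivial
    choose z hz using h1
    have h2 : ∀ i', z i' ∈ ((A.stab ⟨n, w⟩).comap
        ((Pi.evalMonoidHom (fun _ => G) i).comp β)) := by
      intro i'
      exact hcon i' (β (z i')) ⟨z i', ⟨α x i', (hz i').symm⟩, rfl⟩
    have h3 : α x ∈ ((A.stab ⟨n, w⟩).comap ((Pi.evalMonoidHom (fun _ => G) i).comp β)).map α := by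
      apply Subgroup.pi_mem_of_mulSingle_mem
      intro i'
      exact ⟨z i', h2 i', hz i'⟩
    obtain ⟨x', h4, h5⟩ := h3
    have h6 : x' = x := ha h5
    subst h6
    have h7 : A.act (β x' i) ⟨n, w⟩ = ⟨n, w⟩ := h4
    rw [hx'] at h7
    apply hs
    have h8 : (MonoidHom.mulSingle (fun _ : Fin j => G) i s) i = s :=
      Pi.mulSingle_eq_same (M := fun _ : Fin j => G) i s
    rw [h8] at h7
    exact h7
  choose lam g hg hgm using hlab
  -- commutators
  have hD : ∀ c : Fin j × Word k n, ⁅A.rist ⟨n, c.2⟩ ⊓ S c.1, A.rist ⟨n, c.2⟩ ⊓ S c.1⁆ ≤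
      (NN (lam c)).comap (MonoidHom.mulSingle (fun _ => G) c.1) := by
    intro c
    rw [Subgroup.commutator_le]
    intro x hx y hy
    rw [Subgroup.mem_comap]
    have h1 : (MonoidHom.mulSingle (fun _ => G) c.1 ⁅x, y⁆ : Fin j → G) =
        ⁅MonoidHom.mulSingle (fun _ => G) c.1 x, MonoidHom.mulSingle (fun _ => G) c.1 y⁆ := by
      rw [map_commutatorElement]
    rw [h1]
    have h2 : g c c.1 * x⁻¹ * (g c c.1)⁻¹ ∈ A.rist (A.act (g c c.1) ⟨n, c.2⟩) :=
      A.conj_rist _ (inv_mem hx.1)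
    have h3 : ∀ z ∈ A.rist ⟨n, c.2⟩, Commute (g c * (MonoidHom.mulSingle (fun _ => G) c.1 x)⁻¹ *
        (g c)⁻¹) (MonoidHom.mulSingle (fun _ => G) c.1 z) := by
      intro z hz
      change _ * _ = _ * _
      funext i
      by_cases hi : i = c.1
      · subst hi
        have h4 := (A.rist_commute (A.level _ _) (hgm c) h2 hz).eq
        simpa using h4
      · simp [Pi.mulSingle_eq_of_ne hi]
    exact comm_trick (hNN (lam c)) (hg c) hx.2 hy.2 (h3 x hx.1) (h3 y hy.1)
  -- the product of the cells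
  let T : Fin j × Word k n → Type u := fun c =>
    (⁅A.rist ⟨n, c.2⟩ ⊓ S c.1, A.rist ⟨n, c.2⟩ ⊓ S c.1⁆ : Subgroup G)
  let pr : ∀ i : Fin j, (∀ w : Word k n,
      (⁅A.rist ⟨n, w⟩ ⊓ S i, A.rist ⟨n, w⟩ ⊓ S i⁆ : Subgroup G)) →* G := fun i =>
    A.prod (fun w => w) idi (fun w : Word k n => ⁅A.rist ⟨n, w⟩ ⊓ S i, A.rist ⟨n, w⟩ ⊓ S i⁆)
      (fun _ => comm_le)
  let ψ : (∀ c, T c) →* (Fin j → G) := MonoidHom.mk' (fun x i => pr i fun w => x (i, w)) (by
    intro x y
    funext i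
    exact (pr i).map_mul _ _)
  have hψi : Injective ψ := by
    intro x y hxy
    funext c
    have h1 := A.prod_inj (fun w => w) idi (fun w : Word k n =>
      ⁅A.rist ⟨n, w⟩ ⊓ S c.1, A.rist ⟨n, w⟩ ⊓ S c.1⁆) (fun _ => comm_le) (congrFun hxy c.1)
    exact congrFun h1 c.2
  have hψs : ∀ (c : Fin j × Word k n) (t : T c),
      ψ (Pi.mulSingle c t) = Pi.mulSingle c.1 (t : G) := by
    intro c t
    funext i
    change pr i (fun w => (Pi.mulSingle c t : ∀ c, T c) (i, w)) = _
    by_cases hi : i = c.1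
    · subst hi
      rw [Pi.mulSingle_eq_same]
      have h1 : (fun w => (Pi.mulSingle c t : ∀ c, T c) (c.1, w)) = Pi.mulSingle (M := fun w =>
        (⁅A.rist ⟨n, w⟩ ⊓ S c.1, A.rist ⟨n, w⟩ ⊓ S c.1⁆ : Subgroup G)) c.2 t := by
        funext w
        by_cases hw : w = c.2
        · subst hw
          rw [Pi.mulSingle_eq_same]
          symm
          apply Pi.mulSingle_eq_same
        · rw [Pi.mulSingle_eq_of_ne hw, Pi.mulSingle_eq_of_ne]
          intro h
          exact hw (congrArg Prod.snd h)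
      rw [h1]
      exact A.prod_single _ _ _ _ _ _
    · rw [Pi.mulSingle_eq_of_ne hi]
      have h1 : (fun w => (Pi.mulSingle c t : ∀ c, T c) (i, w)) = 1 := by
        funext w
        rw [Pi.mulSingle_eq_of_ne]
        · rfl
        · intro h
          exact hi (congrArg Prod.fst h)
      rw [h1, map_one]
  have hψr : ψ.range.FiniteIndex := by
    have h1 : (Subgroup.pi Set.univ fun i : Fin j => ⨆ w : Word k n,
        ⁅A.rist ⟨n, w⟩ ⊓ S i, A.rist ⟨n, w⟩ ⊓ S i⁆).FiniteIndex :=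
      fi_pi _ fun i => A.lemA hk hB hJ (S i) (hS i) n
    refine @Subgroup.finiteIndex_of_le _ _ _ _ h1 ?_
    intro x hx
    have h2 : ∀ i : Fin j, ∃ y, pr i y = x i := by
      intro i
      have h3 : x i ∈ ⨆ w : Word k n, ⁅A.rist ⟨n, w⟩ ⊓ S i, A.rist ⟨n, w⟩ ⊓ S i⁆ := hx i trivial
      rw [← A.prod_range (fun w => w) idi (fun w : Word k n =>
        ⁅A.rist ⟨n, w⟩ ⊓ S i, A.rist ⟨n, w⟩ ⊓ S i⁆) (fun _ => comm_le)] at h3
      exact h3
    choose y hy using h2
    exact ⟨fun c => y c.1 c.2, funext hy⟩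
  have hψβ : ∀ x, ψ x ∈ β.range := by
    intro x
    have h1 : x ∈ β.range.comap ψ := by
      apply Subgroup.pi_mem_of_mulSingle_mem
      intro c
      rw [Subgroup.mem_comap, hψs]
      obtain ⟨y, _, hy⟩ := hD c (x c).2
      exact ⟨y, hy⟩
    exact h1
  let ρ : β.range ≃* K := (MonoidHom.ofInjective hb).symm
  have hρ : ∀ x : β.range, β (ρ x) = x := MonoidHom.apply_ofInjective_symm hb
  let θ : (∀ c, T c) →* (∀ i, C i) := α.comp (ρ.toMonoidHom.comp (ψ.codRestrict β.range hψβ))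
  have hθ : ∀ x, ∃ z, α z = θ x ∧ β z = ψ x := fun x => ⟨_, rfl, hρ _⟩
  have hθi : Injective θ := by
    intro x y hxy
    apply hψi
    obtain ⟨z, hz, hz'⟩ := hθ x
    obtain ⟨t, ht, ht'⟩ := hθ y
    rw [← hz', ← ht']
    congr 1
    apply ha
    rw [hz, ht, hxy]
  have hθr : θ.range.FiniteIndex := by
    have h1 := fi_map α _ ha' (fi_comap β _ hψr)
    refine @Subgroup.finiteIndex_of_le _ _ _ _ h1 ?_
    rintro _ ⟨x, ⟨y, hy⟩, rfl⟩
    obtain ⟨z, hz, hz'⟩ := hθ y
    refine ⟨y, ?_⟩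
    rw [← hz]
    congr 1
    apply hb
    rw [hz', hy]
  have hθs : ∀ (c : Fin j × Word k n) (t : T c) (i : I), i ≠ lam c →
      θ (Pi.mulSingle c t) i = 1 := by
    intro c t i hi
    obtain ⟨z, hz, hz'⟩ := hθ (Pi.mulSingle c t)
    obtain ⟨y, ⟨e, he⟩, hy⟩ := hD c t.2
    have h1 : y = z := by
      apply hb
      rw [hz', hψs]
      exact hy
    rw [← hz, ← h1, ← he]
    exact Pi.mulSingle_eq_of_ne hi _
  have hfin := alg lam T θ hθi hθr hθs
  refine ⟨fun i => Fintype.card {c : Fin j × Word k n // lam c = i}, ?_, fun i => ?_⟩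
  · rw [← Fintype.card_sigma, Fintype.card_congr (Equiv.sigmaFiberEquiv lam), Fintype.card_prod,
      Fintype.card_fin]
    rfl
  · refine (hfin i).trans (Cm.trans (Cm.pi (fun c => ?_)) Cm.fin)
    exact (A.cm_D hk hB hJ (S c.1.1) (hS c.1.1) c.1.2).trans (A.cm_rist hB.1 _ _)

end TreeAction

end Pool.Agent.TH108.MB
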