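import Mathlib
import Pool.Agent.TH108.MBProd

/-! Minimality of just infinite branch groups. -/

set_option autoImplicit false

universe u

namespace Pool.Agent.TH108.MB

open Function

open scoped commutatorElement

theorem Cm.swap {G : Type u} [Group G] {m n : ℕ} : Cm (Fin m → Fin n → G) (Fin n → Fin m → G) :=
  (Cm.mul m n).symm.trans (((Cm.congr (finCongr (Nat.mul_comm m n)))).trans (Cm.mul n m))

theorem Cm.cast {G : Type u} [Group G] {m n : ℕ} (h : m = n) : Cm (Fin m → G) (Fin n → G) := by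
  subst h
  exact Cm.refl _

theorem fin_zero_finite {G : Type u} [Group G] : Finite (Fin 0 → G) := inferInstance

theorem fi_prod {G H : Type*} [Group G] [Group H] {S : Subgroup G} {T : Subgroup H}
    (hS : S.FiniteIndex) (hT : T.FiniteIndex) : (S.prod T).FiniteIndex := by
  have h : S.prod T = S.comap (MonoidHom.fst G H) ⊓ T.comap (MonoidHom.snd G H) := rfl
  rw [h]
  have h1 := fi_comap (MonoidHom.fst G H) S hS
  have h2 := fi_comap (MonoidHom.snd G H) T hT
  infer_instance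

theorem Cm.prod {G H G' H' : Type u} [Group G] [Group H] [Group G'] [Group H'] (h : Cm G H)
    (h' : Cm G' H') : Cm (G × G') (H × H') := by
  obtain ⟨K, _, α, β, h1, h2, h3, h4⟩ := h
  obtain ⟨K', _, α', β', h1', h2', h3', h4'⟩ := h'
  refine ⟨K × K', inferInstance, α.prodMap α', β.prodMap β', ?_, ?_, ?_, ?_⟩
  · exact Prod.map_injective.2 ⟨h1, h1'⟩
  · exact Prod.map_injective.2 ⟨h2, h2'⟩
  · refine @Subgroup.finiteIndex_of_le _ _ _ _ (fi_prod h3 h3') ?_
    rintro ⟨x, y⟩ ⟨⟨a, ha⟩, ⟨b, hb⟩⟩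
    exact ⟨(a, b), Prod.ext ha hb⟩
  · refine @Subgroup.finiteIndex_of_le _ _ _ _ (fi_prod h4 h4') ?_
    rintro ⟨x, y⟩ ⟨⟨a, ha⟩, ⟨b, hb⟩⟩
    exact ⟨(a, b), Prod.ext ha hb⟩

theorem Cm.add {G : Type u} [Group G] (m n : ℕ) :
    Cm (Fin (m + n) → G) ((Fin m → G) × (Fin n → G)) :=
  (Cm.congr finSumFinEquiv.symm).trans (Cm.of_equiv
    (MulEquiv.mk' (Equiv.sumArrowEquivProdArrow (Fin m) (Fin n) G) fun _ _ => rfl))

theorem Cm.fold {G D : Type u} [Group G] [Group D] {y d : ℕ} (hyd : y ≤ d)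
    (hy : Cm G (Fin y → D)) (hd : Cm G (Fin d → D)) (t : ℕ) :
    Cm G (Fin (y + t * (d - y)) → D) := by
  induction t with
  | zero => exact hy.trans (Cm.cast (by simp))
  | succ t ih =>
    have h1 : Cm (Fin (y + (t + 1) * (d - y)) → D)
        ((Fin (y + t * (d - y)) → D) × (Fin (d - y) → D)) :=
      (Cm.cast (by ring)).trans (Cm.add _ _)
    have h2 : Cm ((Fin y → D) × (Fin (d - y) → D)) (Fin d → D) :=
      (Cm.add _ _).symm.trans (Cm.cast (by omega))
    exact (h1.trans (((ih.symm.trans hy).prod (Cm.refl _)).trans (h2.trans hd.symm))).symm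

/-- A group which is a power of `D` with two different exponents is a proper power of itself. -/
theorem Cm.self {G D : Type u} [Group G] [Group D] {y d : ℕ} (hyd : y < d)
    (hy : Cm G (Fin y → D)) (hd : Cm G (Fin d → D)) : ∃ c, 2 ≤ c ∧ Cm G (Fin c → G) := by
  refine ⟨1 + (d - y), by omega, ?_⟩
  have h7 := Cm.fold hyd.le hy hd y
  have h8 : Cm (Fin (1 + (d - y)) → G) (Fin ((1 + (d - y)) * y) → D) :=
    (hy.pow _).trans (Cm.mul _ _).symm
  refine h7.trans (Cm.trans (Cm.cast ?_) h8.symm)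
  ring

namespace TreeAction

variable {k : ℕ → ℕ} {G : Type u} [Group G] (A : TreeAction k G)

theorem lc_pos (hk : ∀ n, 2 ≤ k n) (n : ℕ) : 0 < lc k n :=
  lt_of_lt_of_le (by positivity) (two_pow_le hk n)

/-- `G` is commensurable with a power of a rigid stabilizer. -/
theorem cm_z (hB : A.Branch) {n : ℕ} (w : Word k n) :
    Cm G (Fin (lc k n) → A.rist ⟨n, w⟩) :=
  ((A.cm_level (hB.2 n)).trans (Cm.pi fun w' => A.cm_rist hB.1 w' w)).trans Cm.fin

open scoped Classical in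
/-- The number of descendants. -/
noncomputable def dc (k : ℕ → ℕ) {m : ℕ} (u : Word k m) (n : ℕ) : ℕ :=
  Fintype.card (Desc (⟨m, u⟩ : Vertex k) n)

theorem cm_desc (hB : A.Branch) {m n : ℕ} (u : Word k m) (h : m ≤ n) (z : Word k n) :
    Cm (A.rist ⟨m, u⟩) (Fin (dc k u n) → A.rist ⟨n, z⟩) := by
  classical
  have h1 := A.iSup_inf_rist (fun w => w) idi (fun w : Word k n => A.rist ⟨n, w⟩)
    (fun _ => le_rfl) ⟨m, u⟩ h
  have h2 : (⨆ w : {i : Word k n // Below ⟨m, u⟩ ⟨n, i⟩}, A.rist ⟨n, w.1⟩) ≤ A.rist ⟨m, u⟩ :=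
    iSup_le fun w => A.rist_mono w.2
  have h3 : ((⨆ w : {i : Word k n // Below ⟨m, u⟩ ⟨n, i⟩}, A.rist ⟨n, w.1⟩).subgroupOf
      (A.rist ⟨m, u⟩)).FiniteIndex := by
    refine @Subgroup.finiteIndex_of_le _ _ _ _ (fi_inf (R := A.rist ⟨m, u⟩) (hB.2 n)) ?_
    intro x hx
    exact h1 ⟨hx, x.2⟩
  refine (Cm.of_le h2 h3).symm.trans ?_
  refine (A.cm_iSup (ι := {i : Word k n // Below ⟨m, u⟩ ⟨n, i⟩}) (fun w => w.1)
    Subtype.val_injective (fun w => A.rist ⟨n, w.1⟩) (fun _ => le_rfl)).trans ?_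
  exact (Cm.pi fun w => A.cm_rist hB.1 w.1 z).trans Cm.fin

theorem dc_le (hA : A.LevelTransitive) {m n : ℕ} (u v : Word k m) : dc k u n ≤ dc k v n := by
  classical
  obtain ⟨g, hg⟩ := hA m u v
  refine Fintype.card_le_of_injective (fun w => (⟨A.actW n g w.1, ?_⟩ : Desc ⟨m, v⟩ n)) ?_
  · rw [← A.actW_spec, ← hg]
    exact A.below g _ _ w.2
  · intro w w' h
    apply Subtype.ext
    apply vinj
    apply A.act_inj g
    rw [A.actW_spec, A.actW_spec]
    exact congrArg (fun x => (⟨n, x⟩ : Vertex k)) (congrArg Subtype.val h)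

theorem lc_eq (hA : A.LevelTransitive) {m n : ℕ} (u : Word k m) (h : m ≤ n) :
    lc k n = lc k m * dc k u n := by
  classical
  have h1 : lc k n = ∑ v : Word k m, Fintype.card {w : Word k n // anc h w = v} := by
    rw [← Fintype.card_sigma, Fintype.card_congr (Equiv.sigmaFiberEquiv (anc h))]
    rfl
  have h2 : ∀ v : Word k m, Fintype.card {w : Word k n // anc h w = v} = dc k u n := by
    intro v
    have h3 : Fintype.card {w : Word k n // anc h w = v} = dc k v n := by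
      refine Fintype.card_congr (Equiv.subtypeEquivRight fun w => ⟨?_, ?_⟩)
      · rintro rfl
        exact below_anc h w
      · intro h'
        exact (anc_eq h h').symm
    rw [h3]
    exact le_antisymm (A.dc_le hA v u) (A.dc_le hA u v)
  rw [h1, Finset.sum_congr rfl fun v _ => h2 v, Finset.sum_const, smul_eq_mul, Finset.card_univ]
  rfl

theorem res (x : G) (hx : x ≠ 1) : ∃ v, x ∉ A.stab v := by
  by_contra hcon
  push Not at hcon
  apply hx
  apply A.ext
  intro v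
  rw [A.one_act]
  exact hcon v

/-- (1) implies (4). -/
theorem one_four (hB : A.Branch) (h : IsMinimal G) (v : Vertex k) : Larger (A.rist v) G := by
  classical
  obtain ⟨n, w⟩ := v
  apply h.2
  · rw [larger_iff]
    exact (A.cm_level (hB.2 n)).span.trans (Spn.of_surj
      (Pi.evalMonoidHom (fun w : Word k n => A.rist ⟨n, w⟩) w) (Function.surjective_eval w))
  · exact A.rist_infinite hB h.1 w

/-- (5) implies (2). -/
theorem five_two (hk : ∀ n, 2 ≤ k n) (hB : A.Branch) (v : Vertex k) (hv : 0 < v.1)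
    (h : Larger (A.rist v) G) : Larger G (G × G) := by
  obtain ⟨n, w⟩ := v
  rw [larger_iff] at h ⊢
  have h1 : 2 ≤ lc k n := by
    have h2 : 2 ^ n ≤ lc k n := two_pow_le hk n
    have h3 : 2 ^ 1 ≤ 2 ^ n := Nat.pow_le_pow_right (by norm_num) hv
    omega
  exact (((A.cm_z hB w).span.trans (h.pow _)).trans (Spn.le h1)).trans Cm.two.span

/-- (2) implies (3). -/
theorem two_three (hk : ∀ n, 2 ≤ k n) (hB : A.Branch) (hJ : JustInfinite G)
    (h : Larger G (G × G)) :
    ∃ a b : ℕ, 0 < a ∧ a < b ∧ Commensurable (Fin a → G) (Fin b → G) := by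
  classical
  obtain ⟨G₀, H₀, N, hN, f, h1, h2, h3, h4⟩ := h
  obtain ⟨m, p, h5⟩ := A.lemI hk hB hJ G₀ h1 f h4
  have hinf := hJ.1
  have h6 : Cm (G × G) (H₀ ⧸ N) := by
    refine cm_quot ?_ H₀ h2 N
    rintro ⟨a, b⟩ hab
    by_cases ha : a = 1
    · have hb : b ≠ 1 := by
        rintro rfl
        exact hab (by rw [ha]; rfl)
      obtain ⟨v, hv⟩ := A.res b hb
      exact ⟨(A.stab v).comap (MonoidHom.snd G G), fi_comap _ _ (A.stab_fi v), hv⟩
    · obtain ⟨v, hv⟩ := A.res a ha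
      exact ⟨(A.stab v).comap (MonoidHom.fst G G), fi_comap _ _ (A.stab_fi v), hv⟩
  set j := Fintype.card {w : Word k m // p w} with hj
  have h7 : Cm (Fin 2 → G) (Fin j → A.rist ⟨m, zv hk m⟩) :=
    ((Cm.two.trans h6).trans h5).trans ((Cm.pi fun w => A.cm_rist hB.1 w.1 _).trans Cm.fin)
  have hjm : j ≤ lc k m := Fintype.card_subtype_le p
  have hj0 : 0 < j := by
    rw [Nat.pos_iff_ne_zero]
    intro h0
    have h8 : Infinite (Fin 2 → G) := inferInstance
    have h9 := h7.infinite h8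
    rw [h0] at h9
    exact not_finite_iff_infinite.2 h9 fin_zero_finite
  refine ⟨j, lc k m * 2, hj0, ?_, ?_⟩
  · have := lc_pos hk m
    omega
  · rw [comm_iff]
    refine Cm.symm ?_
    refine (Cm.mul _ _).trans ((h7.pow _).trans (Cm.swap.trans ?_))
    exact (A.cm_z hB (zv hk m)).symm.pow _

theorem powers {a b : ℕ} (h : Cm (Fin a → G) (Fin b → G)) (t : ℕ) :
    Cm (Fin (a ^ t) → G) (Fin (b ^ t) → G) := by
  induction t with
  | zero => exact Cm.cast (by simp)
  | succ t ih =>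
    refine (Cm.cast (pow_succ a t)).trans ((Cm.mul _ _).trans ((h.pow _).trans (Cm.swap.trans ?_)))
    exact (ih.pow _).trans ((Cm.mul _ _).symm.trans (Cm.cast (pow_succ' b t).symm))

theorem exists_pow {a b : ℕ} (L : ℕ) (ha : 0 < a) (hab : a < b) : ∃ t, L * a ^ t ≤ b ^ t := by
  obtain ⟨t, ht⟩ := pow_unbounded_of_one_lt (L : ℚ) (y := (b : ℚ) / a) (by
    rw [one_lt_div (by exact_mod_cast ha)]
    exact_mod_cast hab)
  refine ⟨t, ?_⟩
  have h1 : (0 : ℚ) < (a : ℚ) ^ t := by positivity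
  rw [div_pow, lt_div_iff₀ h1] at ht
  exact_mod_cast ht.le

/-- (3) implies (4). -/
theorem three_four (hk : ∀ n, 2 ≤ k n) (hB : A.Branch) (hJ : JustInfinite G) {a b : ℕ}
    (ha : 0 < a) (hab : a < b) (h : Cm (Fin a → G) (Fin b → G)) (v : Vertex k) :
    Larger (A.rist v) G := by
  obtain ⟨m, u⟩ := v
  rw [larger_iff]
  have hL := lc_pos hk m
  obtain ⟨t, ht⟩ := exists_pow (lc k m) ha hab
  have h1 := powers h t
  have hM : 0 < a ^ t := Nat.pow_pos ha
  have hM' : 0 < b ^ t := Nat.pow_pos (ha.trans hab)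
  generalize a ^ t = M at h1 hM ht
  generalize b ^ t = M' at h1 hM' ht
  have h2 : Cm (Fin (M' * lc k m) → A.rist ⟨m, u⟩) (Fin M → G) :=
    ((Cm.mul _ _).trans ((A.cm_z hB u).symm.pow _)).trans h1.symm
  obtain ⟨N, hN⟩ := A.lemII hk hB hJ (fun _ : Fin (M' * lc k m) => A.rist ⟨m, u⟩) M h2
  obtain ⟨y, hy, hy'⟩ := hN (N + m) (Nat.le_add_right _ _)
  have hne : (Finset.univ : Finset (Fin (M' * lc k m))).Nonempty :=
    ⟨⟨0, Nat.mul_pos hM' hL⟩, Finset.mem_univ _⟩
  obtain ⟨i, _, hi⟩ := Finset.exists_min_image Finset.univ y hne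
  have h3 : M' * lc k m * y i ≤ M * lc k (N + m) := by
    rw [← hy]
    have := Finset.card_nsmul_le_sum Finset.univ y (y i) hi
    rwa [Finset.card_univ, Fintype.card_fin, smul_eq_mul] at this
  rw [A.lc_eq hB.1 u (Nat.le_add_left m N)] at h3
  have h4 : lc k m * y i ≤ dc k u (N + m) := by
    have h5 : lc k m * M * (lc k m * y i) ≤ lc k m * M * dc k u (N + m) := by
      calc lc k m * M * (lc k m * y i) ≤ M' * (lc k m * y i) := Nat.mul_le_mul_right _ ht
        _ = M' * lc k m * y i := by ring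
        _ ≤ M * (lc k m * dc k u (N + m)) := h3
        _ = lc k m * M * dc k u (N + m) := by ring
    exact Nat.le_of_mul_le_mul_left h5 (Nat.mul_pos hL hM)
  have h6 : Spn (A.rist ⟨m, u⟩) (Fin (lc k m * y i) → A.rist ⟨N + m, zv hk (N + m)⟩) :=
    (A.cm_desc hB u (Nat.le_add_left m N) (zv hk (N + m))).span.trans (Spn.le h4)
  refine h6.trans ((Cm.mul _ _).span.trans (((hy' i).symm.pow _).span.trans ?_))
  exact (A.cm_z hB u).symm.span

/-- (4) implies (1). -/
theorem four_one (hk : ∀ n, 2 ≤ k n) (hB : A.Branch) (hJ : JustInfinite G)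
    (h : ∀ v, Larger (A.rist v) G) : IsMinimal G := by
  classical
  refine ⟨hJ.1, fun H _ hGH hH => ?_⟩
  obtain ⟨G₀, H₀, N, hN, f, h1, h2, h3, h4⟩ := hGH
  obtain ⟨m, p, h5⟩ := A.lemI hk hB hJ G₀ h1 f h4
  have hH₀ : Infinite H₀ := by
    by_contra h'
    rw [not_infinite_iff_finite] at h'
    exact not_finite_iff_infinite.2 hH
      ((Subgroup.finite_iff_finite_and_finiteIndex H₀).2 ⟨h', h2⟩)
  have hQ : Infinite (H₀ ⧸ N) := by
    by_contra h'
    rw [not_infinite_iff_finite] at h'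
    have h6 : N.FiniteIndex := Subgroup.finiteIndex_of_finite_quotient
    exact not_finite_iff_infinite.2 hH₀
      ((Subgroup.finite_iff_finite_and_finiteIndex N).2 ⟨h3, h6⟩)
  have h7 := h5.infinite hQ
  have h8 : Nonempty {w : Word k m // p w} := by
    by_contra hcon
    rw [not_nonempty_iff] at hcon
    exact not_finite_iff_infinite.2 h7 inferInstance
  obtain ⟨w⟩ := h8
  have h9 := h ⟨m, w.1⟩
  rw [larger_iff] at h9 ⊢
  have e1 : Spn H H₀ := (Cm.of_inj H₀.subtype H₀.subtype_injective (by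
    rw [Subgroup.range_subtype]; exact h2)).symm.span
  have e2 : Spn H₀ (H₀ ⧸ N) := Spn.of_surj (QuotientGroup.mk' N) (QuotientGroup.mk'_surjective N)
  have e3 : Spn (∀ w : {w : Word k m // p w}, A.rist ⟨m, w.1⟩) (A.rist ⟨m, w.1⟩) :=
    Spn.of_surj (Pi.evalMonoidHom (fun w : {w : Word k m // p w} => A.rist ⟨m, w.1⟩) w)
      (Function.surjective_eval w)
  exact (((e1.trans e2).trans h5.span).trans e3).trans h9

/-- (6) implies (3). -/
theorem six_three (hB : A.Branch) (hJ : JustInfinite G) {m n i j : ℕ}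
    (u : Word k m) (w : Word k n) (h : Cm (Fin i → A.rist ⟨m, u⟩) (Fin j → A.rist ⟨n, w⟩))
    (hne : i * lc k n ≠ j * lc k m) :
    ∃ a b : ℕ, 0 < a ∧ a < b ∧ Commensurable (Fin a → G) (Fin b → G) := by
  have h1 : Cm (Fin (lc k n * i) → G) (Fin (lc k m * j) → G) := by
    have e1 : Cm (Fin i → G) (Fin (lc k m) → Fin j → A.rist ⟨n, w⟩) :=
      ((A.cm_z hB u).pow i).trans (Cm.swap.trans (h.pow _))
    have e2 : Cm (Fin (lc k n) → Fin (lc k m) → Fin j → A.rist ⟨n, w⟩)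
        (Fin (lc k m) → Fin j → G) :=
      Cm.swap.trans (Cm.pow (Cm.swap.trans ((A.cm_z hB w).symm.pow j)) _)
    exact (Cm.mul _ _).trans ((e1.pow _).trans (e2.trans (Cm.mul _ _).symm))
  have hinf := hJ.1
  have h0 : ∀ {a b : ℕ}, Cm (Fin a → G) (Fin b → G) → a < b → 0 < a := by
    intro a b hab hlt
    rw [Nat.pos_iff_ne_zero]
    rintro rfl
    have : Nonempty (Fin b) := ⟨⟨0, hlt⟩⟩
    have h2 : Infinite (Fin b → G) := inferInstance
    exact not_finite_iff_infinite.2 (hab.symm.infinite h2) fin_zero_finite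
  rcases lt_trichotomy (lc k n * i) (lc k m * j) with h2 | h2 | h2
  · exact ⟨_, _, h0 h1 h2, h2, comm_iff.2 h1⟩
  · exact absurd (by rw [Nat.mul_comm i, h2, Nat.mul_comm]) hne
  · exact ⟨_, _, h0 h1.symm h2, h2, comm_iff.2 h1.symm⟩

/-- (3) implies (7). -/
theorem three_seven (hk : ∀ n, 2 ≤ k n) (hB : A.Branch) (hJ : JustInfinite G) {a b : ℕ}
    (hab : a < b) (h : Cm (Fin a → G) (Fin b → G)) (v : Vertex k) :
    ∃ c, 2 ≤ c ∧ Cm (A.rist v) (Fin c → A.rist v) := by
  obtain ⟨m, u⟩ := v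
  have hL := lc_pos hk m
  have h2 : Cm (Fin (b * lc k m) → A.rist ⟨m, u⟩) (Fin a → G) :=
    ((Cm.mul _ _).trans ((A.cm_z hB u).symm.pow _)).trans h.symm
  obtain ⟨N, hN⟩ := A.lemII hk hB hJ (fun _ : Fin (b * lc k m) => A.rist ⟨m, u⟩) a h2
  obtain ⟨y, hy, hy'⟩ := hN (N + m) (Nat.le_add_right _ _)
  have hne : (Finset.univ : Finset (Fin (b * lc k m))).Nonempty :=
    ⟨⟨0, Nat.mul_pos (by omega) hL⟩, Finset.mem_univ _⟩
  obtain ⟨i, _, hi⟩ := Finset.exists_min_image Finset.univ y hne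
  have h3 : b * lc k m * y i ≤ a * lc k (N + m) := by
    rw [← hy]
    have := Finset.card_nsmul_le_sum Finset.univ y (y i) hi
    rwa [Finset.card_univ, Fintype.card_fin, smul_eq_mul] at this
  have hlc := A.lc_eq hB.1 u (Nat.le_add_left m N)
  have hd : 0 < dc k u (N + m) := by
    rw [Nat.pos_iff_ne_zero]
    intro h0
    have := lc_pos hk (N + m)
    rw [hlc, h0] at this
    omega
  rw [hlc] at h3
  have h4 : y i < dc k u (N + m) := by
    by_contra h4
    push Not at h4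
    have h5 : a * (lc k m * dc k u (N + m)) < b * (lc k m * dc k u (N + m)) :=
      Nat.mul_lt_mul_of_pos_right hab (Nat.mul_pos hL hd)
    have h6 : b * lc k m * dc k u (N + m) ≤ b * lc k m * y i := Nat.mul_le_mul_left _ h4
    rw [← mul_assoc b] at h5
    omega
  exact Cm.self h4 (hy' i) (A.cm_desc hB u (Nat.le_add_left m N) (zv hk (N + m)))

/-- (7) implies (2). -/
theorem seven_two (h : ∀ v : Vertex k, ∃ c, 2 ≤ c ∧ Cm (A.rist v) (Fin c → A.rist v)) :
    ∃ c, 2 ≤ c ∧ Cm G (Fin c → G) := by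
  obtain ⟨c, hc, h1⟩ := h (root k)
  have e : Cm (A.rist (root k)) G := by
    rw [A.rist_root]
    exact Cm.of_equiv Subgroup.topEquiv
  exact ⟨c, hc, e.symm.trans (h1.trans (e.pow c))⟩

/-- The main theorem. -/
theorem main (hk : ∀ n, 2 ≤ k n) (hB : A.Branch) (hJ : JustInfinite G) :
    List.TFAE [
      IsMinimal G,
      ∃ c : ℕ, 2 ≤ c ∧ Commensurable G (Fin c → G),
      ∃ a b : ℕ, 0 < a ∧ a < b ∧ Commensurable (Fin a → G) (Fin b → G),
      Larger G (G × G),
      ∀ v : Vertex k, Larger (A.rist v) G,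
      ∃ v : Vertex k, 0 < v.1 ∧ Larger (A.rist v) G,
      ∀ v : Vertex k, ∃ c : ℕ, 2 ≤ c ∧ Commensurable (A.rist v) (Fin c → A.rist v),
      ∃ (u v : Vertex k) (i j : ℕ), Commensurable (Fin i → A.rist u) (Fin j → A.rist v) ∧
        i * Nat.card (Word k v.1) ≠ j * Nat.card (Word k u.1)] := by
  tfae_have 1 → 5 := fun h v => A.one_four hB h v
  tfae_have 5 → 6 := fun h => ⟨⟨1, zv hk 1⟩, Nat.one_pos, h _⟩
  tfae_have 6 → 4 := fun ⟨v, hv, h⟩ => A.five_two hk hB v hv h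
  tfae_have 4 → 3 := fun h => A.two_three hk hB hJ h
  tfae_have 3 → 5 := fun ⟨_, _, ha, hab, h⟩ v => A.three_four hk hB hJ ha hab (comm_iff.1 h) v
  tfae_have 5 → 1 := fun h => A.four_one hk hB hJ h
  tfae_have 3 → 7 := by
    rintro ⟨a, b, ha, hab, h⟩ v
    obtain ⟨c, hc, h1⟩ := A.three_seven hk hB hJ hab (comm_iff.1 h) v
    exact ⟨c, hc, comm_iff.2 h1⟩
  tfae_have 7 → 2 := by
    intro h
    obtain ⟨c, hc, h1⟩ := A.seven_two fun v => by
      obtain ⟨c, hc, h1⟩ := h v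
      exact ⟨c, hc, comm_iff.1 h1⟩
    exact ⟨c, hc, comm_iff.2 h1⟩
  tfae_have 2 → 3 := by
    rintro ⟨c, hc, h⟩
    exact ⟨1, c, Nat.one_pos, hc, comm_iff.2 (Cm.one.trans (comm_iff.1 h))⟩
  tfae_have 3 → 8 := by
    rintro ⟨a, b, ha, hab, h⟩
    refine ⟨root k, root k, a, b, ?_, ?_⟩
    · rw [comm_iff] at h ⊢
      have e : Cm (A.rist (root k)) G := by
        rw [A.rist_root]
        exact Cm.of_equiv Subgroup.topEquiv
      exact (e.pow a).trans (h.trans (e.symm.pow b))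
    · have h1 : Nat.card (Word k (root k).1) = 1 := by
        rw [Nat.card_eq_fintype_card]
        rfl
      rw [h1]
      omega
  tfae_have 8 → 3 := by
    rintro ⟨⟨m, u⟩, ⟨n, w⟩, i, j, h, hne⟩
    rw [Nat.card_eq_fintype_card, Nat.card_eq_fintype_card] at hne
    exact A.six_three hB hJ u w (comm_iff.1 h) hne
  tfae_finish

end TreeAction

end Pool.Agent.TH108.MB
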