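import Mathlib

/-!
Coding of strictly increasing graphs in a linear order with a small separating set.
-/

set_option autoImplicit false

namespace Pool.Agent.TH108.SR

universe u

open Cardinal Set

variable {L : Type u} [LinearOrder L]

/-- `D` meets every interval `[x, y]` with `x < y`. -/
def Sep (D : Set L) : Prop := ∀ x y : L, x < y → ∃ d ∈ D, x ≤ d ∧ d ≤ y

/-- A graph of a partial map that preserves and reflects the strict order. -/
def SM (G : Set (L × L)) : Prop := ∀ p ∈ G, ∀ q ∈ G, (p.1 < q.1 ↔ p.2 < q.2)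

/-- The code of a graph. -/
def code (D : Set L) (G : Set (L × L)) : Set (D × D) :=
  {r | ∃ p ∈ G, p.1 ≤ (r.1 : L) ∧ (r.2 : L) ≤ p.2}

/-- Jumps on the left. -/
def LJ (D : Set L) (G : Set (L × L)) : Set (L × L) :=
  {p | p ∈ G ∧ ∃ e ∈ D, e ≤ p.2 ∧ ∀ q ∈ G, q.1 < p.1 → q.2 < e}

/-- Jumps on the right. -/
def RJ (D : Set L) (G : Set (L × L)) : Set (L × L) :=
  {p | p ∈ G ∧ ∃ e ∈ D, p.2 ≤ e ∧ ∀ q ∈ G, p.1 < q.1 → e < q.2}

theorem SM.eq_iff {G : Set (L × L)} (h : SM G) {p q : L × L} (hp : p ∈ G) (hq : q ∈ G) :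
    p.1 = q.1 ↔ p.2 = q.2 := by
  have h1 := h p hp q hq
  have h2 := h q hq p hp
  constructor
  · intro e
    rcases lt_trichotomy p.2 q.2 with h3 | h3 | h3
    · exact absurd (h1.2 h3) (by rw [e]; exact lt_irrefl _)
    · exact h3
    · exact absurd (h2.2 h3) (by rw [e]; exact lt_irrefl _)
  · intro e
    rcases lt_trichotomy p.1 q.1 with h3 | h3 | h3
    · exact absurd (h1.1 h3) (by rw [e]; exact lt_irrefl _)
    · exact h3
    · exact absurd (h2.1 h3) (by rw [e]; exact lt_irrefl _)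

theorem SM.ext {G : Set (L × L)} (h : SM G) {p q : L × L} (hp : p ∈ G) (hq : q ∈ G)
    (e : p.1 = q.1) : p = q := Prod.ext e ((h.eq_iff hp hq).1 e)

theorem mk_LJ_le (D : Set L) {G : Set (L × L)} (h : SM G) : #(LJ D G) ≤ #D := by
  classical
  have hc : ∀ p : LJ D G, ∃ e : D, (e : L) ≤ p.1.2 ∧ ∀ q ∈ G, q.1 < p.1.1 → q.2 < (e : L) := by
    intro p
    obtain ⟨_, e, he, h1, h2⟩ := p.2
    exact ⟨⟨e, he⟩, h1, h2⟩
  choose e he1 he2 using hc
  refine mk_le_of_injective (f := e) ?_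
  intro p q hpq
  apply Subtype.ext
  apply h.ext p.2.1 q.2.1
  rcases lt_trichotomy p.1.1 q.1.1 with h3 | h3 | h3
  · have := he2 q p.1 p.2.1 h3
    rw [← hpq] at this
    exact absurd this (not_lt.2 (he1 p))
  · exact h3
  · have := he2 p q.1 q.2.1 h3
    rw [hpq] at this
    exact absurd this (not_lt.2 (he1 q))

theorem mk_RJ_le (D : Set L) {G : Set (L × L)} (h : SM G) : #(RJ D G) ≤ #D := by
  classical
  have hc : ∀ p : RJ D G, ∃ e : D, p.1.2 ≤ (e : L) ∧ ∀ q ∈ G, p.1.1 < q.1 → (e : L) < q.2 := by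
    intro p
    obtain ⟨_, e, he, h1, h2⟩ := p.2
    exact ⟨⟨e, he⟩, h1, h2⟩
  choose e he1 he2 using hc
  refine mk_le_of_injective (f := e) ?_
  intro p q hpq
  apply Subtype.ext
  apply h.ext p.2.1 q.2.1
  rcases lt_trichotomy p.1.1 q.1.1 with h3 | h3 | h3
  · have := he2 p q.1 q.2.1 h3
    rw [hpq] at this
    exact absurd this (not_lt.2 (he1 q))
  · exact h3
  · have := he2 q p.1 p.2.1 h3
    rw [← hpq] at this
    exact absurd this (not_lt.2 (he1 p))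

theorem not_lt_of_code {D : Set L} (hD : Sep D) {G H : Set (L × L)} (hG : SM G)
    (hc : code D G = code D H) {p q : L × L} (hp : p ∈ G) (hq : q ∈ H) (e : p.1 = q.1)
    (hp' : p ∉ RJ D G) (hq' : q ∉ LJ D H) : ¬ p.2 < q.2 := by
  intro hlt
  obtain ⟨d, hd, h1, h2⟩ := hD _ _ hlt
  have h3 : ∃ p' ∈ G, p.1 < p'.1 ∧ p'.2 ≤ d := by
    by_contra hcon
    push Not at hcon
    exact hp' ⟨hp, d, hd, h1, hcon⟩
  have h4 : ∃ q' ∈ H, q'.1 < q.1 ∧ d ≤ q'.2 := by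
    by_contra hcon
    push Not at hcon
    exact hq' ⟨hq, d, hd, h2, hcon⟩
  obtain ⟨p', hp1, hp2, hp3⟩ := h3
  obtain ⟨q', hq1, hq2, hq3⟩ := h4
  obtain ⟨d', hd', h5, h6⟩ := hD _ _ hq2
  have h7 : ((⟨d', hd'⟩, ⟨d, hd⟩) : D × D) ∈ code D H := ⟨q', hq1, h5, hq3⟩
  rw [← hc] at h7
  obtain ⟨r, hr, hr1, hr2⟩ := h7
  have h8 : r.1 < p'.1 := lt_of_le_of_lt (hr1.trans h6) (by rw [← e]; exact hp2)
  have h9 := (hG r hr p' hp1).1 h8
  exact absurd (h9.trans_le (hp3.trans hr2)) (lt_irrefl _)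

theorem eq_of_code {D : Set L} (hD : Sep D) {G H : Set (L × L)} (hG : SM G) (hH : SM H)
    (hc : code D G = code D H) {p q : L × L} (hp : p ∈ G) (hq : q ∈ H) (e : p.1 = q.1)
    (hp1 : p ∉ LJ D G) (hp2 : p ∉ RJ D G) (hq1 : q ∉ LJ D H) (hq2 : q ∉ RJ D H) :
    p.2 = q.2 :=
  le_antisymm (not_lt.1 (not_lt_of_code hD hH hc.symm hq hp e.symm hq2 hp1))
    (not_lt.1 (not_lt_of_code hD hG hc hp hq e hp2 hq1))

open Classical in
/-- The function given by a code. -/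
noncomputable def F (D : Set L) (b : Set (D × D)) (x : L) : L :=
  if h : ∃ y : L, ∃ G : Set (L × L), SM G ∧ code D G = b ∧ (x, y) ∈ G ∧ (x, y) ∉ LJ D G ∧
    (x, y) ∉ RJ D G then h.choose else x

theorem F_spec {D : Set L} (hD : Sep D) {G : Set (L × L)} (hG : SM G) {x y : L}
    (h : (x, y) ∈ G) (h1 : (x, y) ∉ LJ D G) (h2 : (x, y) ∉ RJ D G) : F D (code D G) x = y := by
  have hex : ∃ y : L, ∃ H : Set (L × L), SM H ∧ code D H = code D G ∧ (x, y) ∈ H ∧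
    (x, y) ∉ LJ D H ∧ (x, y) ∉ RJ D H := ⟨y, G, hG, rfl, h, h1, h2⟩
  unfold F
  rw [dif_pos hex]
  obtain ⟨H, hH, hc, k, k1, k2⟩ := hex.choose_spec
  exact eq_of_code hD hH hG hc k h rfl k1 k2 h1 h2

end Pool.Agent.TH108.SR
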