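import Pool.Agent.TH108.SRcode

/-!
Diagonalisation and the existence of strongly rigid chains.
-/

set_option autoImplicit false

namespace Pool.Agent.TH108.SR

universe u

open Cardinal Set

/-- Two well orders of equal cofinality: a map with small fibres below every point. -/
theorem exists_rank {A B : Type u} [LinearOrder A] [WellFoundedLT A] [LinearOrder B]
    [WellFoundedLT B] (h : Order.cof A = Order.cof B) :
    ∃ r : B → A, ∀ a : A, ∃ b : B, ∀ b' : B, r b' ≤ a → b' ≤ b := by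
  classical
  obtain ⟨s, hs, hs'⟩ := Ordinal.exists_ord_cof_eq A
  obtain ⟨t, ht, ht'⟩ := Ordinal.exists_ord_cof_eq B
  have h1 : Ordinal.type (α := t) (· < ·) = Ordinal.type (α := s) (· < ·) := by
    rw [ht', hs', h]
  obtain ⟨e⟩ := Ordinal.type_eq.1 h1
  have hex : ∀ b : B, ∃ x : t, b ≤ x := by
    intro b
    obtain ⟨x, hx, hx'⟩ := ht b
    exact ⟨⟨x, hx⟩, hx'⟩
  choose g hg using hex
  refine ⟨fun b => (e (g b) : A), fun a => ?_⟩
  obtain ⟨x, hx, hx'⟩ := hs a
  refine ⟨(e.symm ⟨x, hx⟩ : t), fun b' hb' => (hg b').trans ?_⟩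
  have h2 : ¬ (e.symm ⟨x, hx⟩ < g b') := by
    intro h3
    have h4 := e.map_rel_iff.2 h3
    rw [e.apply_symm_apply] at h4
    exact absurd (lt_of_lt_of_le (show x < (e (g b') : A) from h4) (hb'.trans hx')) (lt_irrefl _)
  exact not_lt.1 h2

theorem diag {L I : Type u} {κ : Cardinal.{u}} (F : I → L → L) (hκ : ℵ₀ ≤ κ) (hI : #I ≤ #L)
    (hκL : κ ≤ #L) (hcof : κ.ord.cof = (#L).ord.cof) :
    ∃ c : κ.ord.ToType → L, Function.Injective c ∧
      ∀ i : I, ∃ ξ, ∀ η ζ, ξ ≤ ζ → η < ζ → c ζ ≠ F i (c η) := by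
  classical
  have hL : ℵ₀ ≤ #L := hκ.trans hκL
  obtain ⟨r, hr⟩ := exists_rank (A := κ.ord.ToType) (B := (#L).ord.ToType)
    (by rw [Ordinal.cof_toType, Ordinal.cof_toType, hcof])
  obtain ⟨e⟩ : Nonempty (I ↪ (#L).ord.ToType) := by
    rw [← Cardinal.le_def]
    simpa using hI
  -- the indices of rank at most `ξ`
  let J : κ.ord.ToType → Set I := fun ξ => {i | r (e i) ≤ ξ}
  have hJ : ∀ ξ, #(J ξ) < #L := by
    intro ξ
    obtain ⟨b, hb⟩ := hr ξ
    have h1 : #(J ξ) ≤ #(Iic b) :=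
      mk_le_of_injective (f := fun i : J ξ => (⟨e i.1, hb _ i.2⟩ : Iic b))
        (fun i j hij => Subtype.ext (e.injective (congrArg Subtype.val hij)))
    have h2 : #(Iic b) ≤ #(Iio b) + 1 := by
      rw [← Iio_insert]
      exact mk_insert_le
    have h3 : #(Iio b) < #L := by
      have := mk_Iio_lt b (by simp)
      simpa using this
    exact (h1.trans h2).trans_lt (add_lt_of_lt hL h3 (one_lt_aleph0.trans_le hL))
  let bad : (ξ : κ.ord.ToType) → ((η : κ.ord.ToType) → η < ξ → L) → Set L := fun ξ prev =>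
    ⋃ η : Iio ξ, insert (prev η.1 η.2) (range (fun i : J ξ => F i.1 (prev η.1 η.2)))
  have hbad : ∀ ξ prev, #(bad ξ prev) < #L := by
    intro ξ prev
    have h1 : #(bad ξ prev) ≤ #(Iio ξ) * (#(J ξ) + 1) := by
      refine (mk_iUnion_le_sum_mk).trans ?_
      refine (sum_le_sum _ (fun _ => #(J ξ) + 1) (fun η => ?_)).trans ?_
      · refine mk_insert_le.trans ?_
        gcongr
        exact mk_range_le
      · rw [sum_const']
    have h2 : #(Iio ξ) < #L := by
      have := mk_Iio_lt ξ (by simp)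
      have h3 : #(Iio ξ) < κ := by simpa using this
      exact h3.trans_le hκL
    exact h1.trans_lt (mul_lt_of_lt hL h2 (add_lt_of_lt hL (hJ ξ) (one_lt_aleph0.trans_le hL)))
  have hex : ∀ ξ prev, ∃ y, y ∉ bad ξ prev := by
    intro ξ prev
    by_contra hcon
    push Not at hcon
    have : bad ξ prev = Set.univ := eq_univ_of_forall hcon
    have h1 := hbad ξ prev
    rw [this, mk_univ] at h1
    exact lt_irrefl _ h1
  have hwf : WellFounded (fun a b : κ.ord.ToType => a < b) := wellFounded_lt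
  let c : κ.ord.ToType → L := hwf.fix (fun ξ prev => (hex ξ prev).choose)
  have hc : ∀ ξ, c ξ ∉ bad ξ (fun η _ => c η) := by
    intro ξ
    have h1 : c ξ = (hex ξ (fun η _ => c η)).choose := hwf.fix_eq _ ξ
    rw [h1]
    exact (hex ξ (fun η _ => c η)).choose_spec
  have hc1 : ∀ η ζ, η < ζ → c ζ ≠ c η := by
    intro η ζ h h1
    apply hc ζ
    refine mem_iUnion.2 ⟨⟨η, h⟩, ?_⟩
    rw [h1]
    exact mem_insert _ _
  refine ⟨c, ?_, ?_⟩
  · intro a b hab
    rcases lt_trichotomy a b with h | h | h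
    · exact absurd hab.symm (hc1 a b h)
    · exact h
    · exact absurd hab (hc1 b a h)
  · intro i
    refine ⟨r (e i), fun η ζ h1 h2 h3 => ?_⟩
    apply hc ζ
    refine mem_iUnion.2 ⟨⟨η, h2⟩, ?_⟩
    refine mem_insert_of_mem _ ⟨⟨i, h1⟩, ?_⟩
    exact h3.symm

/-- Strong rigidity: every order embedding of a subchain moves fewer than `#C` points. -/
def StronglyRigid (C : Type u) [LinearOrder C] : Prop :=
  ∀ (S : Set C) (f : C → C), StrictMonoOn f S → #{x : C | x ∈ S ∧ f x ≠ x} < #C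

/-- The class of the cardinalities of strongly rigid chains. -/
def K : Set Cardinal.{u} :=
  {κ | ℵ₀ ≤ κ ∧ ∃ (C : Type u) (_ : LinearOrder C), #C = κ ∧ StronglyRigid C}

theorem exists_rigid {L : Type u} [LinearOrder L] {D : Set L} (hD : Sep D)
    {κ l : Cardinal.{u}} (hl : ℵ₀ ≤ l) (hDl : #D ≤ l) (hL : #L = 2 ^ l) (h1 : l < κ)
    (h2 : κ ≤ 2 ^ l) (hcof : κ.ord.cof = ((2 : Cardinal.{u}) ^ l).ord.cof) : κ ∈ K.{u} := by
  classical
  have hκ : ℵ₀ ≤ κ := hl.trans h1.le
  have hI : #(Set (D × D)) ≤ #L := by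
    rw [mk_set, hL]
    apply power_le_power_left two_ne_zero
    rw [mk_prod, lift_id]
    calc #D * #D ≤ l * l := mul_le_mul' hDl hDl
      _ = l := mul_eq_self hl
  obtain ⟨c, hc, hdiag⟩ := diag (L := L) (I := Set (D × D)) (κ := κ) (F D) hκ hI
    (by rw [hL]; exact h2) (by rw [hL]; exact hcof)
  refine ⟨hκ, (range c : Set L), inferInstance, ?_, ?_⟩
  · rw [mk_range_eq c hc]
    simp
  intro S f hf
  have hcard : #(range c : Set L) = κ := by
    rw [mk_range_eq c hc]
    simp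
  rw [hcard]
  let G : Set (L × L) := {p | ∃ x : range c, x ∈ S ∧ p = (↑x, ↑(f x))}
  let G' : Set (L × L) := {p | ∃ x : range c, x ∈ S ∧ p = (↑(f x), ↑x)}
  have hG : SM G := by
    rintro p ⟨x, hx, rfl⟩ q ⟨y, hy, rfl⟩
    exact (hf.lt_iff_lt hx hy).symm
  have hG' : SM G' := by
    rintro p ⟨x, hx, rfl⟩ q ⟨y, hy, rfl⟩
    exact (hf.lt_iff_lt hx hy)
  obtain ⟨ξ1, hξ1⟩ := hdiag (code D G)
  obtain ⟨ξ2, hξ2⟩ := hdiag (code D G')
  let ξ := max ξ1 ξ2
  let M1 : Set (range c) := {x | x ∈ S ∧ ((x : L), (f x : L)) ∈ LJ D G}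
  let M2 : Set (range c) := {x | x ∈ S ∧ ((x : L), (f x : L)) ∈ RJ D G}
  let M3 : Set (range c) := {x | x ∈ S ∧ ((f x : L), (x : L)) ∈ LJ D G'}
  let M4 : Set (range c) := {x | x ∈ S ∧ ((f x : L), (x : L)) ∈ RJ D G'}
  let M5 : Set (range c) := range (fun a : Iio ξ => (⟨c a.1, mem_range_self _⟩ : range c))
  have hM1 : #M1 ≤ l := (mk_le_of_injective
    (f := fun x : M1 => (⟨((x.1 : L), (f x.1 : L)), x.2.2⟩ : LJ D G))
    (fun x y hxy => by
      apply Subtype.ext
      apply Subtype.ext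
      exact congrArg Prod.fst (congrArg Subtype.val hxy))).trans ((mk_LJ_le D hG).trans hDl)
  have hM2 : #M2 ≤ l := (mk_le_of_injective
    (f := fun x : M2 => (⟨((x.1 : L), (f x.1 : L)), x.2.2⟩ : RJ D G))
    (fun x y hxy => by
      apply Subtype.ext
      apply Subtype.ext
      exact congrArg Prod.fst (congrArg Subtype.val hxy))).trans ((mk_RJ_le D hG).trans hDl)
  have hM3 : #M3 ≤ l := (mk_le_of_injective
    (f := fun x : M3 => (⟨((f x.1 : L), (x.1 : L)), x.2.2⟩ : LJ D G'))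
    (fun x y hxy => by
      apply Subtype.ext
      apply Subtype.ext
      exact congrArg Prod.snd (congrArg Subtype.val hxy))).trans ((mk_LJ_le D hG').trans hDl)
  have hM4 : #M4 ≤ l := (mk_le_of_injective
    (f := fun x : M4 => (⟨((f x.1 : L), (x.1 : L)), x.2.2⟩ : RJ D G'))
    (fun x y hxy => by
      apply Subtype.ext
      apply Subtype.ext
      exact congrArg Prod.snd (congrArg Subtype.val hxy))).trans ((mk_RJ_le D hG').trans hDl)
  have hM5 : #M5 < κ := by
    refine mk_range_le.trans_lt ?_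
    have := mk_Iio_lt ξ (by simp)
    simpa using this
  have hsub : {x : range c | x ∈ S ∧ f x ≠ x} ⊆ M1 ∪ (M2 ∪ (M3 ∪ (M4 ∪ M5))) := by
    rintro x ⟨hxS, hfx⟩
    by_cases k1 : x ∈ M1
    · exact Or.inl k1
    by_cases k2 : x ∈ M2
    · exact Or.inr (Or.inl k2)
    by_cases k3 : x ∈ M3
    · exact Or.inr (Or.inr (Or.inl k3))
    by_cases k4 : x ∈ M4
    · exact Or.inr (Or.inr (Or.inr (Or.inl k4)))
    refine Or.inr (Or.inr (Or.inr (Or.inr ?_)))
    have e1 : F D (code D G) x = f x :=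
      F_spec hD hG ⟨x, hxS, rfl⟩ (fun h => k1 ⟨hxS, h⟩) (fun h => k2 ⟨hxS, h⟩)
    have e2 : F D (code D G') (f x) = x :=
      F_spec hD hG' ⟨x, hxS, rfl⟩ (fun h => k3 ⟨hxS, h⟩) (fun h => k4 ⟨hxS, h⟩)
    obtain ⟨a, ha⟩ := x.2
    obtain ⟨b, hb⟩ := (f x).2
    have hab : a ≠ b := by
      intro h
      apply hfx
      apply Subtype.ext
      rw [← ha, ← hb, h]
    have haξ : a < ξ := by
      by_contra hcon
      push Not at hcon
      rcases lt_or_gt_of_ne hab with h | h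
      · -- `a < b`
        have := hξ1 a b (((le_max_left _ _).trans hcon).trans h.le) h
        apply this
        rw [ha, hb, e1]
      · have := hξ2 b a ((le_max_right _ _).trans hcon) h
        apply this
        rw [ha, hb, e2]
    exact ⟨⟨a, haξ⟩, Subtype.ext ha⟩
  refine (mk_le_mk_of_subset hsub).trans_lt ?_
  have hlt : ∀ {M N : Set (range c)}, #M < κ → #N < κ → #(M ∪ N : Set (range c)) < κ :=
    fun {M N} h h' => (mk_union_le M N).trans_lt (add_lt_of_lt hκ h h')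
  exact hlt (hM1.trans_lt h1) (hlt (hM2.trans_lt h1) (hlt (hM3.trans_lt h1)
    (hlt (hM4.trans_lt h1) hM5)))

end Pool.Agent.TH108.SR
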