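import Mathlib

/-!
A chain with more than `2 ^ ν` points has a strictly increasing or a strictly decreasing sequence
of length `ν⁺`.
-/

set_option autoImplicit false

namespace Pool.Agent.TH108.SR

universe u

open Cardinal Set

section

variable {C : Type u} [LinearOrder C] (r : C → C → Prop)

/-- The ancestors of `x` on the left. -/
def AL (x : C) : Set C := {y | y < x ∧ ∀ z, y ≤ z → z ≤ x → ¬ r z y}

/-- The ancestors of `x` on the right. -/
def AR (x : C) : Set C := {y | x < y ∧ ∀ z, x ≤ z → z ≤ y → ¬ r z y}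

/-- The points strictly between two sets. -/
def gap (P Q : Set C) : Set C := {z | (∀ p ∈ P, p < z) ∧ ∀ q ∈ Q, z < q}

open Classical in
/-- The least point of the gap. -/
noncomputable def mgap [Nonempty C] (P Q : Set C) : C :=
  if h : ∃ z ∈ gap P Q, ∀ w ∈ gap P Q, ¬ r w z then h.choose else Classical.arbitrary C

theorem mgap_spec [Nonempty C] [IsWellOrder C r] (P Q : Set C) (h : (gap P Q).Nonempty) :
    mgap r P Q ∈ gap P Q ∧ ∀ w ∈ gap P Q, ¬ r w (mgap r P Q) := by
  have hwf : WellFounded r := IsWellFounded.wf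
  have hex : ∃ z ∈ gap P Q, ∀ w ∈ gap P Q, ¬ r w z :=
    ⟨hwf.min _ h, hwf.min_mem _ h, fun w hw => hwf.not_lt_min _ hw⟩
  unfold mgap
  rw [dif_pos hex]
  exact hex.choose_spec

theorem mgap_eq [Nonempty C] [IsWellOrder C r] {x y : C} (hy : y = x ∨ y ∈ AL r x ∨ y ∈ AR r x) :
    mgap r {p | p ∈ AL r x ∧ r p y} {q | q ∈ AR r x ∧ r q y} = y := by
  set P : Set C := {p | p ∈ AL r x ∧ r p y} with hP
  set Q : Set C := {q | q ∈ AR r x ∧ r q y} with hQ
  have hyg : y ∈ gap P Q := by
    constructor
    · rintro p ⟨hp, hpy⟩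
      rcases lt_trichotomy p y with h | h | h
      · exact h
      · exact absurd (h ▸ hpy) (irrefl_of r y)
      · exfalso
        rcases hy with rfl | hy | hy
        · exact lt_asymm h hp.1
        · exact hy.2 p h.le hp.1.le hpy
        · exact lt_asymm (h.trans hp.1) hy.1
    · rintro q ⟨hq, hqy⟩
      rcases lt_trichotomy y q with h | h | h
      · exact h
      · exact absurd (h ▸ hqy) (irrefl_of r y)
      · exfalso
        rcases hy with rfl | hy | hy
        · exact lt_asymm h hq.1
        · exact lt_asymm (hq.1.trans h) hy.1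
        · exact hy.2 q hq.1.le h.le hqy
  have hxg : x ∈ gap P Q := ⟨fun p hp => hp.1.1, fun q hq => hq.1.1⟩
  obtain ⟨hz, hmin⟩ := mgap_spec r P Q ⟨y, hyg⟩
  set z := mgap r P Q with hzdef
  rcases trichotomous_of r z y with h | h | h
  · exfalso
    rcases lt_trichotomy z x with h1 | h1 | h1
    · have hzL : z ∈ AL r x := ⟨h1, fun w hw1 hw2 => hmin w
        ⟨fun p hp => (hz.1 p hp).trans_le hw1, fun q hq => hw2.trans_lt (hxg.2 q hq)⟩⟩
      exact lt_irrefl _ (hz.1 z ⟨hzL, h⟩)
    · rw [h1] at h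
      rcases hy with rfl | hy | hy
      · exact irrefl_of r y h
      · exact hy.2 x hy.1.le le_rfl h
      · exact hy.2 x le_rfl hy.1.le h
    · have hzR : z ∈ AR r x := ⟨h1, fun w hw1 hw2 => hmin w
        ⟨fun p hp => (hxg.1 p hp).trans_le hw1, fun q hq => hw2.trans_lt (hz.2 q hq)⟩⟩
      exact lt_irrefl _ (hz.2 z ⟨hzR, h⟩)
  · exact h
  · exact absurd h (hmin y hyg)

/-- If all the sets of ancestors are small, the chain is small. -/
theorem mk_le_of_ancestors [IsWellOrder C r] {ν : Cardinal.{u}} (hν : ℵ₀ ≤ ν)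
    (hL : ∀ x, #(AL r x) ≤ ν) (hR : ∀ x, #(AR r x) ≤ ν) : #C ≤ 2 ^ ν := by
  classical
  rcases isEmpty_or_nonempty C with hC | hC
  · rw [mk_eq_zero]
    exact zero_le
  obtain ⟨N, hN⟩ : ∃ N : Type u, #N = ν := ⟨ν.out, mk_out ν⟩
  let β : Set N × Set N → Type u := fun a => a.1 ⊕ a.2
  let ev : WType β → C := fun w => WType.rec (motive := fun _ => C)
    (fun a _ ih => mgap r (range fun i => ih (Sum.inl i)) (range fun i => ih (Sum.inr i))) w
  have hev : ∀ (a : Set N × Set N) (f : β a → WType β), ev (WType.mk a f) =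
      mgap r (range fun i => ev (f (Sum.inl i))) (range fun i => ev (f (Sum.inr i))) :=
    fun a f => rfl
  have key : ∀ x y, (y = x ∨ y ∈ AL r x ∨ y ∈ AR r x) → y ∈ range ev := by
    intro x y
    induction y using (IsWellFounded.wf (r := r)).induction with
    | _ y ih =>
      intro hy
      let P : Set C := {p | p ∈ AL r x ∧ r p y}
      let Q : Set C := {q | q ∈ AR r x ∧ r q y}
      have hP : #P ≤ #N := by
        rw [hN]
        exact (mk_le_mk_of_subset (fun p hp => hp.1)).trans (hL x)
      have hQ : #Q ≤ #N := by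
        rw [hN]
        exact (mk_le_mk_of_subset (fun p hp => hp.1)).trans (hR x)
      obtain ⟨eP⟩ := Cardinal.le_def _ _ |>.1 hP
      obtain ⟨eQ⟩ := Cardinal.le_def _ _ |>.1 hQ
      have hP1 : ∀ i : range eP, ∃ w : WType β, ∃ p : P, eP p = i.1 ∧ ev w = p.1 := by
        rintro ⟨i, p, rfl⟩
        obtain ⟨w, hw⟩ := ih p.1 p.2.2 (Or.inr (Or.inl p.2.1))
        exact ⟨w, p, rfl, hw⟩
      have hQ1 : ∀ i : range eQ, ∃ w : WType β, ∃ q : Q, eQ q = i.1 ∧ ev w = q.1 := by
        rintro ⟨i, q, rfl⟩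
        obtain ⟨w, hw⟩ := ih q.1 q.2.2 (Or.inr (Or.inr q.2.1))
        exact ⟨w, q, rfl, hw⟩
      choose wP pP hP2 hP3 using hP1
      choose wQ pQ hQ2 hQ3 using hQ1
      refine ⟨WType.mk (range eP, range eQ) (Sum.elim wP wQ), ?_⟩
      rw [hev]
      have e1 : (range fun i => ev ((Sum.elim wP wQ : β (range eP, range eQ) → WType β)
          (Sum.inl i))) = P := by
        ext p
        constructor
        · rintro ⟨i, rfl⟩
          show ev (wP i) ∈ P
          rw [hP3]
          exact (pP i).2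
        · intro hp
          refine ⟨⟨eP ⟨p, hp⟩, mem_range_self _⟩, ?_⟩
          show ev (wP _) = p
          rw [hP3]
          have := hP2 ⟨eP ⟨p, hp⟩, mem_range_self _⟩
          exact congrArg Subtype.val (eP.injective this)
      have e2 : (range fun i => ev ((Sum.elim wP wQ : β (range eP, range eQ) → WType β)
          (Sum.inr i))) = Q := by
        ext p
        constructor
        · rintro ⟨i, rfl⟩
          show ev (wQ i) ∈ Q
          rw [hQ3]
          exact (pQ i).2
        · intro hp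
          refine ⟨⟨eQ ⟨p, hp⟩, mem_range_self _⟩, ?_⟩
          show ev (wQ _) = p
          rw [hQ3]
          have := hQ2 ⟨eQ ⟨p, hp⟩, mem_range_self _⟩
          exact congrArg Subtype.val (eQ.injective this)
      rw [e1, e2]
      exact mgap_eq r hy
  have hsurj : Function.Surjective ev := fun x => key x x (Or.inl rfl)
  refine (mk_le_of_surjective hsurj).trans ?_
  apply WType.cardinalMk_le_of_le
  have h2 : ℵ₀ ≤ (2 : Cardinal.{u}) ^ ν := hν.trans (cantor ν).le
  refine (sum_le_sum _ (fun _ => (2 : Cardinal.{u}) ^ ν) (fun a => ?_)).trans ?_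
  · have hβ : #(β a) ≤ ν := by
      show #(a.1 ⊕ a.2) ≤ ν
      rw [mk_sum, lift_id, lift_id]
      have h3 : #a.1 ≤ ν := hN ▸ mk_set_le _
      have h4 : #a.2 ≤ ν := hN ▸ mk_set_le _
      exact (add_le_add h3 h4).trans (add_eq_self hν).le
    calc ((2 : Cardinal.{u}) ^ ν) ^ #(β a) ≤ ((2 : Cardinal.{u}) ^ ν) ^ ν :=
          power_le_power_left (power_ne_zero _ two_ne_zero) hβ
      _ = 2 ^ ν := by rw [← power_mul, mul_eq_self hν]
  · rw [sum_const', mk_prod, lift_id, mk_set, hN, mul_eq_self h2, mul_eq_self h2]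

end

/-- A chain with more than `2 ^ ν` points contains a monotone sequence of length `ν⁺`. -/
theorem exists_long {C : Type u} [LinearOrder C] {ν : Cardinal.{u}} (hν : ℵ₀ ≤ ν)
    (h : 2 ^ ν < #C) :
    (∃ s : (Order.succ ν).ord.ToType → C, StrictMono s) ∨
      (∃ s : (Order.succ ν).ord.ToType → C, StrictAnti s) := by
  classical
  let r : C → C → Prop := WellOrderingRel
  have hcon : ∃ x, ν < #(AL r x) ∨ ν < #(AR r x) := by
    by_contra hcon
    push Not at hcon
    exact absurd (mk_le_of_ancestors r hν (fun x => (hcon x).1) (fun x => (hcon x).2))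
      (not_le.2 h)
  obtain ⟨x, hx | hx⟩ := hcon
  · left
    have hsub : ∀ a b : AL r x, a < b → r a b := by
      intro a b hab
      rcases trichotomous_of r (a : C) b with h1 | h1 | h1
      · exact h1
      · exact absurd h1 (ne_of_lt hab)
      · exact absurd h1 (a.2.2 b hab.le b.2.1.le)
    have : WellFoundedLT (AL r x) :=
      ⟨Subrelation.wf (hsub _ _) (InvImage.wf Subtype.val (IsWellFounded.wf (r := r)))⟩
    have h1 : Ordinal.type (α := (Order.succ ν).ord.ToType) (· < ·) ≤
        Ordinal.type (α := AL r x) (· < ·) := by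
      rw [Ordinal.type_toType, ord_le]
      rw [Ordinal.card_type]
      exact Order.succ_le_of_lt hx
    obtain ⟨f⟩ := Ordinal.type_le_iff'.1 h1
    exact ⟨fun a => (f a : C), fun a b hab => f.map_rel_iff.2 hab⟩
  · right
    have hsub : ∀ a b : AR r x, b < a → r a b := by
      intro a b hab
      rcases trichotomous_of r (a : C) b with h1 | h1 | h1
      · exact h1
      · exact absurd h1.symm (ne_of_lt hab)
      · exact absurd h1 (a.2.2 b b.2.1.le (le_of_lt hab))
    have : WellFoundedGT (AR r x) :=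
      ⟨Subrelation.wf (hsub _ _) (InvImage.wf Subtype.val (IsWellFounded.wf (r := r)))⟩
    have h1 : Ordinal.type (α := (Order.succ ν).ord.ToType) (· < ·) ≤
        Ordinal.type (α := (AR r x)ᵒᵈ) (· < ·) := by
      rw [Ordinal.type_toType, ord_le]
      rw [Ordinal.card_type]
      exact Order.succ_le_of_lt hx
    obtain ⟨f⟩ := Ordinal.type_le_iff'.1 h1
    exact ⟨fun a => ((OrderDual.ofDual (f a) : AR r x) : C), fun a b hab => f.map_rel_iff.2 hab⟩

end Pool.Agent.TH108.SR
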