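import Pool.Agent.TH108.SRneg

/-!
The literal definitions of the problem on strongly rigid chains, and the link with the library.
-/

set_option autoImplicit false

namespace Pool.Agent.TH108.SRfin

universe u

open Cardinal Set

/-- Every injective order-preserving map `f` from a subchain `C₁` of the chain `C` into `C` moves
fewer than `#C` points. -/
def StronglyRigid (C : Type u) [LinearOrder C] : Prop :=
  ∀ (C₁ : Set C) (f : C₁ → C), StrictMono f → #{x : C₁ // f x ≠ x} < #C

/-- The class of the infinite cardinals that are the cardinality of a strongly rigid chain. -/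
def K : Set Cardinal.{u} :=
  {κ | ℵ₀ ≤ κ ∧ ∃ (C : Type u) (_ : LinearOrder C), #C = κ ∧ StronglyRigid C}

theorem rigid_iff (C : Type u) [LinearOrder C] :
    StronglyRigid C ↔ Pool.Agent.TH108.SR.StronglyRigid C := by
  classical
  constructor
  · intro h S f hf
    refine lt_of_le_of_lt ?_ (h S (fun x => f x) (fun x y hxy => hf x.2 y.2 hxy))
    refine mk_le_of_injective
      (f := fun x : {x : C | x ∈ S ∧ f x ≠ x} => (⟨⟨x.1, x.2.1⟩, x.2.2⟩ :
        {x : S // f x ≠ x})) ?_
    intro x y hxy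
    apply Subtype.ext
    exact congrArg (fun z : {x : S // f x ≠ x} => ((z.1 : S) : C)) hxy
  · intro h C₁ f hf
    refine lt_of_le_of_lt ?_ (h C₁ (fun x => if hx : x ∈ C₁ then f ⟨x, hx⟩ else x) ?_)
    · refine mk_le_of_injective (f := fun x : {x : C₁ // f x ≠ x} =>
        (⟨((x.1 : C₁) : C), x.1.2, by
          rw [dif_pos x.1.2]
          exact x.2⟩ : {x : C | x ∈ C₁ ∧ (if hx : x ∈ C₁ then f ⟨x, hx⟩ else x) ≠ x})) ?_
      intro x y hxy
      apply Subtype.ext
      apply Subtype.ext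
      exact congrArg (fun z : {x : C | x ∈ C₁ ∧
        (if hx : x ∈ C₁ then f ⟨x, hx⟩ else x) ≠ x} => (z : C)) hxy
    · intro x hx y hy hxy
      show (if hx : x ∈ C₁ then f ⟨x, hx⟩ else x) < (if hx : y ∈ C₁ then f ⟨y, hx⟩ else y)
      rw [dif_pos hx, dif_pos hy]
      exact hf hxy

theorem K_eq : K.{u} = Pool.Agent.TH108.SR.K.{u} := by
  ext κ
  constructor
  · rintro ⟨h, C, i, hC, hr⟩
    exact ⟨h, C, i, hC, (rigid_iff C).1 hr⟩
  · rintro ⟨h, C, i, hC, hr⟩
    exact ⟨h, C, i, hC, (rigid_iff C).2 hr⟩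

/-- Fewer than `#C` pairwise disjoint closed intervals with two end points. -/
theorem intervals_lt {C : Type u} [LinearOrder C] (h : StronglyRigid C) (I : Set (C × C))
    (h1 : ∀ p ∈ I, p.1 < p.2) (h2 : ∀ p ∈ I, ∀ q ∈ I, p ≠ q → p.2 < q.1 ∨ q.2 < p.1) :
    #I < #C := by
  classical
  have hx : ∀ x : (Prod.fst '' I : Set C), ∃ p ∈ I, p.1 = (x : C) := by
    rintro ⟨x, p, hp, rfl⟩
    exact ⟨p, hp, rfl⟩
  choose g hg1 hg2 using hx
  have hmono : StrictMono (fun x => (g x).2) := by
    intro x y hxy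
    have hxy' : (g x).1 < (g y).1 := by
      rw [hg2, hg2]
      exact hxy
    have hne : g x ≠ g y := fun e => by
      rw [e] at hxy'
      exact lt_irrefl _ hxy'
    rcases h2 _ (hg1 x) _ (hg1 y) hne with h3 | h3
    · exact h3.trans (h1 _ (hg1 y))
    · exact absurd ((h1 _ (hg1 y)).trans h3) (lt_asymm hxy')
  refine lt_of_le_of_lt ?_ (h (Prod.fst '' I) (fun x => (g x).2) hmono)
  have hinj : ∀ p ∈ I, ∀ q ∈ I, p.1 = q.1 → p = q := by
    intro p hp q hq e
    by_contra hne
    rcases h2 p hp q hq hne with h3 | h3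
    · exact absurd ((h1 p hp).trans h3) (by rw [e]; exact lt_irrefl _)
    · exact absurd ((h1 q hq).trans h3) (by rw [e]; exact lt_irrefl _)
  have hmoved : ∀ x : (Prod.fst '' I : Set C), (g x).2 ≠ x := by
    intro x
    have h3 := h1 _ (hg1 x)
    rw [hg2] at h3
    exact h3.ne'
  refine mk_le_of_injective (f := fun p : I =>
    (⟨⟨p.1.1, p.1, p.2, rfl⟩, hmoved _⟩ :
      {x : (Prod.fst '' I : Set C) // (g x).2 ≠ x})) ?_
  intro p q hpq
  apply Subtype.ext
  apply hinj _ p.2 _ q.2
  exact congrArg (fun z : {x : (Prod.fst '' I : Set C) // (g x).2 ≠ x} =>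
    ((z.1 : (Prod.fst '' I : Set C)) : C)) hpq

end Pool.Agent.TH108.SRfin
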