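import Pool.Agent.TH108.SRdiag

/-!
The lexicographic power of two, and the positive theorem.
-/

set_option autoImplicit false

namespace Pool.Agent.TH108.SR

universe u

open Cardinal Set

theorem exists_sep (l : Cardinal.{u}) (hl : ℵ₀ ≤ l) (h : ∀ ν < l, (2 : Cardinal.{u}) ^ ν ≤ l) :
    ∃ (L : Type u) (_ : LinearOrder L) (D : Set L), Sep D ∧ #D ≤ l ∧ #L = 2 ^ l := by
  classical
  let A := l.ord.ToType
  have hA : #A = l := by simp [A]
  let Di : A → Set (Lex (A → Bool)) := fun i => {x | ∀ j, i < j → x j = false}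
  refine ⟨Lex (A → Bool), inferInstance, ⋃ i, Di i, ?_, ?_, ?_⟩
  · intro x y hxy
    obtain ⟨i, hi1, hi2⟩ := hxy
    let d : Lex (A → Bool) := toLex (fun j => if j ≤ i then y j else false)
    refine ⟨d, mem_iUnion.2 ⟨i, fun j hj => ?_⟩, ?_, ?_⟩
    · exact if_neg (not_le.2 hj)
    · apply le_of_lt
      refine ⟨i, fun j hj => ?_, ?_⟩
      · exact (hi1 j hj).trans (if_pos hj.le).symm
      · have : d i = y i := if_pos le_rfl
        show x i < d i
        rw [this]
        exact hi2
    · apply le_of_not_gt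
      rintro ⟨k, _, hk⟩
      by_cases hki : k ≤ i
      · have : d k = y k := if_pos hki
        change y k < d k at hk
        rw [this] at hk
        exact lt_irrefl _ hk
      · have : d k = false := if_neg hki
        change y k < d k at hk
        rw [this] at hk
        exact absurd hk (by simp)
  · refine mk_iUnion_le_sum_mk.trans ?_
    have hle : ∀ i, #(Di i) ≤ l := by
      intro i
      have h1 : #(Di i) ≤ #(Iic i → Bool) := by
        refine mk_le_of_injective (f := fun x : Di i => fun j : Iic i => (x.1 j.1 : Bool)) ?_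
        intro x y hxy
        apply Subtype.ext
        funext j
        by_cases hj : j ≤ i
        · exact congrFun hxy ⟨j, hj⟩
        · rw [x.2 j (not_le.1 hj), y.2 j (not_le.1 hj)]
      refine h1.trans ?_
      have h2 : #(Iic i → Bool) = 2 ^ #(Iic i) := by
        rw [mk_arrow]
        simp
      rw [h2]
      apply h
      have h3 : #(Iic i) ≤ #(Iio i) + 1 := by
        rw [← Iio_insert]
        exact mk_insert_le
      refine h3.trans_lt (add_lt_of_lt hl ?_ (one_lt_aleph0.trans_le hl))
      have := mk_Iio_lt i (by simp [A])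
      rwa [hA] at this
    refine (sum_le_sum _ (fun _ => l) hle).trans ?_
    rw [sum_const', hA, mul_eq_self hl]
  · show #(A → Bool) = 2 ^ l
    rw [mk_arrow, hA]
    simp

/-- The positive theorem. -/
theorem mem_K {κ l : Cardinal.{u}} (hl : ℵ₀ ≤ l) (h : ∀ ν < l, (2 : Cardinal.{u}) ^ ν ≤ l)
    (h1 : l < κ) (h2 : κ ≤ 2 ^ l) (hcof : κ.ord.cof = ((2 : Cardinal.{u}) ^ l).ord.cof) :
    κ ∈ K.{u} := by
  obtain ⟨L, _, D, hD, hDl, hL⟩ := exists_sep l hl h
  exact exists_rigid hD hl hDl hL h1 h2 hcof

end Pool.Agent.TH108.SR
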