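import Pool.Agent.TH108.SRlex
import Pool.Agent.TH108.SRer

/-!
Cardinals that are not cardinalities of strongly rigid chains.
-/

set_option autoImplicit false

namespace Pool.Agent.TH108.SR

universe u v

open Cardinal Set

theorem StronglyRigid.dual {C : Type u} [LinearOrder C] (h : StronglyRigid C) :
    StronglyRigid Cᵒᵈ :=
  fun S f hf => h S f (fun _ hx _ hy hxy => hf hy hx hxy)

/-- Shifting along a separated family of well ordered sets without maximum. -/
theorem not_rigid_of_family {C : Type u} [LinearOrder C] {J : Type v} (H : J → Set C)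
    (hs : ∀ j, ∀ x ∈ H j, ∃ y ∈ H j, x < y ∧ ∀ z ∈ H j, x < z → y ≤ z)
    (hsep : ∀ i j, i ≠ j → (∀ x ∈ H i, ∀ y ∈ H j, x < y) ∨ (∀ x ∈ H i, ∀ y ∈ H j, y < x))
    (hcard : #C ≤ #(⋃ j, H j : Set C)) : ¬ StronglyRigid C := by
  classical
  intro hrig
  rcases isEmpty_or_nonempty C with hC | hC
  · have := hrig ∅ id (by intro x hx; exact absurd hx (by simp))
    rw [mk_eq_zero C] at this
    exact absurd this (not_lt.2 zero_le)
  rcases isEmpty_or_nonempty J with hJ | hJ
  · have h1 : (⋃ j, H j) = ∅ := by simp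
    rw [h1, mk_eq_zero (∅ : Set C)] at hcard
    exact absurd (mk_ne_zero C) (not_not.2 (le_antisymm hcard zero_le))
  choose! s hs1 hs2 hs3 using hs
  have hj : ∀ x ∈ ⋃ j, H j, ∃ j, x ∈ H j := fun x hx => mem_iUnion.1 hx
  choose! jj hjj using hj
  have hmono : StrictMonoOn (fun x => s (jj x) x) (⋃ j, H j) := by
    intro x hx y hy hxy
    by_cases e : jj x = jj y
    · show s (jj x) x < s (jj y) y
      have h1 := hs3 (jj x) x (hjj x hx) y (e ▸ hjj y hy) hxy
      exact h1.trans_lt (hs2 (jj y) y (hjj y hy))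
    · rcases hsep _ _ e with h1 | h1
      · exact h1 _ (hs1 _ _ (hjj x hx)) _ (hs1 _ _ (hjj y hy))
      · exact absurd (h1 _ (hjj x hx) _ (hjj y hy)) (lt_asymm hxy)
  have h2 := hrig (⋃ j, H j) (fun x => s (jj x) x) hmono
  have e : {x : C | x ∈ ⋃ j, H j ∧ s (jj x) x ≠ x} = ⋃ j, H j := by
    ext x
    refine ⟨fun h => h.1, fun h => ⟨h, (hs2 _ _ (hjj x h)).ne'⟩⟩
  rw [e] at h2
  exact absurd hcard (not_le.2 h2)

theorem bounded {ρ : Cardinal.{u}} (hρ : ρ.IsRegular) (X : Set ρ.ord.ToType) (hX : #X < ρ) :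
    ∃ b, ∀ x ∈ X, x < b := by
  by_contra hcon
  push Not at hcon
  have hcof : IsCofinal X := fun b => by
    obtain ⟨x, hx, hbx⟩ := hcon b
    exact ⟨x, hx, hbx⟩
  have := Order.cof_le hcof
  rw [Ordinal.cof_toType, hρ.cof_ord] at this
  exact absurd hX (not_lt.2 this)

theorem not_rigid_of_sequences {C : Type u} [LinearOrder C] {J : Type u} (ρ : J → Cardinal.{u})
    (hinj : Function.Injective ρ) (hreg : ∀ j, (ρ j).IsRegular) (hJ : ∀ j, #J < ρ j)
    (s : ∀ j, (ρ j).ord.ToType → C) (hs : ∀ j, StrictMono (s j))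
    (hcard : ∀ μ < #C, ∃ j, μ < ρ j) : ¬ StronglyRigid C := by
  classical
  have hne : ∀ j, Nonempty (ρ j).ord.ToType := by
    intro j
    obtain ⟨b, _⟩ := bounded (hreg j) ∅ (by rw [mk_eq_zero]; exact (hreg j).pos)
    exact ⟨b⟩
  have hdom : ∀ i j, ρ i < ρ j → (∃ b, ∀ a, s i a ≤ s j b) ∨ (∃ b, ∀ a, s j a ≤ s i b) := by
    intro i j hij
    by_contra hcon
    push Not at hcon
    obtain ⟨h1, h2⟩ := hcon
    choose φ hφ using h2
    obtain ⟨b, hb⟩ := bounded (hreg j) (range φ)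
      (mk_range_le.trans_lt (by simpa using hij))
    obtain ⟨a, ha⟩ := h1 b
    have h3 := hs j (hb _ (mem_range_self a))
    exact lt_irrefl _ ((ha.trans (hφ a)).trans h3)
  have hdom' : ∀ i j, i ≠ j → (∃ b, ∀ a, s i a ≤ s j b) ∨ (∃ b, ∀ a, s j a ≤ s i b) := by
    intro i j hij
    rcases lt_trichotomy (ρ i) (ρ j) with h | h | h
    · exact hdom i j h
    · exact absurd (hinj h) hij
    · exact (hdom j i h).symm
  have hw : ∀ i j, ∃ b : (ρ j).ord.ToType, (∃ b, ∀ a, s i a ≤ s j b) → ∀ a, s i a ≤ s j b := by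
    intro i j
    by_cases h : ∃ b, ∀ a, s i a ≤ s j b
    · exact ⟨h.choose, fun _ => h.choose_spec⟩
    · exact ⟨(hne j).some, fun h' => absurd h' h⟩
  choose w hw using hw
  have ht : ∀ j, ∃ t : (ρ j).ord.ToType, ∀ i, w i j < t := by
    intro j
    obtain ⟨t, ht⟩ := bounded (hreg j) (range (fun i => w i j)) (mk_range_le.trans_lt (hJ j))
    exact ⟨t, fun i => ht _ (mem_range_self i)⟩
  choose t ht using ht
  refine not_rigid_of_family (fun j => s j '' Ici (t j)) ?_ ?_ ?_
  · rintro j x ⟨a, ha, rfl⟩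
    have hnon : ({b | a < b} : Set (ρ j).ord.ToType).Nonempty := by
      obtain ⟨b, hb⟩ := bounded (hreg j) {a} (by
        rw [mk_singleton]
        exact one_lt_aleph0.trans_le (hreg j).aleph0_le)
      exact ⟨b, hb a rfl⟩
    have hwf : WellFounded (fun a b : (ρ j).ord.ToType => a < b) := wellFounded_lt
    have hm := hwf.min_mem _ hnon
    refine ⟨s j (hwf.min _ hnon), ⟨_, le_trans (show t j ≤ a from ha)
      (le_of_lt (show a < _ from hm)), rfl⟩, hs j hm, ?_⟩
    rintro z ⟨c, hc, rfl⟩ hac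
    have h1 : a < c := (hs j).lt_iff_lt.1 hac
    exact (hs j).monotone (not_lt.1 (hwf.not_lt_min _ h1))
  · intro i j hij
    rcases hdom' i j hij with h | h
    · left
      rintro x ⟨a, ha, rfl⟩ y ⟨b, hb, rfl⟩
      exact ((hw i j h a).trans_lt (hs j (ht j i))).trans_le ((hs j).monotone hb)
    · right
      rintro x ⟨a, ha, rfl⟩ y ⟨b, hb, rfl⟩
      exact ((hw j i h b).trans_lt (hs i (ht i j))).trans_le ((hs i).monotone ha)
  · apply le_of_forall_lt
    intro μ hμ
    obtain ⟨j, hj⟩ := hcard μ hμ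
    refine hj.trans_le ?_
    have h1 : #(s j '' Ici (t j)) = ρ j := by
      rw [mk_image_eq (hs j).injective]
      have hinf : Infinite (ρ j).ord.ToType := by
        rw [Cardinal.infinite_iff]
        simpa using (hreg j).aleph0_le
      have h2 : Ici (t j) = (Iio (t j))ᶜ := by
        ext x
        simp
      rw [h2, mk_compl_of_infinite]
      · simp
      · exact mk_Iio_lt _ (by simp)
    rw [← h1]
    exact mk_le_mk_of_subset (subset_iUnion (fun j => s j '' Ici (t j)) j)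

theorem not_mem_K_of_singular {κ : Cardinal.{u}} (hκ : κ.IsSingular)
    (hlim : ∀ ν < κ, (2 : Cardinal.{u}) ^ ν < κ) : κ ∉ K.{u} := by
  classical
  rintro ⟨_, C, _, hC, hrig⟩
  obtain ⟨S, hS, hS'⟩ := Order.exists_cof_eq κ.ord.ToType
  have hSκ : #S < κ := by
    rw [hS', Ordinal.cof_toType]
    exact hκ.cof_ord_lt
  let ν : κ.ord.ToType → Cardinal.{u} := fun a => max (max ℵ₀ #S) #(Iio a)
  have h0κ : ℵ₀ < κ := by
    refine lt_of_le_of_ne hκ.aleph0_le ?_
    rintro rfl
    exact not_isSingular_aleph0 hκ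
  have hνκ : ∀ a, ν a < κ := by
    intro a
    refine max_lt (max_lt h0κ hSκ) ?_
    have := mk_Iio_lt a (by simp)
    simpa using this
  let ρ : κ.ord.ToType → Cardinal.{u} := fun a => Order.succ (ν a)
  have hν0 : ∀ a, ℵ₀ ≤ ν a := fun a => (le_max_left _ _).trans (le_max_left _ _)
  have hνS : ∀ a, #S ≤ ν a := fun a => (le_max_right _ _).trans (le_max_left _ _)
  have hlong : ∀ a, (∃ s : (ρ a).ord.ToType → C, StrictMono s) ∨
      (∃ s : (ρ a).ord.ToType → C, StrictAnti s) := fun a =>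
    exists_long (hν0 a) (by rw [hC]; exact hlim _ (hνκ a))
  have hcofinal : ∀ μ < κ, ∃ a ∈ S, μ < ρ a := by
    intro μ hμ
    by_contra hcon
    push Not at hcon
    have h1 : (⋃ a : S, Iic a.1) = (Set.univ : Set κ.ord.ToType) := by
      refine eq_univ_of_forall (fun x => ?_)
      obtain ⟨a, ha, hxa⟩ := hS x
      exact mem_iUnion.2 ⟨⟨a, ha⟩, hxa⟩
    have h2 : κ ≤ #S * μ := by
      have h3 : #(Set.univ : Set κ.ord.ToType) = κ := by simp
      refine h3.symm.le.trans (le_trans (by rw [h1]) ((mk_iUnion_le_sum_mk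
        (f := fun a : S => Iic a.1)).trans ?_))
      refine (sum_le_sum _ (fun _ => μ) (fun a => ?_)).trans (by rw [sum_const'])
      have h4 : #(Iic a.1) ≤ #(Iio a.1) + 1 := by
        rw [← Iio_insert]
        exact mk_insert_le
      refine h4.trans ?_
      have h5 : #(Iio a.1) + 1 ≤ ν a.1 :=
        (add_le_add (le_max_right _ _) (one_le_aleph0.trans (hν0 a.1))).trans
          (add_eq_self (hν0 a.1)).le
      exact h5.trans ((Order.le_succ _).trans (hcon a.1 a.2))
    exact absurd h2 (not_le.2 (mul_lt_of_lt hκ.aleph0_le hSκ hμ))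
  have hmain : ∀ {C' : Type u} [LinearOrder C'], #C' = κ →
      (∀ μ < κ, ∃ a ∈ {a | a ∈ S ∧ ∃ s : (ρ a).ord.ToType → C', StrictMono s}, μ < ρ a) →
      ¬ StronglyRigid C' := by
    intro C' _ hC' hco
    obtain ⟨J, hJ1, hJ2⟩ := exists_subset_bijOn
      {a | a ∈ S ∧ ∃ s : (ρ a).ord.ToType → C', StrictMono s} ρ
    choose s hs using fun j : J => (hJ1 j.2).2
    refine not_rigid_of_sequences (J := J) (fun j => ρ j.1) ?_ ?_ ?_ s hs ?_
    · intro i j hij
      exact Subtype.ext (hJ2.injOn i.2 j.2 hij)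
    · intro j
      exact isRegular_succ (hν0 j.1)
    · intro j
      have h1 : #J ≤ #S := mk_le_mk_of_subset (fun a ha => (hJ1 ha).1)
      exact (h1.trans (hνS j.1)).trans_lt (Order.lt_succ _)
    · intro μ hμ
      rw [hC'] at hμ
      obtain ⟨a, ha, hμa⟩ := hco μ hμ
      obtain ⟨b, hb, hba⟩ := hJ2.surjOn (mem_image_of_mem ρ ha)
      exact ⟨⟨b, hb⟩, by rw [hba]; exact hμa⟩
  by_cases h1 : ∀ μ < κ, ∃ a ∈ {a | a ∈ S ∧ ∃ s : (ρ a).ord.ToType → C, StrictMono s}, μ < ρ a
  · exact hmain hC h1 hrig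
  · apply hmain (C' := Cᵒᵈ) hC ?_ hrig.dual
    push Not at h1
    obtain ⟨μ1, hμ1, h1⟩ := h1
    intro μ hμ
    obtain ⟨a, ha, hμa⟩ := hcofinal (max μ μ1) (max_lt hμ hμ1)
    rcases hlong a with h2 | h2
    · exact absurd (h1 a ⟨ha, h2⟩) (not_le.2 ((le_max_right _ _).trans_lt hμa))
    · obtain ⟨s, hs⟩ := h2
      exact ⟨a, ⟨ha, fun x => OrderDual.toDual (s x), fun x y hxy => hs hxy⟩,
        (le_max_left _ _).trans_lt hμa⟩

theorem not_rigid_of_wo {C : Type u} [LinearOrder C] (r : C → C → Prop) [IsWellOrder C r]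
    (hr : ord #C = Ordinal.type r) (hinf : ℵ₀ ≤ #C) (H : Set C) (hH : #H = #C)
    (h : ∀ x ∈ H, ∀ y ∈ H, x ≠ y → (x < y ↔ r x y)) : ¬ StronglyRigid C := by
  classical
  refine not_rigid_of_family (J := Unit) (fun _ => H) ?_ ?_ ?_
  · intro _ x hx
    have hnon : ({z | z ∈ H ∧ x < z} : Set C).Nonempty := by
      by_contra hcon
      rw [not_nonempty_iff_eq_empty] at hcon
      have hsub : H ⊆ insert x {z | r z x} := by
        intro z hz
        by_cases hzx : z = x
        · exact Or.inl hzx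
        · right
          have h1 : ¬ x < z := fun h2 => by
            have : z ∈ ({z | z ∈ H ∧ x < z} : Set C) := ⟨hz, h2⟩
            rw [hcon] at this
            exact this
          have h2 : z < x := lt_of_le_of_ne (not_lt.1 h1) hzx
          exact (h z hz x hx hzx).1 h2
      have h1 : #{z | r z x} < #C := by
        have := card_typein_lt x hr
        rwa [Ordinal.card_typein] at this
      have h2 : #H < #C := (mk_le_mk_of_subset hsub).trans_lt
        (mk_insert_le.trans_lt (add_lt_of_lt hinf h1 (one_lt_aleph0.trans_le hinf)))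
      exact absurd hH h2.ne
    have hwf : WellFounded r := IsWellFounded.wf
    have hm := hwf.min_mem _ hnon
    refine ⟨hwf.min _ hnon, hm.1, hm.2, fun z hz hxz => ?_⟩
    by_contra hcon
    have h1 := not_le.1 hcon
    exact hwf.not_lt_min _ (show z ∈ {z | z ∈ H ∧ x < z} from ⟨hz, hxz⟩)
      ((h z hz _ hm.1 h1.ne).1 h1)
  · intro i j hij
    exact absurd rfl hij
  · rw [← hH]
    exact mk_le_mk_of_subset (subset_iUnion (fun _ : Unit => H) ())

/-- The partition relation `κ → (κ)²₂`, for graphs. -/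
def Arrow (κ : Cardinal.{u}) : Prop :=
  ∀ (X : Type u), #X = κ → ∀ c : X → X → Prop, (∀ x y, c x y → c y x) →
    ∃ H : Set X, #H = κ ∧ ((∀ x ∈ H, ∀ y ∈ H, x ≠ y → c x y) ∨
      (∀ x ∈ H, ∀ y ∈ H, x ≠ y → ¬ c x y))

theorem not_mem_K_of_arrow {κ : Cardinal.{u}} (h : Arrow κ) : κ ∉ K.{u} := by
  classical
  rintro ⟨hκ, C, _, hC, hrig⟩
  obtain ⟨r, hr, hr'⟩ := exists_ord_eq C
  have hsym : ∀ x y : C, (x < y ↔ r x y) → (y < x ↔ r y x) := by
    intro x y hxy
    by_cases e : x = y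
    · subst e
      exact hxy
    have h1 : y < x ↔ ¬ x < y := ⟨fun h => lt_asymm h, fun h => lt_of_le_of_ne (not_lt.1 h)
      (Ne.symm e)⟩
    have h2 : r y x ↔ ¬ r x y := by
      constructor
      · exact fun h3 h4 => asymm_of r h3 h4
      · intro h3
        rcases trichotomous_of r x y with h4 | h4 | h4
        · exact absurd h4 h3
        · exact absurd h4 e
        · exact h4
    rw [h1, h2, hxy]
  obtain ⟨H, hH, h1 | h1⟩ := h C hC (fun x y => (x < y ↔ r x y)) hsym
  · exact not_rigid_of_wo r hr' (by rw [hC]; exact hκ) H (by rw [hC]; exact hH) h1 hrig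
  · refine @not_rigid_of_wo Cᵒᵈ _ r hr hr' (hκ.trans_eq hC.symm) H (hH.trans hC.symm) ?_
      hrig.dual
    intro x hx y hy hxy
    have h2 := h1 x hx y hy hxy
    have h3 : (@LT.lt C _ y x) ↔ ¬ (@LT.lt C _ x y) :=
      ⟨fun h => lt_asymm h, fun h => lt_of_le_of_ne (not_lt.1 h) (Ne.symm hxy)⟩
    have h4 : (@LT.lt C _ y x) ↔ r x y := by
      rw [h3]
      tauto
    exact h4

theorem not_rigid_of_nat {C : Type u} [LinearOrder C] (hC : #C = ℵ₀) (t : ℕ → C)
    (ht : StrictMono t) : ¬ StronglyRigid C := by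
  refine not_rigid_of_family (J := Unit) (fun _ => range t) ?_ ?_ ?_
  · rintro _ _ ⟨n, rfl⟩
    refine ⟨t (n + 1), mem_range_self _, ht (Nat.lt_succ_self n), ?_⟩
    rintro _ ⟨m, rfl⟩ h
    exact ht.monotone (ht.lt_iff_lt.1 h)
  · intro i j hij
    exact absurd rfl hij
  · rw [hC]
    have h1 : ℵ₀ ≤ #(range t) := by
      rw [← Cardinal.infinite_iff]
      exact (infinite_range_of_injective ht.injective).to_subtype
    exact h1.trans (mk_le_mk_of_subset (subset_iUnion (fun _ : Unit => range t) ()))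

theorem aleph0_not_mem_K : ℵ₀ ∉ K.{u} := by
  rintro ⟨_, C, _, hC, hrig⟩
  have hinf : Infinite C := by
    rw [Cardinal.infinite_iff, hC]
  let g := Infinite.natEmbedding C
  obtain ⟨φ, hφ⟩ := exists_increasing_or_nonincreasing_subseq (fun x y : C => x < y) g
  rcases hφ with h | h
  · exact not_rigid_of_nat hC (fun n => g (φ n)) (fun m n hmn => h m n hmn) hrig
  · refine not_rigid_of_nat (C := Cᵒᵈ) hC (fun n => OrderDual.toDual (g (φ n)))
      (fun m n hmn => ?_) hrig.dual
    have h1 := h m n hmn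
    have h2 : g (φ m) ≠ g (φ n) := fun e => hmn.ne (φ.injective (g.injective e))
    have h3 : g (φ n) < g (φ m) := lt_of_le_of_ne (not_lt.1 h1) (Ne.symm h2)
    exact h3

/-- A strong limit cardinal in `K` is inaccessible and not weakly compact. -/
theorem strongLimit_mem_K {κ : Cardinal.{u}} (h : κ ∈ K.{u})
    (hlim : ∀ ν < κ, (2 : Cardinal.{u}) ^ ν < κ) : κ.IsInaccessible ∧ ¬ Arrow κ := by
  have h0 : ℵ₀ ≤ κ := h.1
  have h1 : ℵ₀ < κ := by
    refine lt_of_le_of_ne h0 ?_
    rintro rfl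
    exact aleph0_not_mem_K h
  have h2 : κ.IsRegular := by
    rcases isRegular_or_isSingular h0 with h3 | h3
    · exact h3
    · exact absurd h (not_mem_K_of_singular h3 hlim)
  exact ⟨⟨h1, h2.2, fun x hx => hlim x hx⟩, fun h3 => not_mem_K_of_arrow h3 h⟩

end Pool.Agent.TH108.SR
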