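import Pool.Agent.TH108.WPBasic
import Pool.Agent.Helper6.ZA.Hol3

/-!
The algebraic heart: if the `i`-th computation halts then the `i`-th test element is trivial.
-/

set_option autoImplicit false

namespace Pool.Agent.TH108

open Pool.Agent.Helper6.ZA (NV IsPrm IsCvx leQ vl cv)

variable {K : Type} [LGroup K]

theorem le_of_le_mul_disj {z u w : K} (hz : 1 ≤ z) (hu : 1 ≤ u) (hw : 1 ≤ w) (h : z ≤ u * w)
    (hd : z ⊓ u = 1) : z ≤ w := by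
  have h1 : (u * w) ⊓ z ≤ (u ⊓ z) * (w ⊓ z) := Pool.Agent.Helper6.ZA.mul_inf_le_aux hu hw hz
  rw [inf_comm u z, hd, one_mul, inf_eq_right.mpr h] at h1
  exact h1.trans inf_le_left

theorem disj_pow {x y : K} (hx : 1 ≤ x) (hy : 1 ≤ y) (h : x ⊓ y = 1) (n : ℕ) :
    x ⊓ y ^ n = 1 := by
  induction n with
  | zero => rw [pow_zero]; exact inf_eq_right.mpr hx
  | succ n ih =>
    have hn : 1 ≤ y ^ n := Pool.Agent.Helper6.ZA.one_le_pow' hy n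
    have h1 : (y ^ n * y) ⊓ x ≤ (y ^ n ⊓ x) * (y ⊓ x) :=
      Pool.Agent.Helper6.ZA.mul_inf_le_aux hn hy hx
    rw [inf_comm _ x, inf_comm _ x, inf_comm _ x, ih, h, one_mul, ← pow_succ] at h1
    exact le_antisymm h1 (le_inf hx (Pool.Agent.Helper6.ZA.one_le_pow' hy _))

/-- Case B: valid in every `ℓ`-group. -/
theorem caseB {x y b e f k : K} {N : ℕ} (hx : 1 ≤ x) (hy : 1 ≤ y) (hxy : x ⊓ y = 1)
    (hc : x * y = y * x) (hf : 1 ≤ f) (he : 1 ≤ e) (hfe : f ⊓ e = 1)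
    (hb : b ≤ f * (x * y) ^ N) (hk : 1 ≤ k) :
    (x ⊓ (b * k⁻¹)) ⊓ ((k * y * k⁻¹) ⊓ e) ≤ 1 := by
  set s := (x ⊓ (b * k⁻¹)) ⊓ ((k * y * k⁻¹) ⊓ e) with hs
  have h1 : s ≤ x := inf_le_left.trans inf_le_left
  have h2 : s ≤ b * k⁻¹ := inf_le_left.trans inf_le_right
  have h3 : s ≤ k * y * k⁻¹ := inf_le_right.trans inf_le_left
  have h4 : s ≤ e := inf_le_right.trans inf_le_right
  set z := s ⊔ 1 with hz
  have hz1 : 1 ≤ z := le_sup_right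
  have z1 : z ≤ x := sup_le h1 hx
  have z4 : z ≤ e := sup_le h4 he
  have hky : 1 ≤ k * y * k⁻¹ := by
    have : k * 1 * k⁻¹ ≤ k * y * k⁻¹ := by gcongr
    simpa using this
  have z3 : z ≤ k * y * k⁻¹ := sup_le h3 hky
  have z2 : z ≤ f * ((x * y) ^ N * k⁻¹ ⊔ 1) := by
    apply sup_le
    · calc s ≤ b * k⁻¹ := h2
        _ ≤ f * (x * y) ^ N * k⁻¹ := by gcongr
        _ = f * ((x * y) ^ N * k⁻¹) := mul_assoc _ _ _
        _ ≤ _ := mul_le_mul' le_rfl le_sup_left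
    · calc (1:K) = 1 * 1 := (one_mul 1).symm
        _ ≤ _ := mul_le_mul' hf le_sup_right
  have z5 : z ≤ (x * y) ^ N * k⁻¹ ⊔ 1 := by
    apply le_of_le_mul_disj hz1 hf le_sup_right z2
    apply le_antisymm _ (le_inf hz1 hf)
    calc z ⊓ f ≤ e ⊓ f := inf_le_inf_right _ z4
      _ = 1 := by rw [inf_comm, hfe]
  have hcomm : (x * y) ^ N = y ^ N * x ^ N := by
    rw [hc]
    exact (show Commute y x from hc.symm).mul_pow N
  have hyN : 1 ≤ y ^ N := Pool.Agent.Helper6.ZA.one_le_pow' hy N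
  have hxN : 1 ≤ x ^ N := Pool.Agent.Helper6.ZA.one_le_pow' hx N
  have z6 : z ≤ y ^ N * (x ^ N * k⁻¹ ⊔ 1) := by
    refine z5.trans (sup_le ?_ ?_)
    · rw [hcomm, mul_assoc]
      exact mul_le_mul' le_rfl le_sup_left
    · calc (1:K) = 1 * 1 := (one_mul 1).symm
        _ ≤ _ := mul_le_mul' hyN le_sup_right
  have z7 : z ≤ x ^ N * k⁻¹ ⊔ 1 := by
    apply le_of_le_mul_disj hz1 hyN le_sup_right z6
    apply le_antisymm _ (le_inf hz1 hyN)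
    calc z ⊓ y ^ N ≤ x ⊓ y ^ N := inf_le_inf_right _ z1
      _ = 1 := disj_pow hx hy hxy N
  have z8 : z ≤ k * x ^ N * k⁻¹ := by
    refine z7.trans (sup_le ?_ ?_)
    · rw [mul_assoc]
      exact le_mul_of_one_le_left' hk
    · have : k * 1 * k⁻¹ ≤ k * x ^ N * k⁻¹ := by gcongr
      simpa using this
  have z9 : k⁻¹ * z * k ≤ y ⊓ x ^ N := by
    apply le_inf
    · have : k⁻¹ * z * k ≤ k⁻¹ * (k * y * k⁻¹) * k := by gcongr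
      refine this.trans (le_of_eq ?_)
      group
    · have : k⁻¹ * z * k ≤ k⁻¹ * (k * x ^ N * k⁻¹) * k := by gcongr
      refine this.trans (le_of_eq ?_)
      group
  rw [disj_pow hy hx (by rw [inf_comm]; exact hxy) N] at z9
  have z10 : z ≤ 1 := by
    have : k * (k⁻¹ * z * k) * k⁻¹ ≤ k * 1 * k⁻¹ := by gcongr
    have e1 : k * (k⁻¹ * z * k) * k⁻¹ = z := by group
    rw [e1] at this
    simpa using this
  exact le_sup_left.trans z10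

/-- Case A: valid in normal-valued `ℓ`-groups. -/
theorem caseA (law : NV K) {a b e f h k : K} {N : ℕ} (ha : 1 ≤ a) (he : 1 ≤ e)
    (hfe : f ⊓ e = 1) (hb : b ≤ f * a ^ N) (hh : 1 ≤ h) (hk : ∀ m : ℕ, h ^ m ≤ k) :
    ((h * a⁻¹) ⊓ (b * k⁻¹)) ⊓ e ≤ 1 := by
  set s := ((h * a⁻¹) ⊓ (b * k⁻¹)) ⊓ e with hs
  have h1 : s ≤ h * a⁻¹ := inf_le_left.trans inf_le_left
  have h2 : s ≤ b * k⁻¹ := inf_le_left.trans inf_le_right
  have h3 : s ≤ e := inf_le_right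
  by_contra hcon
  have hne : s ⊔ 1 ≠ 1 := fun h0 => hcon (h0 ▸ le_sup_left)
  obtain ⟨Q, hQ, hn⟩ := Pool.Agent.Helper6.ZA.exists_prime_pos (g := s ⊔ 1) le_sup_right hne
  have hQc := hQ.toIsCvx
  -- `e ∉ Q`, hence `f ∈ Q`
  have heQ : e ∉ Q := fun h0 => hn (hQc.conv _ h0 _ le_sup_right (sup_le h3 he))
  have hfQ : f ∈ Q := (hQ.inf_mem (by rw [hfe]; exact Q.one_mem)).resolve_right heQ
  -- `¬ s Q ≤ Q`
  have hsQ : ¬ leQ Q s 1 := by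
    intro h0
    apply hn
    simpa [leQ] using h0
  -- `¬ h a⁻¹ Q ≤ Q`
  have hA : ¬ leQ Q (h * a⁻¹) 1 := fun h0 =>
    hsQ (Pool.Agent.Helper6.ZA.leQ_trans hQc (Pool.Agent.Helper6.ZA.leQ_of_le hQc h1) h0)
  have hB : ¬ leQ Q (b * k⁻¹) 1 := fun h0 =>
    hsQ (Pool.Agent.Helper6.ZA.leQ_trans hQc (Pool.Agent.Helper6.ZA.leQ_of_le hQc h2) h0)
  -- `h⁻¹ Q < a⁻¹ Q`
  have hA' : ¬ leQ Q a⁻¹ h⁻¹ := by
    intro h0
    apply hA
    have := (Pool.Agent.Helper6.ZA.leQ_mul_left (Q := Q) h a⁻¹ h⁻¹).mpr h0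
    rwa [mul_inv_cancel] at this
  -- `b⁻¹ Q < k⁻¹ Q`
  have hB' : ¬ leQ Q k⁻¹ b⁻¹ := by
    intro h0
    apply hB
    have := (Pool.Agent.Helper6.ZA.leQ_mul_left (Q := Q) b k⁻¹ b⁻¹).mpr h0
    rwa [mul_inv_cancel] at this
  -- `a⁻ᴺ Q ≤ b⁻¹ Q`
  have hC : leQ Q (a ^ N)⁻¹ b⁻¹ := by
    refine (Pool.Agent.Helper6.ZA.leQ_iff hQc).mpr ⟨f, hfQ, ?_⟩
    have h0 : (f * a ^ N)⁻¹ ≤ b⁻¹ := inv_le_inv_iff.mpr hb
    rw [mul_inv_rev] at h0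
    calc (a ^ N)⁻¹ = (a ^ N)⁻¹ * f⁻¹ * f := by group
      _ ≤ b⁻¹ * f := by gcongr
  -- `a⁻ᴺ Q ≤ h⁻ᵐ Q`
  have hD : ∀ m : ℕ, leQ Q (a ^ N)⁻¹ (h ^ m)⁻¹ := by
    intro m
    have h4 : leQ Q b⁻¹ k⁻¹ := (Pool.Agent.Helper6.ZA.leQ_total hQ _ _).resolve_left hB'
    have h5 : leQ Q k⁻¹ (h ^ m)⁻¹ :=
      Pool.Agent.Helper6.ZA.leQ_of_le hQc (inv_le_inv_iff.mpr (hk m))
    exact Pool.Agent.Helper6.ZA.leQ_trans hQc hC (Pool.Agent.Helper6.ZA.leQ_trans hQc h4 h5)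
  -- `h ∉ Q`
  have hhQ : h ∉ Q := by
    intro h0
    apply hA'
    have h4 : leQ Q a⁻¹ 1 := Pool.Agent.Helper6.ZA.leQ_of_le hQc (inv_le_one'.mpr ha)
    refine Pool.Agent.Helper6.ZA.leQ_trans hQc h4 ?_
    apply Pool.Agent.Helper6.ZA.leQ_of_mem hQc
    simpa using h0
  -- pass to the value of `h`
  have hM := Pool.Agent.Helper6.ZA.vl_prm hQ hhQ
  have hQM := Pool.Agent.Helper6.ZA.le_vl hQ hhQ
  have hMc := hM.toIsCvx
  have hC' : IsCvx (cv Q h) := Pool.Agent.Helper6.ZA.cv_cvx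
  have haC : a ∈ cv Q h := by
    have h4 : leQ Q h⁻¹ a⁻¹ := (Pool.Agent.Helper6.ZA.leQ_total hQ _ _).resolve_left hA'
    obtain ⟨q, hq, h5⟩ := (Pool.Agent.Helper6.ZA.leQ_iff hQc).mp h4
    have h6 : a ≤ q * h := by
      have : a * (h⁻¹) * h ≤ a * (a⁻¹ * q) * h := by gcongr
      have e1 : a * (h⁻¹) * h = a := by group
      have e2 : a * (a⁻¹ * q) * h = q * h := by group
      rwa [e1, e2] at this
    exact hC'.conv _ ((cv Q h).mul_mem (Pool.Agent.Helper6.ZA.le_cv hq)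
      Pool.Agent.Helper6.ZA.self_mem_cv) _ ha h6
  obtain ⟨m, q, hq, hq1, h7⟩ := Pool.Agent.Helper6.ZA.nv_arch' law hQ hhQ hh
    (Pool.Agent.Helper6.ZA.not_mem_vl hQ hhQ) ((cv Q h).pow_mem haC N)
  -- `h⁻ᵐ M ≤ a⁻ᴺ M`
  have h8 : leQ (vl Q h) (h ^ m)⁻¹ (a ^ N)⁻¹ := by
    refine (Pool.Agent.Helper6.ZA.leQ_iff hMc).mpr ⟨q, hq, ?_⟩
    have h0 : (q * h ^ m)⁻¹ ≤ (a ^ N)⁻¹ := inv_le_inv_iff.mpr h7
    rw [mul_inv_rev] at h0
    calc (h ^ m)⁻¹ = (h ^ m)⁻¹ * q⁻¹ * q := by group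
      _ ≤ (a ^ N)⁻¹ * q := by gcongr
  have h9 : leQ (vl Q h) (h ^ m)⁻¹ (h ^ (m + 1))⁻¹ :=
    Pool.Agent.Helper6.ZA.leQ_trans hMc h8 (Pool.Agent.Helper6.ZA.leQ_mono hQM (hD (m + 1)))
  have h10 : leQ (vl Q h) h 1 := by
    have := (Pool.Agent.Helper6.ZA.leQ_mul_left (Q := vl Q h) (h ^ (m + 1)) _ _).mpr h9
    rw [mul_inv_cancel, pow_succ'] at this
    simpa using this
  apply Pool.Agent.Helper6.ZA.not_mem_vl hQ hhQ
  have : h ⊔ 1 ∈ vl Q h := by simpa [leQ] using h10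
  rwa [sup_eq_left.mpr hh] at this

end Pool.Agent.TH108
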