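import Pool.Agent.TH108.WPDefs

/-!
Basic facts: homomorphisms, term quotients, existence of free products.
-/

set_option autoImplicit false

namespace Pool.Agent.TH108

/-! ### Basic facts -/

section basic

instance (priority := 100) LGroup.mulLeftMono' {G : Type} [LGroup G] : MulLeftMono G :=
  ⟨fun c _ _ h => LGroup.le_mul_left _ _ c h⟩

instance (priority := 100) LGroup.mulRightMono' {G : Type} [LGroup G] : MulRightMono G :=
  ⟨fun c _ _ h => LGroup.le_mul_right _ _ c h⟩

variable {G H K : Type} [LGroup G] [LGroup H] [LGroup K]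

theorem IsLHom.map_one {f : G → H} (hf : IsLHom f) : f 1 = 1 := by
  have h := hf.map_mul 1 1
  rw [mul_one] at h
  exact (mul_eq_left.mp h.symm)

theorem IsLHom.map_inv {f : G → H} (hf : IsLHom f) (a : G) : f a⁻¹ = (f a)⁻¹ := by
  apply eq_inv_of_mul_eq_one_left
  rw [← hf.map_mul, inv_mul_cancel, hf.map_one]

theorem IsLHom.map_pow {f : G → H} (hf : IsLHom f) (a : G) (n : ℕ) : f (a ^ n) = f a ^ n := by
  induction n with
  | zero => rw [pow_zero, pow_zero, hf.map_one]
  | succ n ih => rw [pow_succ, pow_succ, hf.map_mul, ih]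

theorem IsLHom.mono {f : G → H} (hf : IsLHom f) {a b : G} (h : a ≤ b) : f a ≤ f b := by
  rw [← sup_eq_right] at h ⊢
  rw [← hf.map_sup, h]

theorem IsLHom.comp {f : H → K} {g : G → H} (hf : IsLHom f) (hg : IsLHom g) :
    IsLHom (fun a => f (g a)) :=
  ⟨fun a b => by rw [hg.map_mul, hf.map_mul], fun a b => by rw [hg.map_sup, hf.map_sup],
    fun a b => by rw [hg.map_inf, hf.map_inf]⟩

theorem IsLHom.eval {X : Type} {f : G → H} (hf : IsLHom f) (g : X → G) (t : LTm X) :
    t.eval (fun x => f (g x)) = f (t.eval g) := by
  induction t with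
  | var x => rfl
  | one => exact hf.map_one.symm
  | mul s t hs ht => simp only [LTm.eval, hs, ht, hf.map_mul]
  | inv s hs => simp only [LTm.eval, hs, hf.map_inv]
  | sup s t hs ht => simp only [LTm.eval, hs, ht, hf.map_sup]
  | inf s t hs ht => simp only [LTm.eval, hs, ht, hf.map_inf]

theorem IsLHom.id' : IsLHom (fun a : G => a) := ⟨fun _ _ => rfl, fun _ _ => rfl, fun _ _ => rfl⟩

/-- Substitution. -/
def LTm.subst {X Y : Type} (σ : X → LTm Y) : LTm X → LTm Y
  | var x => σ x
  | one => one
  | mul s t => mul (s.subst σ) (t.subst σ)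
  | inv s => inv (s.subst σ)
  | sup s t => sup (s.subst σ) (t.subst σ)
  | inf s t => inf (s.subst σ) (t.subst σ)

theorem LTm.eval_subst {X Y : Type} (σ : X → LTm Y) (v : Y → G) (t : LTm X) :
    (t.subst σ).eval v = t.eval (fun x => (σ x).eval v) := by
  induction t with
  | var x => rfl
  | one => rfl
  | mul s t hs ht => simp only [LTm.eval, LTm.subst, hs, ht]
  | inv s hs => simp only [LTm.eval, LTm.subst, hs]
  | sup s t hs ht => simp only [LTm.eval, LTm.subst, hs, ht]
  | inf s t hs ht => simp only [LTm.eval, LTm.subst, hs, ht]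

/-- an injective `ℓ`-homomorphism reflects membership -/
theorem InVariety.of_inj {E : Set (LTm ℕ × LTm ℕ)} (hH : InVariety E H) {f : G → H}
    (hf : IsLHom f) (hinj : Function.Injective f) : InVariety E G := by
  intro e he v
  apply hinj
  rw [← hf.eval, ← hf.eval]
  exact hH e he _

end basic

/-! ### Semantic quotients -/

section SQ

variable {X : Type} (C : ∀ (K : Type) [LGroup K], (X → K) → Prop)

/-- The term algebra modulo the equations valid in all models of the class `C`. -/
def sqSetoid : Setoid (LTm X) where
  r s t := ∀ (K : Type) [LGroup K] (v : X → K), C K v → s.eval v = t.eval v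
  iseqv :=
    { refl := fun _ _ _ _ _ => rfl
      symm := fun h K _ v hv => (h K v hv).symm
      trans := fun h h' K _ v hv => (h K v hv).trans (h' K v hv) }

/-- The term algebra modulo the equations valid in all models of the class `C`. -/
def SQ : Type := Quotient (sqSetoid C)

namespace SQ

variable {C}

/-- the class of a term -/
def mk (t : LTm X) : SQ C := Quotient.mk (sqSetoid C) t

theorem ind {p : SQ C → Prop} (h : ∀ t, p (mk t)) (a : SQ C) : p a := Quotient.ind h a

theorem mk_eq {s t : LTm X} : (mk s : SQ C) = mk t ↔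
    ∀ (K : Type) [LGroup K] (v : X → K), C K v → s.eval v = t.eval v :=
  Quotient.eq (r := sqSetoid C)

instance : Mul (SQ C) := ⟨fun a b => Quotient.liftOn₂ a b (fun s t => mk (s.mul t))
  (fun _ _ _ _ h h' => mk_eq.mpr fun K _ v hv => by
    have h1 := h K v hv
    have h2 := h' K v hv
    simp only [LTm.eval, h1, h2])⟩

instance : Max (SQ C) := ⟨fun a b => Quotient.liftOn₂ a b (fun s t => mk (s.sup t))
  (fun _ _ _ _ h h' => mk_eq.mpr fun K _ v hv => by
    have h1 := h K v hv
    have h2 := h' K v hv
    simp only [LTm.eval, h1, h2])⟩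

instance : Min (SQ C) := ⟨fun a b => Quotient.liftOn₂ a b (fun s t => mk (s.inf t))
  (fun _ _ _ _ h h' => mk_eq.mpr fun K _ v hv => by
    have h1 := h K v hv
    have h2 := h' K v hv
    simp only [LTm.eval, h1, h2])⟩

instance : Inv (SQ C) := ⟨fun a => Quotient.liftOn a (fun s => mk (s.inv))
  (fun _ _ h => mk_eq.mpr fun K _ v hv => by
    have h1 := h K v hv
    simp only [LTm.eval, h1])⟩

instance : One (SQ C) := ⟨mk LTm.one⟩

theorem mk_mul (s t : LTm X) : (mk (s.mul t) : SQ C) = mk s * mk t := rfl
theorem mk_sup (s t : LTm X) : (mk (s.sup t) : SQ C) = mk s ⊔ mk t := rfl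
theorem mk_inf (s t : LTm X) : (mk (s.inf t) : SQ C) = mk s ⊓ mk t := rfl
theorem mk_inv (s : LTm X) : (mk s.inv : SQ C) = (mk s)⁻¹ := rfl
theorem mk_one : (mk LTm.one : SQ C) = 1 := rfl

instance : Group (SQ C) where
  mul_assoc a b c := by
    induction a using ind with | _ a
    induction b using ind with | _ b
    induction c using ind with | _ c
    simp only [← mk_mul]
    exact mk_eq.mpr fun K _ v _ => by simp only [LTm.eval, mul_assoc]
  one_mul a := by
    induction a using ind with | _ a
    exact mk_eq.mpr fun K _ v _ => by simp only [LTm.eval, one_mul]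
  mul_one a := by
    induction a using ind with | _ a
    exact mk_eq.mpr fun K _ v _ => by simp only [LTm.eval, mul_one]
  inv_mul_cancel a := by
    induction a using ind with | _ a
    exact mk_eq.mpr fun K _ v _ => by simp only [LTm.eval, inv_mul_cancel]

instance : Lattice (SQ C) := Lattice.mk'
  (fun a b => by
    induction a using ind with | _ a
    induction b using ind with | _ b
    exact mk_eq.mpr fun K _ v _ => by simp only [LTm.eval]; exact sup_comm _ _)
  (fun a b c => by
    induction a using ind with | _ a
    induction b using ind with | _ b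
    induction c using ind with | _ c
    exact mk_eq.mpr fun K _ v _ => by simp only [LTm.eval]; exact sup_assoc _ _ _)
  (fun a b => by
    induction a using ind with | _ a
    induction b using ind with | _ b
    exact mk_eq.mpr fun K _ v _ => by simp only [LTm.eval]; exact inf_comm _ _)
  (fun a b c => by
    induction a using ind with | _ a
    induction b using ind with | _ b
    induction c using ind with | _ c
    exact mk_eq.mpr fun K _ v _ => by simp only [LTm.eval]; exact inf_assoc _ _ _)
  (fun a b => by
    induction a using ind with | _ a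
    induction b using ind with | _ b
    exact mk_eq.mpr fun K _ v _ => by simp only [LTm.eval]; exact sup_inf_self)
  (fun a b => by
    induction a using ind with | _ a
    induction b using ind with | _ b
    exact mk_eq.mpr fun K _ v _ => by simp only [LTm.eval]; exact inf_sup_self)

instance : LGroup (SQ C) where
  le_mul_left a b c h := by
    induction a using ind with | _ a
    induction b using ind with | _ b
    induction c using ind with | _ c
    rw [← sup_eq_right] at h ⊢
    have h' : (mk (a.sup b) : SQ C) = mk b := h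
    rw [mk_eq] at h'
    have : (mk ((c.mul a).sup (c.mul b)) : SQ C) = mk (c.mul b) := mk_eq.mpr fun K _ v hv => by
      have h1 := h' K v hv
      simp only [LTm.eval] at h1 ⊢
      rw [← mul_sup, h1]
    exact this
  le_mul_right a b c h := by
    induction a using ind with | _ a
    induction b using ind with | _ b
    induction c using ind with | _ c
    rw [← sup_eq_right] at h ⊢
    have h' : (mk (a.sup b) : SQ C) = mk b := h
    rw [mk_eq] at h'
    have : (mk ((a.mul c).sup (b.mul c)) : SQ C) = mk (b.mul c) := mk_eq.mpr fun K _ v hv => by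
      have h1 := h' K v hv
      simp only [LTm.eval] at h1 ⊢
      rw [← sup_mul, h1]
    exact this

/-- the canonical generators -/
def gen (x : X) : SQ C := mk (LTm.var x)

theorem eval_gen (t : LTm X) : t.eval (gen : X → SQ C) = mk t := by
  induction t with
  | var x => rfl
  | one => rfl
  | mul s t hs ht => simp only [LTm.eval, hs, ht, mk_mul]
  | inv s hs => simp only [LTm.eval, hs, mk_inv]
  | sup s t hs ht => simp only [LTm.eval, hs, ht, mk_sup]
  | inf s t hs ht => simp only [LTm.eval, hs, ht, mk_inf]

theorem generates : Generates (gen : X → SQ C) := by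
  intro a
  induction a using ind with | _ a
  exact ⟨a, eval_gen a⟩

/-- evaluation of classes of terms -/
def lift {K : Type} [LGroup K] (v : X → K)
    (hv : ∀ s t : LTm X, (mk s : SQ C) = mk t → s.eval v = t.eval v) : SQ C → K :=
  fun a => Quotient.liftOn a (fun t => t.eval v) (fun s t h => hv s t (Quotient.sound h))

theorem lift_mk {K : Type} [LGroup K] (v : X → K)
    (hv : ∀ s t : LTm X, (mk s : SQ C) = mk t → s.eval v = t.eval v) (t : LTm X) :
    lift v hv (mk t) = t.eval v := rfl

theorem lift_hom {K : Type} [LGroup K] (v : X → K)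
    (hv : ∀ s t : LTm X, (mk s : SQ C) = mk t → s.eval v = t.eval v) : IsLHom (lift v hv) where
  map_mul a b := by
    induction a using ind with | _ a
    induction b using ind with | _ b
    rfl
  map_sup a b := by
    induction a using ind with | _ a
    induction b using ind with | _ b
    rfl
  map_inf a b := by
    induction a using ind with | _ a
    induction b using ind with | _ b
    rfl

theorem of_model {K : Type} [LGroup K] {v : X → K} (hv : C K v) (s t : LTm X)
    (h : (mk s : SQ C) = mk t) : s.eval v = t.eval v := mk_eq.mp h K v hv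

theorem inVariety {E : Set (LTm ℕ × LTm ℕ)}
    (h : ∀ (K : Type) [LGroup K] (v : X → K), C K v → InVariety E K) : InVariety E (SQ C) := by
  intro e he v
  choose r hr using fun n => (generates (C := C)) (v n)
  have h1 : v = fun n => (r n).eval (gen : X → SQ C) := funext fun n => (hr n).symm
  rw [h1, ← LTm.eval_subst, ← LTm.eval_subst, eval_gen, eval_gen, mk_eq]
  intro K _ w hw
  rw [LTm.eval_subst, LTm.eval_subst]
  exact h K w hw e he _

end SQ

end SQ

/-- Existence of free products. -/
theorem exists_freeProduct (E : Set (LTm ℕ × LTm ℕ)) (G H : Type) [LGroup G] [LGroup H] :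
    ∃ (P : Type) (_ : LGroup P) (i : G → P) (j : H → P), IsFreeProduct E i j := by
  let C : ∀ (K : Type) [LGroup K], (G ⊕ H → K) → Prop := fun K _ v =>
    InVariety E K ∧ IsLHom (fun a => v (Sum.inl a)) ∧ IsLHom (fun a => v (Sum.inr a))
  refine ⟨SQ C, inferInstance, fun a => SQ.gen (Sum.inl a), fun a => SQ.gen (Sum.inr a), ?_⟩
  refine ⟨SQ.inVariety fun K _ v hv => hv.1, ⟨?_, ?_, ?_⟩, ⟨?_, ?_, ?_⟩, ?_⟩
  · intro a b
    exact SQ.mk_eq.mpr fun K _ v hv => hv.2.1.map_mul a b
  · intro a b
    exact SQ.mk_eq.mpr fun K _ v hv => hv.2.1.map_sup a b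
  · intro a b
    exact SQ.mk_eq.mpr fun K _ v hv => hv.2.1.map_inf a b
  · intro a b
    exact SQ.mk_eq.mpr fun K _ v hv => hv.2.2.map_mul a b
  · intro a b
    exact SQ.mk_eq.mpr fun K _ v hv => hv.2.2.map_sup a b
  · intro a b
    exact SQ.mk_eq.mpr fun K _ v hv => hv.2.2.map_inf a b
  · intro K _ hK α β hα hβ
    have hC : C K (Sum.elim α β) := ⟨hK, hα, hβ⟩
    refine ⟨SQ.lift (Sum.elim α β) (SQ.of_model hC), ⟨SQ.lift_hom _ _, fun a => rfl,
      fun b => rfl⟩, ?_⟩
    rintro γ ⟨hγ, h1, h2⟩
    funext a
    obtain ⟨t, rfl⟩ := SQ.generates a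
    rw [← hγ.eval, SQ.eval_gen, SQ.lift_mk]
    congr 1
    funext x
    rcases x with x | x
    · exact h1 x
    · exact h2 x

end Pool.Agent.TH108
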