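import Pool.Agent.TH108.WPGroups

/-!
Computability: the word problems of the two `ℓ`-groups are soluble, and the words of the test
terms are computable.
-/

set_option autoImplicit false

namespace Pool.Agent.TH108

/-! ### A stack machine -/

section machine

variable {X : Type}

/-- sum -/
def addP (a b : ℕ × ℕ) : ℕ × ℕ := (a.1 + b.1, a.2 + b.2)

/-- join -/
def supP (a b : ℕ × ℕ) : ℕ × ℕ := if a.1 + b.2 ≤ b.1 + a.2 then b else a

/-- meet -/
def infP (a b : ℕ × ℕ) : ℕ × ℕ := if a.1 + b.2 ≤ b.1 + a.2 then a else b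

/-- one step of the stack machine -/
def step (ρ : X → ℕ) (tok : X ⊕ Fin 5) (st : List (ℕ × ℕ)) : List (ℕ × ℕ) :=
  Sum.casesOn tok (fun x => (ρ x, 0) :: st) (fun c =>
    if c = 0 then (0, 0) :: st
    else if c = 1 then addP st.headI st.tail.headI :: st.tail.tail
    else if c = 2 then (st.headI.2, st.headI.1) :: st.tail
    else if c = 3 then supP st.headI st.tail.headI :: st.tail.tail
    else infP st.headI st.tail.headI :: st.tail.tail)

/-- the value of a term as a pair of natural numbers -/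
def valP (ρ : X → ℕ) : LTm X → ℕ × ℕ
  | .var x => (ρ x, 0)
  | .one => (0, 0)
  | .mul s t => addP (valP ρ s) (valP ρ t)
  | .inv s => ((valP ρ s).2, (valP ρ s).1)
  | .sup s t => supP (valP ρ s) (valP ρ t)
  | .inf s t => infP (valP ρ s) (valP ρ t)

theorem foldr_word (ρ : X → ℕ) (t : LTm X) (st : List (ℕ × ℕ)) :
    t.word.foldr (step ρ) st = valP ρ t :: st := by
  induction t generalizing st with
  | var x => rfl
  | one => rfl
  | mul s t hs ht =>
    rw [LTm.word, List.foldr_cons, List.foldr_append, ht, hs]; rfl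
  | inv s hs =>
    rw [LTm.word, List.foldr_cons, hs]; rfl
  | sup s t hs ht =>
    rw [LTm.word, List.foldr_cons, List.foldr_append, ht, hs]; rfl
  | inf s t hs ht =>
    rw [LTm.word, List.foldr_cons, List.foldr_append, ht, hs]; rfl

theorem valP_val (ρ : X → ℕ) (t : LTm X) :
    (((valP ρ t).1 : ℤ) - ((valP ρ t).2 : ℤ)) = t.val (fun x => (ρ x : ℤ)) := by
  induction t with
  | var x => simp [valP, LTm.val]
  | one => simp [valP, LTm.val]
  | mul s t hs ht =>
    rw [LTm.val, ← hs, ← ht]
    simp only [valP, addP]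
    push_cast
    ring
  | inv s hs =>
    rw [LTm.val, ← hs]
    simp only [valP]
    ring
  | sup s t hs ht =>
    rw [LTm.val, ← hs, ← ht]
    simp only [valP, supP]
    split_ifs with h
    · rw [max_eq_right]; omega
    · rw [max_eq_left]; omega
  | inf s t hs ht =>
    rw [LTm.val, ← hs, ← ht]
    simp only [valP, infP]
    split_ifs with h
    · rw [min_eq_left]; omega
    · rw [min_eq_right]; omega

/-- the test whether the value of the word is zero -/
def isZ (ρ : X → ℕ) (w : List (X ⊕ Fin 5)) : Prop :=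
  (w.foldr (step ρ) []).headI.1 = (w.foldr (step ρ) []).headI.2

theorem isZ_word (ρ : X → ℕ) (t : LTm X) :
    isZ ρ t.word ↔ t.val (fun x => (ρ x : ℤ)) = 0 := by
  unfold isZ
  rw [foldr_word, ← valP_val]
  simp only [List.headI_cons]
  omega

open Primrec in
theorem step_primrec {A : Type} [Primcodable A] [Primcodable X] {ρ : A → X → ℕ}
    (hρ : Primrec₂ ρ) :
    Primrec₂ (fun (a : A) (p : (X ⊕ Fin 5) × List (ℕ × ℕ)) => step (ρ a) p.1 p.2) := by
  have hadd : Primrec₂ addP :=
    Primrec.pair (Primrec.nat_add.comp (fst.comp fst) (fst.comp snd))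
      (Primrec.nat_add.comp (snd.comp fst) (snd.comp snd))
  have hc : PrimrecRel (fun a b : ℕ × ℕ => a.1 + b.2 ≤ b.1 + a.2) :=
    Primrec.nat_le.comp₂ (Primrec.nat_add.comp (fst.comp fst) (snd.comp snd))
      (Primrec.nat_add.comp (fst.comp snd) (snd.comp fst))
  have hsup : Primrec₂ supP := Primrec.ite hc snd fst
  have hinf : Primrec₂ infP := Primrec.ite hc fst snd
  unfold step
  apply Primrec.sumCasesOn
  · exact fst.comp snd
  · exact list_cons.comp₂ (Primrec.pair (hρ.comp (fst.comp fst) snd) (const 0)) 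
      (snd.comp (snd.comp fst))
  · have hst : Primrec (fun q : (A × ((X ⊕ Fin 5) × List (ℕ × ℕ))) × Fin 5 => q.1.2.2) :=
      snd.comp (snd.comp fst)
    have h1 := list_headI.comp hst
    have h2 := list_headI.comp (list_tail.comp hst)
    have h3 := list_tail.comp (list_tail.comp hst)
    have hcc : ∀ c : Fin 5, PrimrecPred
        (fun q : (A × ((X ⊕ Fin 5) × List (ℕ × ℕ))) × Fin 5 => q.2 = c) :=
      fun c => Primrec.eq.comp snd (const c)
    refine Primrec.ite (hcc 0) (list_cons.comp (const (0, 0)) hst) ?_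
    refine Primrec.ite (hcc 1) (list_cons.comp (hadd.comp h1 h2) h3) ?_
    refine Primrec.ite (hcc 2) (list_cons.comp (Primrec.pair (snd.comp h1) (fst.comp h1))
      (list_tail.comp hst)) ?_
    exact Primrec.ite (hcc 3) (list_cons.comp (hsup.comp h1 h2) h3)
      (list_cons.comp (hinf.comp h1 h2) h3)

open Primrec in
theorem isZ_primrec {A : Type} [Primcodable A] [Primcodable X] {ρ : A → X → ℕ}
    (hρ : Primrec₂ ρ) : PrimrecRel (fun (a : A) (w : List (X ⊕ Fin 5)) => isZ (ρ a) w) := by
  have h1 : Primrec₂ (fun (a : A) (w : List (X ⊕ Fin 5)) => w.foldr (step (ρ a)) []) :=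
    list_foldr (h := fun (q : A × List (X ⊕ Fin 5)) p => step (ρ q.1) p.1 p.2) snd (const [])
      ((step_primrec hρ).comp₂ (fst.comp fst) snd)
  have h2 := list_headI.comp h1
  exact Primrec.eq.comp (fst.comp h2) (snd.comp h2)

end machine

/-! ### Linear forms -/

section form

variable {X A B : Type} [Fintype X] [DecidableEq X] [AddCommGroup A] [LinearOrder A]
  [IsOrderedAddMonoid A] [AddCommGroup B] [LinearOrder B] [IsOrderedAddMonoid B]

theorem exists_form (ρ : X → A) (τ : X → B) (L : ℕ)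
    (hag : ∀ c : X → ℤ, ∑ x, |c x| ≤ L → (0 ≤ ∑ x, c x • ρ x ↔ 0 ≤ ∑ x, c x • τ x))
    (t : LTm X) (ht : t.word.length ≤ L) :
    ∃ c : X → ℤ, ∑ x, |c x| ≤ t.word.length ∧ t.val ρ = ∑ x, c x • ρ x ∧
      t.val τ = ∑ x, c x • τ x := by
  have hsub : ∀ (c d : X → ℤ) (a b : ℕ), ∑ x, |c x| ≤ (a:ℤ) → ∑ x, |d x| ≤ (b:ℤ) →
      ∑ x, |c x - d x| ≤ (a:ℤ) + b := by
    intro c d a b h1 h2
    calc ∑ x, |c x - d x| ≤ ∑ x, (|c x| + |d x|) :=
          Finset.sum_le_sum fun x _ => abs_sub _ _
      _ = ∑ x, |c x| + ∑ x, |d x| := Finset.sum_add_distrib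
      _ ≤ _ := add_le_add h1 h2
  have hlin : ∀ (c d : X → ℤ) {M : Type} [AddCommGroup M] (σ : X → M),
      ∑ x, (c x - d x) • σ x = ∑ x, c x • σ x - ∑ x, d x • σ x := by
    intro c d M _ σ
    rw [← Finset.sum_sub_distrib]
    exact Finset.sum_congr rfl fun x _ => sub_smul _ _ _
  induction t with
  | var y =>
    refine ⟨Pi.single y 1, ?_, ?_, ?_⟩
    · rw [Finset.sum_eq_single y]
      · simp [LTm.word]
      · intro x _ hx; simp [hx]
      · intro h; exact absurd (Finset.mem_univ y) h
    · rw [Finset.sum_eq_single y]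
      · simp [LTm.val]
      · intro x _ hx; simp [hx]
      · intro h; exact absurd (Finset.mem_univ y) h
    · rw [Finset.sum_eq_single y]
      · simp [LTm.val]
      · intro x _ hx; simp [hx]
      · intro h; exact absurd (Finset.mem_univ y) h
  | one => exact ⟨0, by simp, by simp [LTm.val], by simp [LTm.val]⟩
  | mul s t hs ht' =>
    simp only [LTm.word, List.length_cons, List.length_append] at ht
    obtain ⟨c, h1, h2, h3⟩ := hs (by omega)
    obtain ⟨d, h4, h5, h6⟩ := ht' (by omega)
    refine ⟨fun x => c x + d x, ?_, ?_, ?_⟩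
    · simp only [LTm.word, List.length_cons, List.length_append]
      push_cast
      calc ∑ x, |c x + d x| ≤ ∑ x, (|c x| + |d x|) :=
            Finset.sum_le_sum fun x _ => abs_add_le _ _
        _ = ∑ x, |c x| + ∑ x, |d x| := Finset.sum_add_distrib
        _ ≤ _ := by linarith
    · rw [LTm.val, h2, h5, ← Finset.sum_add_distrib]
      exact Finset.sum_congr rfl fun x _ => (add_smul _ _ _).symm
    · rw [LTm.val, h3, h6, ← Finset.sum_add_distrib]
      exact Finset.sum_congr rfl fun x _ => (add_smul _ _ _).symm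
  | inv s hs =>
    simp only [LTm.word, List.length_cons] at ht
    obtain ⟨c, h1, h2, h3⟩ := hs (by omega)
    refine ⟨fun x => - c x, ?_, ?_, ?_⟩
    · simp only [LTm.word, List.length_cons, abs_neg]
      push_cast
      linarith
    · rw [LTm.val, h2, ← Finset.sum_neg_distrib]
      exact Finset.sum_congr rfl fun x _ => (neg_smul _ _).symm
    · rw [LTm.val, h3, ← Finset.sum_neg_distrib]
      exact Finset.sum_congr rfl fun x _ => (neg_smul _ _).symm
  | sup s t hs ht' =>
    simp only [LTm.word, List.length_cons, List.length_append] at ht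
    obtain ⟨c, h1, h2, h3⟩ := hs (by omega)
    obtain ⟨d, h4, h5, h6⟩ := ht' (by omega)
    have hd := hag (fun x => c x - d x) ((hsub c d _ _ h1 h4).trans (by exact_mod_cast (by omega)))
    rw [hlin, hlin, sub_nonneg, sub_nonneg, ← h2, ← h3, ← h5, ← h6] at hd
    by_cases hle : t.val ρ ≤ s.val ρ
    · refine ⟨c, h1.trans ?_, ?_, ?_⟩
      · simp only [LTm.word, List.length_cons, List.length_append]
        push_cast
        linarith [Int.natCast_nonneg t.word.length]
      · rw [LTm.val, max_eq_left hle, h2]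
      · rw [LTm.val, max_eq_left (hd.mp hle), h3]
    · have hle' : ¬ t.val τ ≤ s.val τ := fun h => hle (hd.mpr h)
      refine ⟨d, h4.trans ?_, ?_, ?_⟩
      · simp only [LTm.word, List.length_cons, List.length_append]
        push_cast
        linarith [Int.natCast_nonneg s.word.length]
      · rw [LTm.val, max_eq_right (not_le.mp hle).le, h5]
      · rw [LTm.val, max_eq_right (not_le.mp hle').le, h6]
  | inf s t hs ht' =>
    simp only [LTm.word, List.length_cons, List.length_append] at ht
    obtain ⟨c, h1, h2, h3⟩ := hs (by omega)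
    obtain ⟨d, h4, h5, h6⟩ := ht' (by omega)
    have hd := hag (fun x => c x - d x) ((hsub c d _ _ h1 h4).trans (by exact_mod_cast (by omega)))
    rw [hlin, hlin, sub_nonneg, sub_nonneg, ← h2, ← h3, ← h5, ← h6] at hd
    by_cases hle : t.val ρ ≤ s.val ρ
    · refine ⟨d, h4.trans ?_, ?_, ?_⟩
      · simp only [LTm.word, List.length_cons, List.length_append]
        push_cast
        linarith [Int.natCast_nonneg s.word.length]
      · rw [LTm.val, min_eq_right hle, h5]
      · rw [LTm.val, min_eq_right (hd.mp hle), h6]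
    · have hle' : ¬ t.val τ ≤ s.val τ := fun h => hle (hd.mpr h)
      refine ⟨c, h1.trans ?_, ?_, ?_⟩
      · simp only [LTm.word, List.length_cons, List.length_append]
        push_cast
        linarith [Int.natCast_nonneg t.word.length]
      · rw [LTm.val, min_eq_left (not_le.mp hle).le, h2]
      · rw [LTm.val, min_eq_left (not_le.mp hle').le, h3]

theorem zero_iff (ρ : X → A) (τ : X → B) (L : ℕ)
    (hag : ∀ c : X → ℤ, ∑ x, |c x| ≤ L → (0 ≤ ∑ x, c x • ρ x ↔ 0 ≤ ∑ x, c x • τ x))
    (t : LTm X) (ht : t.word.length ≤ L) : t.val ρ = 0 ↔ t.val τ = 0 := by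
  obtain ⟨c, h1, h2, h3⟩ := exists_form ρ τ L hag t ht
  have h4 := hag c (h1.trans (by exact_mod_cast ht))
  have h5 := hag (fun x => - c x) (by simp only [abs_neg]; exact h1.trans (by exact_mod_cast ht))
  simp only [neg_smul, Finset.sum_neg_distrib, Left.nonneg_neg_iff] at h5
  rw [h2, h3]
  constructor
  · intro h
    rw [h] at h4 h5
    exact le_antisymm (h5.mp le_rfl) (h4.mp le_rfl)
  · intro h
    rw [h] at h4 h5
    exact le_antisymm (h5.mpr le_rfl) (h4.mpr le_rfl)

end form

theorem sign_iff {u c M : ℤ} (h : |u| < M) : 0 ≤ u + c * M ↔ (0 < c ∨ (c = 0 ∧ 0 ≤ u)) := by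
  have h1 := abs_lt.mp h
  have hM : 0 < M := lt_of_le_of_lt (abs_nonneg u) h
  constructor
  · intro h2
    rcases lt_trichotomy c 0 with h3 | h3 | h3
    · exfalso
      have : c * M ≤ (-1) * M := mul_le_mul_of_nonneg_right (by omega) hM.le
      linarith
    · right
      refine ⟨h3, ?_⟩
      rw [h3] at h2
      linarith
    · exact Or.inl h3
  · rintro (h2 | ⟨h2, h3⟩)
    · have : 1 * M ≤ c * M := mul_le_mul_of_nonneg_right (by omega) hM.le
      linarith
    · rw [h2]; linarith

/-! ### The first group -/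

theorem sum_env (c : Fin 4 → ℤ) (i m : ℕ) (σ : Bool) :
    ∑ x, c x • env i m σ x =
      ((bif σ then c 0 else c 1) + c 2 * i) + c 3 * (i * i + 1 + m) := by
  rw [Fin.sum_univ_four]
  cases σ <;> simp [env, envN]

theorem abs_bnd {c : Fin 4 → ℤ} {L : ℕ} (h : ∑ x, |c x| ≤ (L:ℤ)) (σ : Bool) :
    |(bif σ then c 0 else c 1)| ≤ (L:ℤ) ∧ |c 2| ≤ (L:ℤ) := by
  rw [Fin.sum_univ_four] at h
  have h0 := abs_nonneg (c 0)
  have h1 := abs_nonneg (c 1)
  have h2 := abs_nonneg (c 2)
  have h3 := abs_nonneg (c 3)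
  cases σ
  · exact ⟨by simp only [cond_false]; linarith, by linarith⟩
  · exact ⟨by simp only [cond_true]; linarith, by linarith⟩

theorem abs_bnd2 {c : Fin 4 → ℤ} {L : ℕ} (h : ∑ x, |c x| ≤ (L:ℤ)) (σ : Bool) (i : ℕ) :
    |(bif σ then c 0 else c 1) + c 2 * i| ≤ (L:ℤ) * (i + 1) := by
  obtain ⟨h1, h2⟩ := abs_bnd h σ
  calc |(bif σ then c 0 else c 1) + c 2 * i| ≤ |(bif σ then c 0 else c 1)| + |c 2 * i| :=
        abs_add_le _ _
    _ = |(bif σ then c 0 else c 1)| + |c 2| * i := by rw [abs_mul, Nat.abs_cast]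
    _ ≤ L + L * i := add_le_add h1 (mul_le_mul_of_nonneg_right h2 (Int.natCast_nonneg i))
    _ = L * (i + 1) := by ring

theorem agree_same {L i m m' : ℕ} (hm : L * (i + 1) ≤ m) (hm' : L * (i + 1) ≤ m') (σ : Bool)
    (c : Fin 4 → ℤ) (h : ∑ x, |c x| ≤ (L:ℤ)) :
    (0 ≤ ∑ x, c x • env i m σ x ↔ 0 ≤ ∑ x, c x • env i m' σ x) := by
  have hb := abs_bnd2 h σ i
  have key : ∀ m : ℕ, L * (i + 1) ≤ m →
      |(bif σ then c 0 else c 1) + c 2 * i| < ((i:ℤ) * i + 1 + m) := by
    intro m hm
    have h1 : ((L:ℤ) * (i + 1)) ≤ m := by exact_mod_cast hm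
    have h2 : (0:ℤ) ≤ (i:ℤ) * i := by positivity
    linarith
  rw [sum_env, sum_env, sign_iff (key m hm), sign_iff (key m' hm')]

theorem agree_far {L i m i' m' : ℕ} (hi : L + 1 ≤ i) (hi' : L + 1 ≤ i') (σ : Bool)
    (c : Fin 4 → ℤ) (h : ∑ x, |c x| ≤ (L:ℤ)) :
    (0 ≤ ∑ x, c x • env i m σ x ↔ 0 ≤ ∑ x, c x • env i' m' σ x) := by
  have key : ∀ i m : ℕ, L + 1 ≤ i →
      |(bif σ then c 0 else c 1) + c 2 * i| < ((i:ℤ) * i + 1 + m) := by
    intro i m hi
    have hb := abs_bnd2 h σ i
    have h1 : ((L:ℤ) + 1) ≤ i := by exact_mod_cast hi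
    have h2 : (L:ℤ) * (i + 1) ≤ (i:ℤ) * i := by
      have h3 : (0:ℤ) ≤ i := Int.natCast_nonneg i
      nlinarith
    have h4 : (0:ℤ) ≤ m := Int.natCast_nonneg m
    linarith
  have key2 : ∀ i : ℕ, L + 1 ≤ i → |(bif σ then c 0 else c 1)| < (i : ℤ) := by
    intro i hi
    have h1 : ((L:ℤ) + 1) ≤ i := by exact_mod_cast hi
    linarith [(abs_bnd h σ).1]
  rw [sum_env, sum_env, sign_iff (key i m hi), sign_iff (key i' m' hi'),
    sign_iff (key2 i hi), sign_iff (key2 i' hi')]

theorem ent_zero (i : ℕ) : ent i 0 = false := by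
  simp [ent, Nat.Partrec.Code.evaln]

/-- the decision procedure for the first group -/
def decG (w : List (Fin 4 ⊕ Fin 5)) : Prop :=
  ∀ i ∈ List.range (w.length + 2), ∀ m ∈ List.range (w.length * (w.length + 2) + 1),
    ent i m = false → (isZ (envN i m true) w ∧ isZ (envN i m false) w)

theorem decG_iff (t : LTm (Fin 4)) : decG t.word ↔ t.eval gg = 1 := by
  rw [GG_one]
  set L := t.word.length with hL
  constructor
  · intro h
    have h' : ∀ i m : ℕ, i < L + 2 → m < L * (L + 2) + 1 → ent i m = false →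
        ∀ σ, t.val (env i m σ) = 0 := by
      intro i m hi hm he σ
      obtain ⟨h1, h2⟩ := h i (List.mem_range.mpr hi) m (List.mem_range.mpr hm) he
      rw [isZ_word] at h1 h2
      cases σ
      · exact h2
      · exact h1
    intro i m σ he
    by_cases hi : i < L + 2
    · by_cases hm : m < L * (L + 2) + 1
      · exact h' i m hi hm he σ
      · have h1 : L * (i + 1) ≤ L * (L + 2) := Nat.mul_le_mul_left L (by omega)
        rw [zero_iff (env i m σ) (env i (L * (L + 2)) σ) L
          (agree_same (by omega) (by omega) σ) t le_rfl]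
        apply h' i _ hi (by omega)
        by_contra hcon
        rw [Bool.not_eq_false] at hcon
        have := ent_mono (m' := m) (by omega) hcon
        rw [he] at this
        exact Bool.noConfusion this
    · rw [zero_iff (env i m σ) (env (L + 1) 0 σ) L (agree_far (by omega) (by omega) σ) t le_rfl]
      exact h' (L + 1) 0 (by omega) (by omega) (ent_zero _) σ
  · intro h i _ m _ he
    rw [isZ_word, isZ_word]
    exact ⟨h i m true he, h i m false he⟩

open Primrec in
theorem envN_primrec : Primrec₂ (fun (p : ℕ × ℕ × Bool) (x : Fin 4) => envN p.1 p.2.1 p.2.2 x) := by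
  have h : Primrec₂ (fun (p : ℕ × ℕ × Bool) (x : Fin 4) =>
      if x = 0 then (bif p.2.2 then 1 else 0) else if x = 1 then (bif p.2.2 then 0 else 1)
      else if x = 2 then p.1 else p.1 * p.1 + 1 + p.2.1) := by
    refine Primrec.ite (Primrec.eq.comp snd (const 0))
      (Primrec.cond (snd.comp (snd.comp fst)) (const 1) (const 0)) ?_
    refine Primrec.ite (Primrec.eq.comp snd (const 1))
      (Primrec.cond (snd.comp (snd.comp fst)) (const 0) (const 1)) ?_
    refine Primrec.ite (Primrec.eq.comp snd (const 2)) (fst.comp fst) ?_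
    exact nat_add.comp (nat_add.comp (nat_mul.comp (fst.comp fst) (fst.comp fst)) (const 1))
      (fst.comp (snd.comp fst))
  refine h.of_eq fun p x => ?_
  obtain ⟨i, m, σ⟩ := p
  fin_cases x <;> rfl

open Primrec in
theorem ent_primrec : PrimrecRel (fun i m : ℕ => ent i m = false) := by
  have h1 : Primrec (fun p : ℕ × ℕ => ent p.1 p.2) := by
    unfold ent
    exact option_isSome.comp (Nat.Partrec.Code.primrec_evaln.comp
      (Primrec.pair (Primrec.pair snd ((Primrec.ofNat Nat.Partrec.Code).comp fst)) (const 0)))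
  exact Primrec.eq.comp h1 (const false)

open Primrec in
theorem decG_primrec : PrimrecPred decG := by
  have h1 : PrimrecRel (fun (m : ℕ) (q : ℕ × List (Fin 4 ⊕ Fin 5)) =>
      ent q.1 m = false → (isZ (envN q.1 m true) q.2 ∧ isZ (envN q.1 m false) q.2)) := by
    have hA : ∀ σ : Bool, PrimrecPred (fun p : ℕ × (ℕ × List (Fin 4 ⊕ Fin 5)) =>
        isZ (envN p.2.1 p.1 σ) p.2.2) := by
      intro σ
      exact (isZ_primrec envN_primrec).comp
        (Primrec.pair (fst.comp snd) (Primrec.pair fst (const σ))) (snd.comp snd)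
    have hB : PrimrecPred (fun p : ℕ × (ℕ × List (Fin 4 ⊕ Fin 5)) => ent p.2.1 p.1 = false) :=
      ent_primrec.comp (fst.comp snd) fst
    refine ((hB.not).or ((hA true).and (hA false))).of_eq fun p => ?_
    tauto
  have h2 : PrimrecPred (fun q : ℕ × List (Fin 4 ⊕ Fin 5) =>
      ∀ m ∈ List.range (q.2.length * (q.2.length + 2) + 1),
        (ent q.1 m = false → (isZ (envN q.1 m true) q.2 ∧ isZ (envN q.1 m false) q.2))) := by
    have hl : Primrec (fun q : ℕ × List (Fin 4 ⊕ Fin 5) => q.2.length) := list_length.comp snd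
    exact (PrimrecRel.forall_mem_list h1).comp
      (list_range.comp (succ.comp (nat_mul.comp hl (nat_add.comp hl (const 2))))) Primrec.id
  have h3 : PrimrecRel (fun (i : ℕ) (w : List (Fin 4 ⊕ Fin 5)) =>
      ∀ m ∈ List.range (w.length * (w.length + 2) + 1),
        (ent i m = false → (isZ (envN i m true) w ∧ isZ (envN i m false) w))) := h2
  exact (PrimrecRel.forall_mem_list h3).comp
    (list_range.comp (nat_add.comp list_length (const 2))) Primrec.id

theorem GG_soluble : SolubleWP gg := by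
  classical
  obtain ⟨_, h⟩ := decG_primrec
  refine ⟨fun w => decide (decG w), h.to_comp, fun t => ?_⟩
  rw [decide_eq_true_iff, decG_iff]

/-! ### The second group -/

/-- values of the generators of the second group -/
def envH (L : ℕ) : Fin 2 → ℕ := ![1, L + 1]

theorem agree_H (L : ℕ) (c : Fin 2 → ℤ) (h : ∑ x, |c x| ≤ (L:ℤ)) :
    (0 ≤ ∑ x, c x • (![zz 0 1, zz 1 0] : Fin 2 → ZZ) x ↔
      0 ≤ ∑ x, c x • ((envH L x : ℕ) : ℤ)) := by
  rw [Fin.sum_univ_two] at *
  rw [Fin.sum_univ_two]
  have h1 : |c 0| < (L:ℤ) + 1 := by linarith [abs_nonneg (c 1)]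
  have h2 : c 0 • ((envH L 0 : ℕ) : ℤ) + c 1 • ((envH L 1 : ℕ) : ℤ) =
      c 0 + c 1 * ((L:ℤ) + 1) := by simp [envH]
  rw [h2, sign_iff h1, Prod.Lex.le_iff]
  simp [zz]
  tauto

theorem isZ_H (t : LTm (Fin 2)) : isZ (envH t.word.length) t.word ↔ t.eval hh = 1 := by
  have h1 : hh = fun x => Multiplicative.ofAdd ((![zz 0 1, zz 1 0] : Fin 2 → ZZ) x) := by
    funext x
    fin_cases x <;> rfl
  rw [isZ_word, h1, LTm.eval_mult, ← zero_iff _ _ t.word.length (agree_H t.word.length) t le_rfl]
  exact Iff.rfl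

open Primrec in
theorem HH_soluble : SolubleWP hh := by
  classical
  have henv : Primrec₂ (fun (L : ℕ) (x : Fin 2) => envH L x) := by
    have h : Primrec₂ (fun (L : ℕ) (x : Fin 2) => if x = 0 then 1 else L + 1) :=
      Primrec.ite (Primrec.eq.comp snd (const 0)) (const 1) (succ.comp fst)
    refine h.of_eq fun L x => ?_
    fin_cases x <;> rfl
  have h2 : PrimrecPred (fun w : List (Fin 2 ⊕ Fin 5) => isZ (envH w.length) w) :=
    (isZ_primrec henv).comp list_length Primrec.id
  obtain ⟨_, h⟩ := h2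
  refine ⟨fun w => decide (isZ (envH w.length) w), h.to_comp, fun t => ?_⟩
  rw [decide_eq_true_iff, isZ_H]

/-! ### Words of the test terms -/

section words

open Primrec

/-- a primitive recursive family of terms -/
def PW {X : Type} [Primcodable X] (t : ℕ → LTm X) : Prop := Primrec (fun i => (t i).word)

variable {X : Type} [Primcodable X]

theorem PW.const (t : LTm X) : PW (fun _ => t) := Primrec.const _

theorem PW.mul {s t : ℕ → LTm X} (hs : PW s) (ht : PW t) : PW (fun i => LTm.mul (s i) (t i)) :=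
  list_cons.comp (Primrec.const _) (list_append.comp hs ht)

theorem PW.sup {s t : ℕ → LTm X} (hs : PW s) (ht : PW t) : PW (fun i => LTm.sup (s i) (t i)) :=
  list_cons.comp (Primrec.const _) (list_append.comp hs ht)

theorem PW.inf {s t : ℕ → LTm X} (hs : PW s) (ht : PW t) : PW (fun i => LTm.inf (s i) (t i)) :=
  list_cons.comp (Primrec.const _) (list_append.comp hs ht)

theorem PW.inv {s : ℕ → LTm X} (hs : PW s) : PW (fun i => LTm.inv (s i)) :=
  list_cons.comp (Primrec.const _) hs

theorem PW.pw (t : LTm X) : PW (fun i => t.pw i) := by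
  have h : Primrec (Nat.rec (motive := fun _ => List (X ⊕ Fin 5)) [Sum.inr 0]
      (fun _ l => Sum.inr 1 :: (t.word ++ l))) :=
    nat_rec₁ _ (list_cons.comp (Primrec.const _)
      (list_append.comp (Primrec.const _) snd))
  refine h.of_eq fun i => ?_
  induction i with
  | zero => rfl
  | succ i ih =>
    show _ = Sum.inr 1 :: (t.word ++ (t.pw i).word)
    rw [← ih]

theorem PW.bumpT (x y v : LTm X) : PW (fun i => bumpT x y v i) :=
  ((((PW.const x).mul (PW.const y)).mul (PW.const v)).mul (PW.pw (x.mul y)).inv).inf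
    ((((PW.const x).mul (PW.const y)).mul (PW.const v).inv).mul (PW.pw (x.mul y)))
      |>.sup (PW.const LTm.one)

theorem PW.termA : PW termA :=
  ((((PW.const _).mul ((PW.const _).mul (PW.const _)).inv).inf
    ((PW.const _).mul (PW.const _).inv)).inf (PW.bumpT _ _ _)).sup (PW.const _)

theorem PW.termB : PW termB :=
  ((((PW.const _)).inf ((PW.const _).mul (PW.const _).inv)).inf
    ((((PW.const _).mul (PW.const _)).mul (PW.const _).inv).inf (PW.bumpT _ _ _))).sup
      (PW.const _)

end words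

/-- If the test terms detect halting, then the word problem is not soluble. -/
theorem not_soluble_of_test {X P : Type} [Primcodable X] [LGroup P] (g : X → P)
    (T : ℕ → LTm X) (hT : PW T) (h1 : ∀ n s : ℕ, ent n s = true → (T n).eval g = 1)
    (h2 : ∀ n : ℕ, (∀ s, ent n s = false) → (T n).eval g ≠ 1) : ¬ SolubleWP g := by
  rintro ⟨f, hf, hft⟩
  apply ComputablePred.halting_problem 0
  rw [ComputablePred.computable_iff]
  refine ⟨fun c => f (T (Encodable.encode c)).word,
    hf.comp ((show Primrec (fun i => (T i).word) from hT).to_comp.comp Computable.encode), ?_⟩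
  funext c
  apply propext
  rw [hft]
  constructor
  · intro hd
    obtain ⟨x, hx⟩ := Part.dom_iff_mem.mp hd
    obtain ⟨k, hk⟩ := Nat.Partrec.Code.evaln_complete.mp hx
    apply h1 _ k
    unfold ent
    rw [Denumerable.ofNat_encode, Option.isSome_iff_exists]
    exact ⟨x, hk⟩
  · intro h
    by_contra hcon
    apply h2 (Encodable.encode c) _ h
    intro s
    by_contra hs
    rw [Bool.not_eq_false] at hs
    unfold ent at hs
    rw [Denumerable.ofNat_encode, Option.isSome_iff_exists] at hs
    obtain ⟨x, hx⟩ := hs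
    exact hcon (Part.dom_iff_mem.mpr ⟨x, Nat.Partrec.Code.evaln_sound hx⟩)

end Pool.Agent.TH108
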