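import Mathlib

/-!
Definitions for the word problem in free products in varieties of lattice-ordered groups.
-/

set_option autoImplicit false

namespace Pool.Agent.TH108

/-- An `ℓ`-group: a group carrying a lattice order which is invariant under left and right
multiplication. -/
class LGroup (G : Type) extends Group G, Lattice G where
  /-- invariance under left multiplication -/
  le_mul_left : ∀ a b c : G, a ≤ b → c * a ≤ c * b
  /-- invariance under right multiplication -/
  le_mul_right : ∀ a b c : G, a ≤ b → a * c ≤ b * c

/-- `ℓ`-group terms over a set `X`: formal expressions built from the elements of `X` and `1`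
using multiplication, inversion, join and meet. -/
inductive LTm (X : Type) : Type
  | var : X → LTm X
  | one : LTm X
  | mul : LTm X → LTm X → LTm X
  | inv : LTm X → LTm X
  | sup : LTm X → LTm X → LTm X
  | inf : LTm X → LTm X → LTm X

namespace LTm

/-- The value of a term in an `ℓ`-group `G` when the elements `x` of `X` have the values
`g x`. -/
def eval {X G : Type} [LGroup G] (g : X → G) : LTm X → G
  | var x => g x
  | one => 1
  | mul s t => s.eval g * t.eval g
  | inv s => (s.eval g)⁻¹
  | sup s t => s.eval g ⊔ t.eval g
  | inf s t => s.eval g ⊓ t.eval g

/-- The term written down as a word in Polish notation. The alphabet consists of the elements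
of `X` and five further letters, which stand for `1`, multiplication, inversion, join, meet. -/
def word {X : Type} : LTm X → List (X ⊕ Fin 5)
  | var x => [Sum.inl x]
  | one => [Sum.inr 0]
  | mul s t => Sum.inr 1 :: (s.word ++ t.word)
  | inv s => Sum.inr 2 :: s.word
  | sup s t => Sum.inr 3 :: (s.word ++ t.word)
  | inf s t => Sum.inr 4 :: (s.word ++ t.word)

end LTm

/-- `g : X → G` is a generating family of the `ℓ`-group `G`: every element of `G` is the value
of a term. -/
def Generates {X G : Type} [LGroup G] (g : X → G) : Prop :=
  ∀ a : G, ∃ t : LTm X, t.eval g = a

/-- The word problem of the `ℓ`-group `G` with respect to the family `g : X → G` is soluble: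
there is an algorithm (a computable function on words) which decides, for every term `t`
over `X`, whether `t = 1` holds in `G`. -/
def SolubleWP {X G : Type} [Primcodable X] [LGroup G] (g : X → G) : Prop :=
  ∃ f : List (X ⊕ Fin 5) → Bool, Computable f ∧ ∀ t : LTm X, f t.word = true ↔ t.eval g = 1

/-- The `ℓ`-group `G` belongs to the variety defined by the set `E` of identities; an identity
`(s, t)` is read as `s = t`, its variables are indexed by the natural numbers. -/
def InVariety (E : Set (LTm ℕ × LTm ℕ)) (G : Type) [LGroup G] : Prop :=
  ∀ e ∈ E, ∀ v : ℕ → G, e.1.eval v = e.2.eval v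

/-- The variety defined by the set `E` of identities is trivial: its members are the one-element
`ℓ`-groups. -/
def TrivialVariety (E : Set (LTm ℕ × LTm ℕ)) : Prop :=
  ∀ (G : Type) [LGroup G], InVariety E G → ∀ a : G, a = 1

/-- `ℓ`-homomorphisms. -/
structure IsLHom {G H : Type} [LGroup G] [LGroup H] (f : G → H) : Prop where
  map_mul : ∀ a b : G, f (a * b) = f a * f b
  map_sup : ∀ a b : G, f (a ⊔ b) = f a ⊔ f b
  map_inf : ∀ a b : G, f (a ⊓ b) = f a ⊓ f b

/-- `P` with the maps `i : G → P` and `j : H → P` is the `V`-free product of `G` and `H`, for
the variety `V` defined by `E`: it is the coproduct of `G` and `H` in the category of members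
of `V` with `ℓ`-homomorphisms. -/
structure IsFreeProduct (E : Set (LTm ℕ × LTm ℕ)) {G H P : Type} [LGroup G] [LGroup H]
    [LGroup P] (i : G → P) (j : H → P) : Prop where
  mem : InVariety E P
  left : IsLHom i
  right : IsLHom j
  univ : ∀ (K : Type) [LGroup K], InVariety E K → ∀ (α : G → K) (β : H → K),
    IsLHom α → IsLHom β →
      ∃! γ : P → K, IsLHom γ ∧ (∀ a, γ (i a) = α a) ∧ (∀ b, γ (j b) = β b)

/-- For the variety `V` defined by `E`, the `V`-free product preserves solubility of the word
problem: whenever `G` and `H` are members of `V` with recursively listed generating families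
`g` and `h` (indexed by types `X` and `Y` with a primitive recursive coding, such as a finite
type or `ℕ`) and with soluble word problems, the `V`-free product of `G` and `H` has soluble
word problem with respect to the disjoint union of the two generating families. -/
def PreservesSolubility (E : Set (LTm ℕ × LTm ℕ)) : Prop :=
  ∀ (X Y G H : Type) [Primcodable X] [Primcodable Y] [LGroup G] [LGroup H]
    (g : X → G) (h : Y → H), InVariety E G → InVariety E H → Generates g → Generates h →
    SolubleWP g → SolubleWP h →
      ∀ (P : Type) [LGroup P] (i : G → P) (j : H → P), IsFreeProduct E i j →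
        SolubleWP (Sum.elim (fun x => i (g x)) (fun y => j (h y)))

end Pool.Agent.TH108
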