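import Pool.Agent.TH108.WPModels

/-!
The two `ℓ`-groups of the construction, the test terms, and their values in free products.
-/

set_option autoImplicit false

namespace Pool.Agent.TH108

open Filter

/-- `ent i m` is true if the `i`-th program, started on the input `0`, halts within `m` steps. -/
def ent (i m : ℕ) : Bool :=
  (Nat.Partrec.Code.evaln m (Denumerable.ofNat Nat.Partrec.Code i) 0).isSome

theorem ent_mono {i m m' : ℕ} (h : m ≤ m') (h1 : ent i m = true) : ent i m' = true := by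
  unfold ent at *
  rw [Option.isSome_iff_exists] at *
  obtain ⟨x, hx⟩ := h1
  exact ⟨x, Nat.Partrec.Code.evaln_mono h hx⟩

/-- the values of the four generators -/
def envN (i m : ℕ) (s : Bool) : Fin 4 → ℕ :=
  ![bif s then 1 else 0, bif s then 0 else 1, i, i * i + 1 + m]

/-- the values of the four generators, as integers -/
def env (i m : ℕ) (s : Bool) : Fin 4 → ℤ := fun x => (envN i m s x : ℤ)

/-- The class of models defining the first group. -/
def CG : ∀ (K : Type) [LGroup K], (Fin 4 → K) → Prop := fun K _ v =>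
  ∃ (i m : ℕ) (s : Bool), ent i m = false ∧ ∃ φ : Multiplicative ℤ → K, IsLHom φ ∧
    ∀ x, v x = φ (Multiplicative.ofAdd (env i m s x))

/-- The first group: the `ℓ`-subgroup of a power of the integers generated by four
elements. -/
abbrev GG : Type := SQ CG

/-- the generators of the first group -/
abbrev gg : Fin 4 → GG := SQ.gen

theorem GG_eq {s t : LTm (Fin 4)} : (SQ.mk s : GG) = SQ.mk t ↔
    ∀ (i m : ℕ) (σ : Bool), ent i m = false → s.val (env i m σ) = t.val (env i m σ) := by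
  rw [SQ.mk_eq]
  constructor
  · intro h i m σ hm
    have h1 := h (Multiplicative ℤ) (fun x => Multiplicative.ofAdd (env i m σ x))
      ⟨i, m, σ, hm, fun a => a, IsLHom.id', fun _ => rfl⟩
    rw [LTm.eval_mult, LTm.eval_mult] at h1
    exact Multiplicative.ofAdd.injective h1
  · rintro h K _ v ⟨i, m, σ, hm, φ, hφ, hv⟩
    have hv' : v = fun x => φ (Multiplicative.ofAdd (env i m σ x)) := funext hv
    rw [hv', hφ.eval, hφ.eval, LTm.eval_mult, LTm.eval_mult, h i m σ hm]

theorem GG_one {t : LTm (Fin 4)} : t.eval gg = 1 ↔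
    ∀ (i m : ℕ) (σ : Bool), ent i m = false → t.val (env i m σ) = 0 := by
  rw [SQ.eval_gen, ← SQ.mk_one, GG_eq]
  rfl

theorem GG_comm (a b : GG) : a * b = b * a := by
  obtain ⟨s, rfl⟩ := SQ.generates a
  obtain ⟨t, rfl⟩ := SQ.generates b
  rw [SQ.eval_gen, SQ.eval_gen, ← SQ.mk_mul, ← SQ.mk_mul, GG_eq]
  intro i m σ _
  simp only [LTm.val]
  exact add_comm _ _

theorem GG_inVariety {E : Set (LTm ℕ × LTm ℕ)} (h : InVariety E (Multiplicative ℤ)) :
    InVariety E GG := by
  intro e he v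
  choose r hr using fun n => (SQ.generates (C := CG)) (v n)
  have h1 : v = fun n => (r n).eval gg := funext fun n => (hr n).symm
  rw [h1, ← LTm.eval_subst, ← LTm.eval_subst, SQ.eval_gen, SQ.eval_gen, GG_eq]
  intro i m σ _
  apply Multiplicative.ofAdd.injective
  rw [← LTm.eval_mult, ← LTm.eval_mult, LTm.eval_subst, LTm.eval_subst]
  exact h e he _

/-- the generators of the second group -/
def hh : Fin 2 → Multiplicative ZZ :=
  ![Multiplicative.ofAdd (zz 0 1), Multiplicative.ofAdd (zz 1 0)]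

/-! ### Powers as terms -/

/-- powers -/
def LTm.pw {X : Type} (t : LTm X) : ℕ → LTm X
  | 0 => LTm.one
  | n + 1 => LTm.mul t (LTm.pw t n)

theorem LTm.eval_pw {X K : Type} [LGroup K] (v : X → K) (t : LTm X) (n : ℕ) :
    (t.pw n).eval v = t.eval v ^ n := by
  induction n with
  | zero => rw [pow_zero]; rfl
  | succ n ih => rw [pow_succ', ← ih]; rfl

theorem hh_generates : Generates hh := by
  have hz : ∀ (t : LTm (Fin 2)) (n : ℤ), ∃ s : LTm (Fin 2), s.eval hh = t.eval hh ^ n := by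
    intro t n
    obtain ⟨k, rfl | rfl⟩ := n.eq_nat_or_neg
    · exact ⟨t.pw k, by rw [LTm.eval_pw, zpow_natCast]⟩
    · exact ⟨(t.pw k).inv, by rw [zpow_neg, zpow_natCast, ← LTm.eval_pw]; rfl⟩
  intro a
  obtain ⟨s, hs⟩ := hz (LTm.var 1) (ofLex (Multiplicative.toAdd a)).1
  obtain ⟨t, ht⟩ := hz (LTm.var 0) (ofLex (Multiplicative.toAdd a)).2
  refine ⟨s.mul t, ?_⟩
  simp only [LTm.eval, hs, ht]
  apply Multiplicative.toAdd.injective
  rw [toAdd_mul, toAdd_zpow, toAdd_zpow]
  apply ofLex.injective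
  simp only [hh, zz]
  ext
  · simp
  · simp

/-! ### Test elements -/

/-- the bump at the index `i` -/
def bump {K : Type} [LGroup K] (x y v : K) (i : ℕ) : K :=
  (((x * y) * v) * ((x * y) ^ i)⁻¹ ⊓ ((x * y) * v⁻¹) * (x * y) ^ i) ⊔ 1

/-- the test element, case A -/
def testA {K : Type} [LGroup K] (x y v b h k : K) (i : ℕ) : K :=
  (((h * (x * y)⁻¹) ⊓ (b * k⁻¹)) ⊓ bump x y v i) ⊔ 1

/-- the test element, case B -/
def testB {K : Type} [LGroup K] (x y v b k : K) (i : ℕ) : K :=
  ((x ⊓ (b * k⁻¹)) ⊓ ((k * y * k⁻¹) ⊓ bump x y v i)) ⊔ 1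

theorem map_bump {K L : Type} [LGroup K] [LGroup L] {f : K → L} (hf : IsLHom f) (x y v : K)
    (i : ℕ) : f (bump x y v i) = bump (f x) (f y) (f v) i := by
  simp only [bump, hf.map_sup, hf.map_inf, hf.map_mul, hf.map_inv, hf.map_pow, hf.map_one]

/-- the bump as a term -/
def bumpT {X : Type} (x y v : LTm X) (i : ℕ) : LTm X :=
  LTm.sup (LTm.inf (LTm.mul (LTm.mul (LTm.mul x y) v) (LTm.inv ((LTm.mul x y).pw i)))
    (LTm.mul (LTm.mul (LTm.mul x y) (LTm.inv v)) ((LTm.mul x y).pw i))) LTm.one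

/-- the test term, case A -/
def termA (i : ℕ) : LTm (Fin 4 ⊕ Fin 2) :=
  LTm.sup (LTm.inf (LTm.inf (LTm.mul (LTm.var (Sum.inr 0))
      (LTm.inv (LTm.mul (LTm.var (Sum.inl 0)) (LTm.var (Sum.inl 1)))))
    (LTm.mul (LTm.var (Sum.inl 3)) (LTm.inv (LTm.var (Sum.inr 1)))))
    (bumpT (LTm.var (Sum.inl 0)) (LTm.var (Sum.inl 1)) (LTm.var (Sum.inl 2)) i)) LTm.one

/-- the test term, case B -/
def termB (i : ℕ) : LTm (Fin 4 ⊕ Fin 2) :=
  LTm.sup (LTm.inf (LTm.inf (LTm.var (Sum.inl 0))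
    (LTm.mul (LTm.var (Sum.inl 3)) (LTm.inv (LTm.var (Sum.inr 1)))))
    (LTm.inf (LTm.mul (LTm.mul (LTm.var (Sum.inr 1)) (LTm.var (Sum.inl 1)))
        (LTm.inv (LTm.var (Sum.inr 1))))
      (bumpT (LTm.var (Sum.inl 0)) (LTm.var (Sum.inl 1)) (LTm.var (Sum.inl 2)) i))) LTm.one

theorem eval_bumpT {X K : Type} [LGroup K] (w : X → K) (x y v : LTm X) (i : ℕ) :
    (bumpT x y v i).eval w = bump (x.eval w) (y.eval w) (v.eval w) i := by
  simp only [bumpT, bump, LTm.eval, LTm.eval_pw]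

theorem eval_termA {K : Type} [LGroup K] (w : Fin 4 ⊕ Fin 2 → K) (i : ℕ) :
    (termA i).eval w = testA (w (Sum.inl 0)) (w (Sum.inl 1)) (w (Sum.inl 2)) (w (Sum.inl 3))
      (w (Sum.inr 0)) (w (Sum.inr 1)) i := by
  simp only [termA, testA, LTm.eval, eval_bumpT]

theorem eval_termB {K : Type} [LGroup K] (w : Fin 4 ⊕ Fin 2 → K) (i : ℕ) :
    (termB i).eval w = testB (w (Sum.inl 0)) (w (Sum.inl 1)) (w (Sum.inl 2)) (w (Sum.inl 3))
      (w (Sum.inr 1)) i := by
  simp only [termB, testB, LTm.eval, eval_bumpT]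

theorem val_pw {X A : Type} [AddCommGroup A] [LinearOrder A] (ρ : X → A) (t : LTm X) (n : ℕ) :
    (t.pw n).val ρ = n • t.val ρ := by
  induction n with
  | zero => rw [zero_smul]; rfl
  | succ n ih => rw [succ_nsmul', ← ih]; rfl

/-! ### Relations in the first group -/

theorem GG_x : (1 : GG) ≤ gg 0 := by
  rw [← sup_eq_right]
  have : (LTm.sup LTm.one (LTm.var 0)).eval gg = (LTm.var 0).eval gg := by
    rw [SQ.eval_gen, SQ.eval_gen, GG_eq]
    intro i m σ _
    simp only [LTm.val]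
    exact max_eq_right (Int.natCast_nonneg _)
  exact this

theorem GG_y : (1 : GG) ≤ gg 1 := by
  rw [← sup_eq_right]
  have : (LTm.sup LTm.one (LTm.var 1)).eval gg = (LTm.var 1).eval gg := by
    rw [SQ.eval_gen, SQ.eval_gen, GG_eq]
    intro i m σ _
    simp only [LTm.val]
    exact max_eq_right (Int.natCast_nonneg _)
  exact this

theorem GG_xy : gg 0 ⊓ gg 1 = (1 : GG) := by
  have : (LTm.inf (LTm.var 0) (LTm.var 1)).eval gg = 1 := by
    rw [GG_one]
    intro i m σ _
    cases σ <;> simp [LTm.val, env, envN]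
  exact this

theorem GG_disj {n s : ℕ} (hs : ent n s = true) :
    ((gg 3 * ((gg 0 * gg 1) ^ (n * n + 1 + s))⁻¹) ⊔ 1) ⊓ bump (gg 0) (gg 1) (gg 2) n
      = (1 : GG) := by
  have : (LTm.inf (LTm.sup (LTm.mul (LTm.var 3) (LTm.inv
      ((LTm.mul (LTm.var 0) (LTm.var 1)).pw (n * n + 1 + s)))) LTm.one)
      (bumpT (LTm.var 0) (LTm.var 1) (LTm.var 2) n)).eval gg = 1 := by
    rw [GG_one]
    intro i m σ hm
    have h1 : (env i m σ 0) + (env i m σ 1) = 1 := by cases σ <;> simp [env, envN]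
    have h2 : env i m σ 2 = i := by simp [env, envN]
    have h3 : env i m σ 3 = i * i + 1 + m := by simp [env, envN]
    simp only [LTm.val, bumpT, val_pw, h1, h2, h3]
    by_cases hi : i = n
    · subst hi
      have hlt : m < s := by
        by_contra hcon
        push Not at hcon
        have := ent_mono hcon hs
        rw [hm] at this
        exact Bool.noConfusion this
      have h4 : (i : ℤ) * i + 1 + m + -((i * i + 1 + s) • (1 : ℤ)) ≤ 0 := by
        simp only [nsmul_eq_mul, mul_one]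
        push_cast
        linarith [(by exact_mod_cast hlt : (m : ℤ) < s)]
      rw [max_eq_right h4]
      exact min_eq_left (le_max_right _ _)
    · have h4 : min (1 + (i : ℤ) + -(n • (1 : ℤ))) (1 + -(i : ℤ) + n • (1 : ℤ)) ≤ 0 := by
        simp only [nsmul_eq_mul, mul_one]
        omega
      rw [max_eq_right h4]
      exact min_eq_right (le_max_right _ _)
  simp only [LTm.eval, LTm.eval_pw, eval_bumpT] at this
  exact this

/-! ### The test elements in halting cases -/

section halting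

variable {P : Type} [LGroup P] {i : GG → P} {j : Multiplicative ZZ → P}

theorem testB_eq_one (hi : IsLHom i) (hj : IsLHom j) {n s : ℕ} (hs : ent n s = true) :
    testB (i (gg 0)) (i (gg 1)) (i (gg 2)) (i (gg 3)) (j (hh 1)) n = 1 := by
  unfold testB
  apply sup_eq_right.mpr
  have h1 := congrArg i (GG_disj hs)
  rw [hi.map_inf, hi.map_one, map_bump hi, hi.map_sup, hi.map_mul, hi.map_inv, hi.map_pow,
    hi.map_one, hi.map_mul] at h1
  refine caseB (N := n * n + 1 + s) ?_ ?_ ?_ ?_ le_sup_right ?_ h1 ?_ ?_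
  · rw [← hi.map_one]; exact hi.mono GG_x
  · rw [← hi.map_one]; exact hi.mono GG_y
  · rw [← hi.map_inf, GG_xy, hi.map_one]
  · rw [← hi.map_mul, ← hi.map_mul, GG_comm]
  · exact le_sup_right
  · calc i (gg 3) = (i (gg 3) * ((i (gg 0) * i (gg 1)) ^ (n * n + 1 + s))⁻¹) *
          (i (gg 0) * i (gg 1)) ^ (n * n + 1 + s) := by group
      _ ≤ _ := mul_le_mul' le_sup_left le_rfl
  · rw [← hj.map_one]
    apply hj.mono
    show (0 : ZZ) ≤ zz 1 0
    rw [Prod.Lex.le_iff]
    left
    exact Int.one_pos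

theorem testA_eq_one (hi : IsLHom i) (hj : IsLHom j) (law : Pool.Agent.Helper6.ZA.NV P)
    {n s : ℕ} (hs : ent n s = true) :
    testA (i (gg 0)) (i (gg 1)) (i (gg 2)) (i (gg 3)) (j (hh 0)) (j (hh 1)) n = 1 := by
  unfold testA
  apply sup_eq_right.mpr
  have h1 := congrArg i (GG_disj hs)
  rw [hi.map_inf, hi.map_one, map_bump hi, hi.map_sup, hi.map_mul, hi.map_inv, hi.map_pow,
    hi.map_one, hi.map_mul] at h1
  refine caseA (N := n * n + 1 + s) law ?_ ?_ h1 ?_ ?_ ?_
  · rw [← hi.map_mul, ← hi.map_one]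
    apply hi.mono
    calc (1 : GG) = 1 * 1 := (one_mul 1).symm
      _ ≤ _ := mul_le_mul' GG_x GG_y
  · exact le_sup_right
  · calc i (gg 3) = (i (gg 3) * ((i (gg 0) * i (gg 1)) ^ (n * n + 1 + s))⁻¹) *
          (i (gg 0) * i (gg 1)) ^ (n * n + 1 + s) := by group
      _ ≤ _ := mul_le_mul' le_sup_left le_rfl
  · rw [← hj.map_one]
    apply hj.mono
    show (0 : ZZ) ≤ zz 0 1
    rw [Prod.Lex.le_iff]
    right
    exact ⟨rfl, zero_le_one⟩
  · intro m
    rw [← hj.map_pow]
    apply hj.mono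
    show m • (zz 0 1) ≤ zz 1 0
    rw [Prod.Lex.le_iff]
    left
    simp [zz]

end halting

/-! ### The test elements in the non-halting cases -/

/-- limit values of the generators at the index `n` -/
def envL (n : ℕ) (σ : Bool) : Fin 4 → ZZ :=
  ![zz 0 (bif σ then 1 else 0), zz 0 (bif σ then 0 else 1), zz 0 n, zz 1 0]

theorem phi_envL (n : ℕ) (σ : Bool) (m : ℕ) (x : Fin 4) :
    phi ((n * n + 1 + m : ℕ) : ℤ) (envL n σ x) = env n m σ x := by
  fin_cases x <;> cases σ <;> simp [phi, envL, env, envN, zz]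

theorem envL_wd {n : ℕ} (hn : ∀ m, ent n m = false) (σ : Bool) {s t : LTm (Fin 4)}
    (h : (SQ.mk s : GG) = SQ.mk t) : s.val (envL n σ) = t.val (envL n σ) := by
  rw [GG_eq] at h
  apply phi_inj
  filter_upwards [val_phi (envL n σ) s, val_phi (envL n σ) t,
    eventually_ge_atTop (n * n + 1)] with m h1 h2 h3
  obtain ⟨k, rfl⟩ := Nat.exists_eq_add_of_le h3
  have h4 : (fun x => phi ((n * n + 1 + k : ℕ) : ℤ) (envL n σ x)) = env n k σ :=
    funext fun x => phi_envL n σ k x
  rw [← h1, ← h2, h4]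
  exact h n k σ (hn k)

theorem testA_ne {n : ℕ} (hn : ∀ m, ent n m = false) :
    ∃ (α : GG → Multiplicative ZZ) (β : Multiplicative ZZ → Multiplicative ZZ),
      IsLHom α ∧ IsLHom β ∧
      testA (α (gg 0)) (α (gg 1)) (α (gg 2)) (α (gg 3)) (β (hh 0)) (β (hh 1)) n ≠ 1 := by
  let α : GG → Multiplicative ZZ := SQ.lift (fun x => Multiplicative.ofAdd (envL n true x))
    (fun s t h => by rw [LTm.eval_mult, LTm.eval_mult, envL_wd hn true h])
  let β : Multiplicative ZZ → Multiplicative ZZ := fun z =>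
    Multiplicative.ofAdd (zz (ofLex (Multiplicative.toAdd z)).1
      (2 * (ofLex (Multiplicative.toAdd z)).2 - (ofLex (Multiplicative.toAdd z)).1))
  refine ⟨α, β, SQ.lift_hom _ _, ?_, ?_⟩
  · apply isLHom_of_mono
    · intro a b
      apply Multiplicative.toAdd.injective
      apply ofLex.injective
      simp only [β, zz, toAdd_mul, toAdd_ofAdd, ofLex_add, ofLex_toLex]
      ext
      · simp
      · simp only [Prod.snd_add, Prod.fst_add]; ring
    · intro a ha
      have ha' : (0 : ZZ) ≤ Multiplicative.toAdd a := ha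
      show (0 : ZZ) ≤ zz _ _
      rw [Prod.Lex.le_iff] at ha' ⊢
      simp only [ofLex_zero, Prod.fst_zero, Prod.snd_zero, zz, ofLex_toLex] at ha' ⊢
      omega
  · have hα0 : α (gg 0) = Multiplicative.ofAdd (zz 0 1) := rfl
    have hα1 : α (gg 1) = Multiplicative.ofAdd (zz 0 0) := rfl
    have hα2 : α (gg 2) = Multiplicative.ofAdd (zz 0 n) := rfl
    have hα3 : α (gg 3) = Multiplicative.ofAdd (zz 1 0) := rfl
    have hβ0 : β (hh 0) = Multiplicative.ofAdd (zz 0 2) := rfl
    have hβ1 : β (hh 1) = Multiplicative.ofAdd (zz 1 (-1)) := rfl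
    rw [hα0, hα1, hα2, hα3, hβ0, hβ1]
    intro hcon
    have hle : Multiplicative.ofAdd (zz 0 1) ≤
        testA (Multiplicative.ofAdd (zz 0 1)) (Multiplicative.ofAdd (zz 0 0))
          (Multiplicative.ofAdd (zz 0 n)) (Multiplicative.ofAdd (zz 1 0))
          (Multiplicative.ofAdd (zz 0 2)) (Multiplicative.ofAdd (zz 1 (-1))) n := by
      unfold testA bump
      refine le_sup_of_le_left (le_inf (le_inf ?_ ?_) (le_sup_of_le_left (le_inf ?_ ?_)))
      · apply le_of_eq
        apply Multiplicative.toAdd.injective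
        apply ofLex.injective
        ext <;> simp [zz]
      · apply le_of_eq
        apply Multiplicative.toAdd.injective
        apply ofLex.injective
        ext <;> simp [zz]
      · apply le_of_eq
        apply Multiplicative.toAdd.injective
        apply ofLex.injective
        ext <;> simp [zz]
      · apply le_of_eq
        apply Multiplicative.toAdd.injective
        apply ofLex.injective
        ext <;> simp [zz]
    rw [hcon] at hle
    have hle' : zz 0 1 ≤ (0 : ZZ) := hle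
    rw [Prod.Lex.le_iff] at hle'
    simp [zz] at hle'

/-- the values of the four generators in the Scrimger group -/
def envS (n : ℕ) : Fin 4 → S2 := ![⟨0, 1, 0⟩, ⟨0, 0, 1⟩, ⟨0, n, n⟩, ⟨2, 0, 0⟩]

theorem zz_max_of_lt {q q' p p' : ℤ} (h : q < q') : max (zz q p) (zz q' p') = zz q' p' :=
  max_eq_right (Prod.Lex.le_iff.mpr (Or.inl h))

theorem zz_max_of_gt {q q' p p' : ℤ} (h : q' < q) : max (zz q p) (zz q' p') = zz q p :=
  max_eq_left (Prod.Lex.le_iff.mpr (Or.inl h))

theorem zz_max_of_eq {q p p' : ℤ} : max (zz q p) (zz q p') = zz q (max p p') := by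
  rcases le_total p p' with h | h
  · rw [max_eq_right h]
    exact max_eq_right (Prod.Lex.le_iff.mpr (Or.inr ⟨rfl, h⟩))
  · rw [max_eq_left h]
    exact max_eq_left (Prod.Lex.le_iff.mpr (Or.inr ⟨rfl, h⟩))

theorem zz_min_of_lt {q q' p p' : ℤ} (h : q < q') : min (zz q p) (zz q' p') = zz q p :=
  min_eq_left (Prod.Lex.le_iff.mpr (Or.inl h))

theorem zz_min_of_gt {q q' p p' : ℤ} (h : q' < q) : min (zz q p) (zz q' p') = zz q' p' :=
  min_eq_right (Prod.Lex.le_iff.mpr (Or.inl h))

theorem zz_min_of_eq {q p p' : ℤ} : min (zz q p) (zz q p') = zz q (min p p') := by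
  rcases le_total p p' with h | h
  · rw [min_eq_left h]
    exact min_eq_left (Prod.Lex.le_iff.mpr (Or.inr ⟨rfl, h⟩))
  · rw [min_eq_right h]
    exact min_eq_right (Prod.Lex.le_iff.mpr (Or.inr ⟨rfl, h⟩))

theorem envS_form (n : ℕ) (t : LTm (Fin 4)) : ∃ q p r : ℤ,
    t.eval (envS n) = ⟨2 * q, p, r⟩ ∧ t.val (envL n true) = zz q p ∧
      t.val (envL n false) = zz q r := by
  induction t with
  | var x =>
    fin_cases x
    · exact ⟨0, 1, 0, rfl, rfl, rfl⟩
    · exact ⟨0, 0, 1, rfl, rfl, rfl⟩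
    · exact ⟨0, n, n, rfl, rfl, rfl⟩
    · exact ⟨1, 0, 0, rfl, rfl, rfl⟩
  | one => exact ⟨0, 0, 0, rfl, rfl, rfl⟩
  | mul s t hs ht =>
    obtain ⟨q, p, r, h1, h2, h3⟩ := hs
    obtain ⟨q', p', r', h1', h2', h3'⟩ := ht
    refine ⟨q + q', p + p', r + r', ?_, ?_, ?_⟩
    · simp only [LTm.eval, h1, h1', S2.mul_def]
      rw [if_pos (by omega), mul_add]
    · simp only [LTm.val, h2, h2']; rfl
    · simp only [LTm.val, h3, h3']; rfl
  | inv s hs =>
    obtain ⟨q, p, r, h1, h2, h3⟩ := hs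
    refine ⟨-q, -p, -r, ?_, ?_, ?_⟩
    · simp only [LTm.eval, h1, S2.inv_def]
      rw [if_pos (by omega), mul_neg]
    · simp only [LTm.val, h2]; rfl
    · simp only [LTm.val, h3]; rfl
  | sup s t hs ht =>
    obtain ⟨q, p, r, h1, h2, h3⟩ := hs
    obtain ⟨q', p', r', h1', h2', h3'⟩ := ht
    rcases lt_trichotomy q q' with h | h | h
    · refine ⟨q', p', r', ?_, ?_, ?_⟩
      · simp only [LTm.eval, h1, h1', S2.sup_def]
        rw [if_pos (by omega)]
      · simp only [LTm.val, h2, h2', zz_max_of_lt h]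
      · simp only [LTm.val, h3, h3', zz_max_of_lt h]
    · subst h
      refine ⟨q, max p p', max r r', ?_, ?_, ?_⟩
      · simp only [LTm.eval, h1, h1', S2.sup_def]
        rw [if_neg (by omega), if_neg (by omega)]
      · simp only [LTm.val, h2, h2', zz_max_of_eq]
      · simp only [LTm.val, h3, h3', zz_max_of_eq]
    · refine ⟨q, p, r, ?_, ?_, ?_⟩
      · simp only [LTm.eval, h1, h1', S2.sup_def]
        rw [if_neg (by omega), if_pos (by omega)]
      · simp only [LTm.val, h2, h2', zz_max_of_gt h]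
      · simp only [LTm.val, h3, h3', zz_max_of_gt h]
  | inf s t hs ht =>
    obtain ⟨q, p, r, h1, h2, h3⟩ := hs
    obtain ⟨q', p', r', h1', h2', h3'⟩ := ht
    rcases lt_trichotomy q q' with h | h | h
    · refine ⟨q, p, r, ?_, ?_, ?_⟩
      · simp only [LTm.eval, h1, h1', S2.inf_def]
        rw [if_pos (by omega)]
      · simp only [LTm.val, h2, h2', zz_min_of_lt h]
      · simp only [LTm.val, h3, h3', zz_min_of_lt h]
    · subst h
      refine ⟨q, min p p', min r r', ?_, ?_, ?_⟩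
      · simp only [LTm.eval, h1, h1', S2.inf_def]
        rw [if_neg (by omega), if_neg (by omega)]
      · simp only [LTm.val, h2, h2', zz_min_of_eq]
      · simp only [LTm.val, h3, h3', zz_min_of_eq]
    · refine ⟨q', p', r', ?_, ?_, ?_⟩
      · simp only [LTm.eval, h1, h1', S2.inf_def]
        rw [if_neg (by omega), if_pos (by omega)]
      · simp only [LTm.val, h2, h2', zz_min_of_gt h]
      · simp only [LTm.val, h3, h3', zz_min_of_gt h]

theorem testB_ne {n : ℕ} (hn : ∀ m, ent n m = false) :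
    ∃ (α : GG → S2) (β : Multiplicative ZZ → S2), IsLHom α ∧ IsLHom β ∧
      testB (α (gg 0)) (α (gg 1)) (α (gg 2)) (α (gg 3)) (β (hh 1)) n ≠ 1 := by
  let α : GG → S2 := SQ.lift (envS n) (fun s t h => by
    obtain ⟨q, p, r, h1, h2, h3⟩ := envS_form n s
    obtain ⟨q', p', r', h1', h2', h3'⟩ := envS_form n t
    have e1 := envL_wd hn true h
    have e2 := envL_wd hn false h
    rw [h2, h2'] at e1
    rw [h3, h3'] at e2
    have e3 := congrArg ofLex e1
    have e4 := congrArg ofLex e2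
    simp only [zz, ofLex_toLex, Prod.mk.injEq] at e3 e4
    rw [h1, h1', e3.1, e3.2, e4.2])
  let β : Multiplicative ZZ → S2 := fun z => ⟨(ofLex (Multiplicative.toAdd z)).1, 0, 0⟩
  refine ⟨α, β, SQ.lift_hom _ _, ?_, ?_⟩
  · apply isLHom_of_mono
    · intro a b
      simp only [β, S2.mul_def, toAdd_mul, ofLex_add, Prod.fst_add]
      split_ifs <;> simp
    · intro a ha
      have ha' : (0 : ZZ) ≤ Multiplicative.toAdd a := ha
      rw [Prod.Lex.le_iff] at ha'
      rw [S2.le_def]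
      simp only [ofLex_zero, Prod.fst_zero, Prod.snd_zero, S2.one_def, β] at ha' ⊢
      omega
  · have hα0 : α (gg 0) = ⟨0, 1, 0⟩ := rfl
    have hα1 : α (gg 1) = ⟨0, 0, 1⟩ := rfl
    have hα2 : α (gg 2) = ⟨0, n, n⟩ := rfl
    have hα3 : α (gg 3) = ⟨2, 0, 0⟩ := rfl
    have hβ1 : β (hh 1) = ⟨1, 0, 0⟩ := rfl
    rw [hα0, hα1, hα2, hα3, hβ1]
    have hpow : ∀ m : ℕ, (⟨0, 1, 1⟩ : S2) ^ m = ⟨0, m, m⟩ := by
      intro m
      induction m with
      | zero => rw [pow_zero]; rfl
      | succ m ih =>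
        rw [pow_succ, ih, S2.mul_def]
        simp
    have hxy : (⟨0, 1, 0⟩ : S2) * ⟨0, 0, 1⟩ = ⟨0, 1, 1⟩ := rfl
    intro hcon
    have hle : (⟨0, 1, 0⟩ : S2) ≤ testB ⟨0, 1, 0⟩ ⟨0, 0, 1⟩ ⟨0, n, n⟩ ⟨2, 0, 0⟩ ⟨1, 0, 0⟩ n := by
      unfold testB bump
      rw [hxy, hpow]
      refine le_sup_of_le_left (le_inf (le_inf le_rfl ?_) (le_inf ?_
        (le_sup_of_le_left (le_inf ?_ ?_))))
      · rw [S2.le_def]; left; decide
      · rw [S2.le_def]; right; decide
      · rw [S2.le_def]; right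
        simp [S2.mul_def, S2.inv_def]
      · rw [S2.le_def]; right
        simp [S2.mul_def, S2.inv_def]
    rw [hcon, S2.le_def, S2.one_def] at hle
    simp at hle

end Pool.Agent.TH108
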