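import Pool.Agent.TH108.WPComp

/-!
Free products in nontrivial varieties of `ℓ`-groups do not preserve solubility of the word
problem.
-/

set_option autoImplicit false

namespace Pool.Agent.TH108

open Pool.Agent.Helper6.ZA (NV InVar LTerm)

/-! ### Holland's theorem for the present terms -/

/-- translation of terms -/
def toZA : LTm ℕ → LTerm
  | .var x => LTerm.var x
  | .one => LTerm.one
  | .mul s t => LTerm.mul (toZA s) (toZA t)
  | .inv s => LTerm.inv (toZA s)
  | .sup s t => LTerm.sup (toZA s) (toZA t)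
  | .inf s t => LTerm.inf (toZA s) (toZA t)

theorem eval_toZA {G : Type} [LGroup G] (v : ℕ → G) (t : LTm ℕ) :
    (toZA t).eval v = t.eval v := by
  induction t with
  | var x => rfl
  | one => rfl
  | mul s t hs ht => simp only [toZA, LTerm.eval, LTm.eval, hs, ht]
  | inv s hs => simp only [toZA, LTerm.eval, LTm.eval, hs]
  | sup s t hs ht => simp only [toZA, LTerm.eval, LTm.eval, hs, ht]
  | inf s t hs ht => simp only [toZA, LTerm.eval, LTm.eval, hs, ht]

/-- translation of sets of identities -/
def toZAset (E : Set (LTm ℕ × LTm ℕ)) : Set (LTerm × LTerm) :=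
  {e | ∃ d ∈ E, e = (toZA d.1, toZA d.2)}

theorem inVar_iff {E : Set (LTm ℕ × LTm ℕ)} {G : Type} [LGroup G] :
    InVar (toZAset E) G ↔ InVariety E G := by
  constructor
  · intro h e he v
    have := h.ids (toZA e.1, toZA e.2) ⟨e, he, rfl⟩ v
    rwa [eval_toZA, eval_toZA] at this
  · intro h
    refine ⟨Pool.Agent.Helper6.ZA.isLGroup_of, ?_⟩
    rintro e ⟨d, hd, rfl⟩ v
    rw [eval_toZA, eval_toZA]
    exact h d hd v

/-- A variety of `ℓ`-groups with a member which is not normal-valued contains all
`ℓ`-groups. -/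
theorem holland' {E : Set (LTm ℕ × LTm ℕ)} {G : Type} [LGroup G] (hG : InVariety E G)
    (hnv : ¬ NV G) (K : Type) [LGroup K] : InVariety E K :=
  inVar_iff.mp (Pool.Agent.Helper6.ZA.holland (inVar_iff.mpr hG) hnv K
    Pool.Agent.Helper6.ZA.isLGroup_of)

/-! ### The main theorem -/

theorem main_neg {E : Set (LTm ℕ × LTm ℕ)} (hE : ¬ TrivialVariety E) {P : Type} [LGroup P]
    {i : GG → P} {j : Multiplicative ZZ → P} (hP : IsFreeProduct E i j) :
    ¬ SolubleWP (Sum.elim (fun x => i (gg x)) (fun y => j (hh y))) := by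
  by_cases hnv : ∀ (K : Type) [LGroup K], InVariety E K → NV K
  · refine not_soluble_of_test _ termA PW.termA ?_ ?_
    · intro n s hs
      rw [eval_termA]
      exact testA_eq_one hP.left hP.right (hnv P hP.mem) hs
    · intro n hn hcon
      obtain ⟨α, β, hα, hβ, hne⟩ := testA_ne hn
      obtain ⟨γ, ⟨hγ, h1, h2⟩, _⟩ := hP.univ (Multiplicative ZZ)
        (inVariety_ZZ (inVariety_Z hE)) α β hα hβ
      have h3 := congrArg γ hcon
      rw [← hγ.eval, hγ.map_one, eval_termA] at h3
      simp only [Sum.elim_inl, Sum.elim_inr, h1, h2] at h3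
      exact hne h3
  · push Not at hnv
    obtain ⟨K₀, _, hK₀, hn₀⟩ := hnv
    refine not_soluble_of_test _ termB PW.termB ?_ ?_
    · intro n s hs
      rw [eval_termB]
      exact testB_eq_one hP.left hP.right hs
    · intro n hn hcon
      obtain ⟨α, β, hα, hβ, hne⟩ := testB_ne hn
      obtain ⟨γ, ⟨hγ, h1, h2⟩, _⟩ := hP.univ S2 (holland' hK₀ hn₀ S2) α β hα hβ
      have h3 := congrArg γ hcon
      rw [← hγ.eval, hγ.map_one, eval_termB] at h3
      simp only [Sum.elim_inl, Sum.elim_inr, h1, h2] at h3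
      exact hne h3

theorem preserves_iff (E : Set (LTm ℕ × LTm ℕ)) :
    PreservesSolubility E ↔ TrivialVariety E := by
  constructor
  · intro h
    by_contra hE
    obtain ⟨P, _, i, j, hP⟩ := exists_freeProduct E GG (Multiplicative ZZ)
    exact main_neg hE hP (h (Fin 4) (Fin 2) GG (Multiplicative ZZ) gg hh
      (GG_inVariety (inVariety_Z hE)) (inVariety_ZZ (inVariety_Z hE)) SQ.generates hh_generates
      GG_soluble HH_soluble P i j hP)
  · intro h X Y G H _ _ _ _ g h' _ _ _ _ _ _ P _ i j hP
    refine ⟨fun _ => true, Computable.const true, fun t => ?_⟩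
    simp only [true_iff]
    exact h P hP.mem _

end Pool.Agent.TH108
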