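import Pool.Agent.TH108.WPAlg

/-!
Concrete `ℓ`-groups used in the construction.
-/

set_option autoImplicit false

namespace Pool.Agent.TH108

open Filter

/-! ### Totally ordered abelian groups -/

section lin

variable {A : Type} [AddCommGroup A] [LinearOrder A] [IsOrderedAddMonoid A]

instance multLGroup : LGroup (Multiplicative A) where
  le_mul_left _ _ c h := mul_le_mul_right h c
  le_mul_right _ _ c h := mul_le_mul_left h c

omit [IsOrderedAddMonoid A] in
/-- Additive evaluation. -/
def LTm.val {X : Type} (ρ : X → A) : LTm X → A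
  | var x => ρ x
  | one => 0
  | mul s t => s.val ρ + t.val ρ
  | inv s => - s.val ρ
  | sup s t => max (s.val ρ) (t.val ρ)
  | inf s t => min (s.val ρ) (t.val ρ)

theorem LTm.eval_mult {X : Type} (ρ : X → A) (t : LTm X) :
    t.eval (fun x => Multiplicative.ofAdd (ρ x)) = Multiplicative.ofAdd (t.val ρ) := by
  induction t with
  | var x => rfl
  | one => rfl
  | mul s t hs ht => simp only [LTm.eval, LTm.val, hs, ht]; rfl
  | inv s hs => simp only [LTm.eval, LTm.val, hs]; rfl
  | sup s t hs ht => simp only [LTm.eval, LTm.val, hs, ht]; rfl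
  | inf s t hs ht => simp only [LTm.eval, LTm.val, hs, ht]; rfl

theorem LTm.eval_mult' {X : Type} (v : X → Multiplicative A) (t : LTm X) :
    t.eval v = Multiplicative.ofAdd (t.val (fun x => Multiplicative.toAdd (v x))) := by
  rw [← LTm.eval_mult]
  rfl

/-- homomorphisms from a totally ordered group -/
theorem isLHom_of_mono {K : Type} [LGroup K] (f : Multiplicative A → K)
    (hmul : ∀ a b, f (a * b) = f a * f b) (hmono : ∀ a, 1 ≤ a → 1 ≤ f a) : IsLHom f := by
  have h1 : f 1 = 1 := by
    have h := hmul 1 1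
    rw [mul_one] at h
    exact (mul_eq_left.mp h.symm)
  have hinv : ∀ a, f a⁻¹ = (f a)⁻¹ := by
    intro a
    apply eq_inv_of_mul_eq_one_left
    rw [← hmul, inv_mul_cancel, h1]
  have hm : ∀ a b, a ≤ b → f a ≤ f b := by
    intro a b hab
    have h2 : 1 ≤ b * a⁻¹ := by
      rw [← mul_inv_cancel a]
      exact mul_le_mul_left hab a⁻¹
    have h3 := hmono _ h2
    rw [hmul, hinv] at h3
    have h4 := mul_le_mul_left h3 (f a)
    rwa [one_mul, inv_mul_cancel_right] at h4
  refine ⟨hmul, fun a b => ?_, fun a b => ?_⟩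
  · rcases le_total a b with h | h
    · rw [sup_eq_right.mpr h, sup_eq_right.mpr (hm _ _ h)]
    · rw [sup_eq_left.mpr h, sup_eq_left.mpr (hm _ _ h)]
  · rcases le_total a b with h | h
    · rw [inf_eq_left.mpr h, inf_eq_left.mpr (hm _ _ h)]
    · rw [inf_eq_right.mpr h, inf_eq_right.mpr (hm _ _ h)]

end lin

/-! ### The lexicographic product of two copies of the integers -/

/-- the lexicographically ordered group of pairs of integers -/
abbrev ZZ : Type := ℤ ×ₗ ℤ

/-- the element `(q, p)` -/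
abbrev zz (q p : ℤ) : ZZ := toLex (q, p)

/-- evaluation of `(q, p)` at a large number -/
def phi (m : ℤ) (z : ZZ) : ℤ := (ofLex z).1 * m + (ofLex z).2

theorem phi_add (m : ℤ) (z w : ZZ) : phi m (z + w) = phi m z + phi m w := by
  unfold phi
  simp only [ofLex_add, Prod.fst_add, Prod.snd_add]
  ring

theorem phi_neg (m : ℤ) (z : ZZ) : phi m (-z) = - phi m z := by
  unfold phi
  simp only [ofLex_neg, Prod.fst_neg, Prod.snd_neg]
  ring

theorem phi_zero (m : ℤ) : phi m 0 = 0 := by
  unfold phi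
  simp

theorem phi_mono {z w : ZZ} (h : z ≤ w) : ∀ᶠ m : ℕ in atTop, phi (m : ℤ) z ≤ phi (m : ℤ) w := by
  rw [Prod.Lex.le_iff] at h
  rcases h with h | ⟨h, h'⟩
  · filter_upwards [eventually_ge_atTop ((ofLex z).2 - (ofLex w).2).natAbs] with m hm
    unfold phi
    have h1 : (ofLex z).1 + 1 ≤ (ofLex w).1 := h
    have h2 : ((ofLex z).1 + 1) * (m:ℤ) ≤ (ofLex w).1 * m :=
      mul_le_mul_of_nonneg_right h1 (by positivity)
    have h3 : (ofLex z).2 - (ofLex w).2 ≤ (m : ℤ) := by
      have : ((ofLex z).2 - (ofLex w).2) ≤ (((ofLex z).2 - (ofLex w).2).natAbs : ℤ) :=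
        Int.le_natAbs
      exact this.trans (by exact_mod_cast hm)
    nlinarith
  · exact Eventually.of_forall fun m => by unfold phi; rw [h]; linarith

theorem phi_max (z w : ZZ) :
    ∀ᶠ m : ℕ in atTop, phi (m : ℤ) (max z w) = max (phi (m : ℤ) z) (phi (m : ℤ) w) := by
  rcases le_total z w with h | h
  · filter_upwards [phi_mono h] with m hm
    rw [max_eq_right h, max_eq_right hm]
  · filter_upwards [phi_mono h] with m hm
    rw [max_eq_left h, max_eq_left hm]

theorem phi_min (z w : ZZ) :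
    ∀ᶠ m : ℕ in atTop, phi (m : ℤ) (min z w) = min (phi (m : ℤ) z) (phi (m : ℤ) w) := by
  rcases le_total z w with h | h
  · filter_upwards [phi_mono h] with m hm
    rw [min_eq_left h, min_eq_left hm]
  · filter_upwards [phi_mono h] with m hm
    rw [min_eq_right h, min_eq_right hm]

theorem phi_inj {z w : ZZ} (h : ∀ᶠ m : ℕ in atTop, phi (m : ℤ) z = phi (m : ℤ) w) : z = w := by
  obtain ⟨M, hM⟩ := eventually_atTop.mp h
  have h1 := hM M le_rfl
  have h2 := hM (M + 1) (Nat.le_succ M)
  unfold phi at h1 h2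
  push_cast at h2
  have h3 : (ofLex z).1 = (ofLex w).1 := by linarith
  have h4 : (ofLex z).2 = (ofLex w).2 := by rw [h3] at h1; linarith
  exact ofLex.injective (Prod.ext h3 h4)

theorem val_phi {X : Type} (v : X → ZZ) (t : LTm X) :
    ∀ᶠ m : ℕ in atTop, t.val (fun x => phi (m : ℤ) (v x)) = phi (m : ℤ) (t.val v) := by
  induction t with
  | var x => exact Eventually.of_forall fun m => rfl
  | one => exact Eventually.of_forall fun m => by simp only [LTm.val, phi_zero]
  | mul s t hs ht =>
    filter_upwards [hs, ht] with m h1 h2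
    simp only [LTm.val, h1, h2, phi_add]
  | inv s hs =>
    filter_upwards [hs] with m h1
    simp only [LTm.val, h1, phi_neg]
  | sup s t hs ht =>
    filter_upwards [hs, ht, phi_max (s.val v) (t.val v)] with m h1 h2 h3
    simp only [LTm.val, h1, h2, h3]
  | inf s t hs ht =>
    filter_upwards [hs, ht, phi_min (s.val v) (t.val v)] with m h1 h2 h3
    simp only [LTm.val, h1, h2, h3]

/-- The lexicographic group satisfies all identities of the integers. -/
theorem inVariety_ZZ {E : Set (LTm ℕ × LTm ℕ)} (h : InVariety E (Multiplicative ℤ)) :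
    InVariety E (Multiplicative ZZ) := by
  intro e he v
  rw [LTm.eval_mult', LTm.eval_mult']
  congr 1
  apply phi_inj
  filter_upwards [val_phi (fun x => Multiplicative.toAdd (v x)) e.1,
    val_phi (fun x => Multiplicative.toAdd (v x)) e.2] with m h1 h2
  rw [← h1, ← h2]
  have h3 := h e he (fun x => Multiplicative.ofAdd (phi (m:ℤ) (Multiplicative.toAdd (v x))))
  rw [LTm.eval_mult, LTm.eval_mult] at h3
  exact Multiplicative.ofAdd.injective h3

/-- The integers belong to every nontrivial variety. -/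
theorem inVariety_Z {E : Set (LTm ℕ × LTm ℕ)} (h : ¬ TrivialVariety E) :
    InVariety E (Multiplicative ℤ) := by
  unfold TrivialVariety at h
  push Not at h
  obtain ⟨K, _, hK, a, ha⟩ := h
  -- a strictly positive element
  set c := a ⊔ a⁻¹ with hc
  have hc1 : 1 ≤ c := by
    have h1 := Pool.Agent.Helper6.ZA.pos_mul_neg a
    by_contra hcon
    -- `c * c ≥ 1`
    have h2 : 1 ≤ c * c := by
      calc (1:K) = a * a⁻¹ := (mul_inv_cancel a).symm
        _ ≤ c * c := mul_le_mul' le_sup_left le_sup_right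
    -- `(c ⊓ 1)`: use positive and negative parts
    apply hcon
    have h3 : (c ⊔ 1) * (c⁻¹ ⊔ 1)⁻¹ = c := Pool.Agent.Helper6.ZA.pos_mul_neg c
    have h4 : (c ⊔ 1) ⊓ (c⁻¹ ⊔ 1) = 1 := Pool.Agent.Helper6.ZA.inf_pos_neg c
    have h5 : c⁻¹ ≤ c := by
      calc c⁻¹ = c⁻¹ * 1 := (mul_one _).symm
        _ ≤ c⁻¹ * (c * c) := mul_le_mul' le_rfl h2
        _ = c := by group
    have h6 : c⁻¹ ⊔ 1 ≤ c ⊔ 1 := sup_le_sup_right h5 1
    rw [inf_eq_right.mpr h6] at h4
    rw [h4, inv_one, mul_one] at h3
    exact h3 ▸ le_sup_right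
  have hcne : c ≠ 1 := by
    intro h1
    apply ha
    have h2 : a ≤ 1 := h1 ▸ le_sup_left
    have h3 : a⁻¹ ≤ 1 := h1 ▸ le_sup_right
    exact le_antisymm h2 (inv_le_one'.mp h3)
  have hpow : ∀ n : ℤ, 0 ≤ n → 1 ≤ c ^ n := by
    intro n hn
    obtain ⟨k, rfl⟩ := Int.eq_ofNat_of_zero_le hn
    rw [zpow_natCast]
    exact Pool.Agent.Helper6.ZA.one_le_pow' hc1 k
  have hf : IsLHom (fun n : Multiplicative ℤ => c ^ (Multiplicative.toAdd n)) := by
    apply isLHom_of_mono
    · intro a b
      rw [toAdd_mul, zpow_add]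
    · intro a h0
      exact hpow _ h0
  refine hK.of_inj hf ?_
  have hker : ∀ n : ℤ, 0 < n → c ^ n ≠ 1 := by
    intro n hn h1
    apply hcne
    apply le_antisymm _ hc1
    have h2 : n = 1 + (n - 1) := by ring
    rw [h2, zpow_add, zpow_one] at h1
    rw [← h1]
    exact le_mul_of_one_le_right' (hpow _ (by omega))
  intro x y hxy
  have hxy' : c ^ (Multiplicative.toAdd x) = c ^ (Multiplicative.toAdd y) := hxy
  apply Multiplicative.toAdd.injective
  rcases lt_trichotomy (Multiplicative.toAdd x) (Multiplicative.toAdd y) with h1 | h1 | h1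
  · exfalso
    apply hker _ (sub_pos.mpr h1)
    rw [zpow_sub, hxy', mul_inv_cancel]
  · exact h1
  · exfalso
    apply hker _ (sub_pos.mpr h1)
    rw [zpow_sub, hxy', mul_inv_cancel]

/-! ### A two-block Scrimger group -/

/-- The group of the order automorphisms of the lexicographic product of two copies of the
integers which shift the blocks by `n`, and shift by `p` inside the even blocks, by `r` inside
the odd blocks. -/
@[ext] structure S2 where
  n : ℤ
  p : ℤ
  r : ℤ

namespace S2

instance : Mul S2 := ⟨fun a b =>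
  if b.n % 2 = 0 then ⟨a.n + b.n, a.p + b.p, a.r + b.r⟩ else ⟨a.n + b.n, a.r + b.p, a.p + b.r⟩⟩

instance : One S2 := ⟨⟨0, 0, 0⟩⟩

instance : Inv S2 := ⟨fun a => if a.n % 2 = 0 then ⟨-a.n, -a.p, -a.r⟩ else ⟨-a.n, -a.r, -a.p⟩⟩

theorem mul_def (a b : S2) : a * b =
  if b.n % 2 = 0 then ⟨a.n + b.n, a.p + b.p, a.r + b.r⟩
    else ⟨a.n + b.n, a.r + b.p, a.p + b.r⟩ := rfl

theorem one_def : (1 : S2) = ⟨0, 0, 0⟩ := rfl

theorem inv_def (a : S2) : a⁻¹ =
  if a.n % 2 = 0 then ⟨-a.n, -a.p, -a.r⟩ else ⟨-a.n, -a.r, -a.p⟩ := rfl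

instance : Group S2 where
  mul_assoc a b c := by
    obtain ⟨a1, a2, a3⟩ := a
    obtain ⟨b1, b2, b3⟩ := b
    obtain ⟨c1, c2, c3⟩ := c
    rcases Int.emod_two_eq_zero_or_one b1 with hb | hb <;>
      rcases Int.emod_two_eq_zero_or_one c1 with hc | hc
    · have h1 : (b1 + c1) % 2 = 0 := by omega
      simp [mul_def, hb, hc, h1, add_assoc]
    · have h1 : ¬ (b1 + c1) % 2 = 0 := by omega
      simp [mul_def, hb, hc, h1, add_assoc]
    · have h1 : ¬ (b1 + c1) % 2 = 0 := by omega
      simp [mul_def, hb, hc, h1, add_assoc]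
    · have h1 : (b1 + c1) % 2 = 0 := by omega
      simp [mul_def, hb, hc, h1, add_assoc]
  one_mul a := by
    obtain ⟨a1, a2, a3⟩ := a
    simp only [mul_def, one_def]
    split_ifs <;> simp
  mul_one a := by
    obtain ⟨a1, a2, a3⟩ := a
    simp [mul_def, one_def]
  inv_mul_cancel a := by
    obtain ⟨a1, a2, a3⟩ := a
    rcases Int.emod_two_eq_zero_or_one a1 with ha | ha <;> simp [mul_def, inv_def, one_def, ha]

instance : LE S2 := ⟨fun a b => a.n < b.n ∨ (a.n = b.n ∧ a.p ≤ b.p ∧ a.r ≤ b.r)⟩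

theorem le_def (a b : S2) : a ≤ b ↔ a.n < b.n ∨ (a.n = b.n ∧ a.p ≤ b.p ∧ a.r ≤ b.r) := Iff.rfl

instance : Max S2 := ⟨fun a b => if a.n < b.n then b else if b.n < a.n then a else
  ⟨a.n, max a.p b.p, max a.r b.r⟩⟩

instance : Min S2 := ⟨fun a b => if a.n < b.n then a else if b.n < a.n then b else
  ⟨a.n, min a.p b.p, min a.r b.r⟩⟩

theorem sup_def (a b : S2) : a ⊔ b = if a.n < b.n then b else if b.n < a.n then a else
  ⟨a.n, max a.p b.p, max a.r b.r⟩ := rfl

theorem inf_def (a b : S2) : a ⊓ b = if a.n < b.n then a else if b.n < a.n then b else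
  ⟨a.n, min a.p b.p, min a.r b.r⟩ := rfl

instance : PartialOrder S2 where
  le_refl a := by rw [le_def]; omega
  le_trans a b c := by simp only [le_def]; omega
  le_antisymm a b := by
    simp only [le_def]
    intro h1 h2
    ext <;> omega

instance : Lattice S2 where
  sup := fun a b => a ⊔ b
  inf := fun a b => a ⊓ b
  le_sup_left a b := by
    rw [sup_def]; split_ifs <;> rw [le_def] <;> (try dsimp only) <;> omega
  le_sup_right a b := by
    rw [sup_def]; split_ifs <;> rw [le_def] <;> (try dsimp only) <;> omega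
  sup_le a b c h1 h2 := by
    rw [le_def] at h1 h2
    rw [sup_def]; split_ifs <;> rw [le_def] <;> (try dsimp only) <;> omega
  inf_le_left a b := by
    rw [inf_def]; split_ifs <;> rw [le_def] <;> (try dsimp only) <;> omega
  inf_le_right a b := by
    rw [inf_def]; split_ifs <;> rw [le_def] <;> (try dsimp only) <;> omega
  le_inf a b c h1 h2 := by
    rw [le_def] at h1 h2
    rw [inf_def]; split_ifs <;> rw [le_def] <;> (try dsimp only) <;> omega

instance : LGroup S2 where
  le_mul_left a b c h := by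
    obtain ⟨a1, a2, a3⟩ := a
    obtain ⟨b1, b2, b3⟩ := b
    obtain ⟨c1, c2, c3⟩ := c
    simp only [le_def] at h
    simp only [le_def, mul_def]
    split_ifs <;> simp only [] <;> omega
  le_mul_right a b c h := by
    obtain ⟨a1, a2, a3⟩ := a
    obtain ⟨b1, b2, b3⟩ := b
    obtain ⟨c1, c2, c3⟩ := c
    simp only [le_def] at h
    simp only [le_def, mul_def]
    split_ifs <;> simp only [] <;> omega

end S2

end Pool.Agent.TH108
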